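import Pool.Agent.Helper92.Sem.Klt
import Pool.Agent.Helper92.Weak.Final

set_option autoImplicit false
set_option linter.unusedSectionVars false

/-! The adjoint divisor of a pair, with control of the orders of the form. -/

namespace Pool.Agent.Helper92.Weak

open scoped KaehlerDifferential
open Module

section

variable {k K L : Type*} [Field k] [Field K] [Field L] [Algebra k K] [Algebra k L] [Algebra K L]
  [IsScalarTower k K L] {r : ℕ} {t : Fin r → L} [IsAlgClosed k] [CharZero k]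

/-- The adjoint divisor of a log canonical pair. -/
theorem exists_adj_ord (𝒱 : TV k K t) {d : ℕ} {y : Fin d → K} (hy : IsTranscendenceBasis k y)
    (ωZ : ⋀[K]^d Ω[K⁄k]) (KZ : 𝒱.Z.Div) (hKZ : 𝒱.Z.IsDivOf ωZ KZ)
    (ωX : ⋀[L]^(d + r) Ω[L⁄k]) (KX : 𝒱.X.Div) (hKX : 𝒱.X.IsDivOf ωX KX)
    (Δ : 𝒱.X.Div) (hΔ : ∀ P, 0 ≤ Δ P) (hlc : 𝒱.X.IsLC ωX KX Δ)
    (ΔZ : 𝒱.Z.Div) (hΔZ : ∀ Q, 0 ≤ ΔZ Q)
    (hle : ∀ j : 𝒱.JJ, TV.mult j * ΔZ (TV.base j) ≤ Δ ⟨j.1, j.2.1⟩ + (TV.mult j - 1)) :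
    ∃ 𝒜 : 𝒱.Adj (fun v₀ a => v₀.IsDivisorial ∧ v₀.IsOrd ωZ a),
      𝒜.KX = KX ∧ 𝒜.Δ = Δ ∧ 𝒜.KZ = KZ ∧ 𝒜.ΔZ = ΔZ ∧
      ∀ (v₀ : DVal k K) (a : ℤ), v₀.IsDivisorial → v₀.IsOrd ωZ a → ∀ (e : ℕ) (w : Fin r → ℤ)
        (hs : ∃ (c : K) (u : Fin r → ℤ), c ≠ 0 ∧ ZVal.ofDVal e v₀ c + ipair w u = 1), 0 < e →
        (monoVal 𝒱.ht (ZVal.ofDVal e v₀) w hs).IsDivisorial ∧
        (monoVal 𝒱.ht (ZVal.ofDVal e v₀) w hs).IsOrd ωX
          (monoVal 𝒱.ht (ZVal.ofDVal e v₀) w hs 𝒜.g + (e * (a + 1) - 1)) := by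
  classical
  -- the form on the base
  obtain ⟨b, hb⟩ := Pool.Agent.Helper50.Forms.exists_kaehler_basis hy
  obtain ⟨f₀, hf₀⟩ := Pool.Agent.Helper50.Forms.exists_smul_dform y b hb ωZ
  have hy0 : dform k y ≠ 0 := Pool.Agent.Helper50.Forms.dform_ne_zero y b hb
  obtain ⟨f, hf, hfω⟩ : ∃ f : K, f ≠ 0 ∧ ∀ (v₀ : DVal k K) (a : ℤ), v₀.IsOrd ωZ a →
      v₀.IsOrd (f • dform k y) a := by
    by_cases h : f₀ = 0
    · refine ⟨1, one_ne_zero, fun v₀ a ha => ?_⟩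
      rw [hf₀, h, zero_smul] at ha
      exact absurd ha (not_isOrd_zero v₀ a)
    · exact ⟨f₀, h, fun v₀ a ha => by rwa [hf₀] at ha⟩
  -- the form on `L`
  obtain ⟨g₀, hg₀⟩ := exists_smul_omega0 hy 𝒱.ht hf y hy0 ωX
  -- if there is no valuation on `L` everything is trivial
  obtain ⟨g, hg, hgω⟩ : ∃ g : L, g ≠ 0 ∧ ((∃ v : DVal k L, True) →
      ωX = g • omega0 (k := k) t f y) := by
    by_cases h : g₀ = 0
    · refine ⟨1, one_ne_zero, fun ⟨v, _⟩ => ?_⟩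
      exfalso
      obtain ⟨P, hP⟩ := 𝒱.X.exists_prime v
      obtain ⟨a, -, ha⟩ := hKX ⟨P, hP⟩
      rw [hg₀, h, zero_smul] at ha
      exact not_isOrd_zero _ _ ha
    · exact ⟨g₀, h, fun _ => hg₀⟩
  have hord : ∀ (v : DVal k L) (a : ℤ), v.IsOrd (omega0 (k := k) t f y) a →
      v.IsOrd ωX (v g + a) := by
    intro v a ha
    rw [hgω ⟨v, trivial⟩]
    exact (isOrd_smul v hg).2 ha
  have hKX' : ∀ (P : 𝒱.X.primeDivisors) (a : ℤ), P.1.IsOrd (omega0 (k := k) t f y) a →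
      KX P = P.1 g + a := by
    intro P a ha
    obtain ⟨a', h1, h2⟩ := hKX P
    rw [h1, isOrd_unique h2 (hord P.1 a ha)]
    push_cast
    rfl
  have htriv : ∀ w : Fin r → ℤ, ∀ hs : ∃ (c : K) (u : Fin r → ℤ), c ≠ 0 ∧
      ZVal.trivial k K c + ipair w u = 1,
      (monoVal 𝒱.ht (ZVal.trivial k K) w hs).IsOrd (omega0 (k := k) t f y) (-1) :=
    fun w hs => isOrd_hor hy 𝒱.ht w hs hf y hy0
  refine ⟨{ KX := KX, KZ := KZ, Δ := Δ, Δ_nonneg := hΔ, ΔZ := ΔZ, ΔZ_nonneg := hΔZ,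
            ΔZ_le := hle, KX_int := ?_, KZ_int := ?_, g := g, g_ne := hg, non := ?_, hor := ?_,
            vert := ?_, qc := hlc.1, lc_hor := ?_, lc_vert := ?_ }, rfl, rfl, rfl, rfl, ?_⟩
  · intro P
    obtain ⟨a, h1, -⟩ := hKX P
    exact ⟨a, h1⟩
  · intro Q
    obtain ⟨a, h1, -⟩ := hKZ Q
    exact ⟨a, h1⟩
  · intro P hP
    obtain ⟨p, hp, hPp, hi⟩ := exists_polyVal 𝒱.stable P.2 hP
    have h1 : P.1.IsOrd (omega0 (k := k) t f y) 0 := by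
      rw [hPp]
      exact isOrd_polyVal hy 𝒱.ht hp hi hf y hy0
    rw [hKX' P 0 h1]
    simp
  · intro i
    obtain ⟨hs, hi⟩ := 𝒱.inv_eq i.1 i.2.2.1
    have h0 : (ZVal.restrict i.1 : ZVal k K) = ZVal.trivial k K := by
      apply ZVal.ext
      intro a
      exact i.2.2.2 a
    rw [h0] at hs
    have h1 : i.1 = monoVal 𝒱.ht (ZVal.trivial k K) (TV.wvec i.1 t) hs := by
      have h2 : ∀ (v : ZVal k K) (hv : v = ZVal.trivial k K) hs',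
          monoVal 𝒱.ht v (TV.wvec i.1 t) hs' =
            monoVal 𝒱.ht (ZVal.trivial k K) (TV.wvec i.1 t) hs := by
        intro v hv hs'
        subst hv
        rfl
      exact hi.trans (h2 _ h0 _)
    have h3 : i.1.IsOrd (omega0 (k := k) t f y) (-1) := by
      rw [h1]
      exact htriv _ hs
    rw [hKX' ⟨i.1, i.2.1⟩ (-1) h3]
    push_cast
    ring
  · intro j
    obtain ⟨hs, hi⟩ := 𝒱.inv_eq j.1 (𝒱.vert_inv j)
    have h0 : (ZVal.restrict j.1 : ZVal k K) = ZVal.ofDVal (TV.mult j) (TV.base j).1 := by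
      apply ZVal.ext
      intro a
      exact TV.mult_spec j a
    rw [h0] at hs
    have h1 : j.1 = monoVal 𝒱.ht (ZVal.ofDVal (TV.mult j) (TV.base j).1)
        (TV.wvec j.1 t) hs := by
      have h2 : ∀ (v : ZVal k K) (hv : v = ZVal.ofDVal (TV.mult j) (TV.base j).1) hs',
          monoVal 𝒱.ht v (TV.wvec j.1 t) hs' =
            monoVal 𝒱.ht (ZVal.ofDVal (TV.mult j) (TV.base j).1) (TV.wvec j.1 t) hs := by
        intro v hv hs'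
        subst hv
        rfl
      exact hi.trans (h2 _ h0 _)
    obtain ⟨a, ha1, ha2⟩ := hKZ (TV.base j)
    have h3 : j.1.IsOrd (omega0 (k := k) t f y) (TV.mult j * (a + 1) - 1) := by
      rw [h1]
      exact isOrd_vert hy 𝒱.ht _ _ (TV.mult_pos j) _ hs hf y hy0 (hfω _ _ ha2)
    rw [hKX' ⟨j.1, j.2.1⟩ _ h3, ha1]
    push_cast
    ring
  · intro w hs c hc
    have h1 := hlc.2 _ (monoVal_isDivisorial 𝒱.ht 𝒱.fgK _ w hs (Or.inl rfl)) _ c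
      (hord _ _ (htriv w hs)) hc
    push_cast at h1
    linarith
  · rintro v₀ a ⟨hdiv, ha⟩ e w hs c he hc
    have h1 := hlc.2 _ (monoVal_isDivisorial 𝒱.ht 𝒱.fgK _ w hs (Or.inr ⟨e, v₀, hdiv, he, rfl⟩)) _ c
      (hord _ _ (isOrd_vert hy 𝒱.ht v₀ e he w hs hf y hy0 (hfω _ _ ha))) hc
    push_cast at h1
    linarith
  · intro v₀ a hdiv ha e w hs he
    exact ⟨monoVal_isDivisorial 𝒱.ht 𝒱.fgK _ w hs (Or.inr ⟨e, v₀, hdiv, he, rfl⟩),
      hord _ _ (isOrd_vert hy 𝒱.ht v₀ e he w hs hf y hy0 (hfω _ _ ha))⟩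

end

end Pool.Agent.Helper92.Weak
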