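import Pool.Agent.Helper92.Weak.Defs

set_option autoImplicit false

/-!
# Definitions: semiample and nef divisors, klt pairs
-/

namespace Pool.Agent.Helper92.Weak

namespace ProjVar

variable {k L : Type*} [Field k] [Field L] [Algebra k L] (X : ProjVar k L)

/-- The divisor `H` is the hyperplane section `x₀ = 0`: it has the equation `x₀ / xᵢ` on the
`i`-th chart. -/
def IsHyp (H : X.Div) : Prop :=
  ∀ (P : X.primeDivisors) (i : Fin (X.n + 1)), chart k X.x i ≤ P.1.ring →
    H P = P.1 (X.x 0 / X.x i)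

/-- The `ℚ`-divisor `D` is semiample: for some `m > 0`, at every point some section of `m D`
generates it (that is, the inverse of this section is a local equation of `m D`). -/
def IsSemiample (D : X.Div) : Prop :=
  ∃ m : ℕ, 0 < m ∧ ∀ R ∈ X.localRings, ∃ f ∈ X.H0 ((m : ℚ) • D),
    X.IsLocalEq R f⁻¹ ((m : ℚ) • D)

/-- The `ℚ`-divisor `D` is nef: `D + ε H` is semiample for all `ε > 0`, where `H` is the
hyperplane section. -/
def IsNef (D : X.Div) : Prop :=
  ∃ H : X.Div, X.IsHyp H ∧ ∀ ε : ℚ, 0 < ε → X.IsSemiample (D + ε • H)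

namespace Pair

variable {X} {n : ℕ}

/-- The pair is Kawamata log terminal: `K + Δ` is `ℚ`-Cartier, and every divisorial valuation has
positive log discrepancy. -/
def KLT (p : X.Pair n) : Prop :=
  X.IsQCartier p.logDiv ∧ ∀ v : DVal k L, v.IsDivisorial → ∀ (a : ℤ) (c : ℚ), v.HasOrd p.ω a →
    X.IsValue v p.logDiv c → c < 1 + a

/-- The pair `(X, (1/N) 𝔅)` given by a set `𝔅` of divisors (a linear system) is Kawamata log
terminal: for every divisorial valuation `v`, some member `B` of `𝔅` satisfies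
`v(B) < N (1 + ord_v ω - v(K))`. -/
def IsKLTSystem (p : X.Pair n) (N : ℕ) (𝔅 : Set X.Div) : Prop :=
  ∀ v : DVal k L, v.IsDivisorial → ∀ (a : ℤ) (κ : ℚ), v.HasOrd p.ω a → X.IsValue v p.can κ →
    ∃ B ∈ 𝔅, ∀ c, X.IsValue v B c → c < N * (1 + a - κ)

end Pair

end ProjVar

end Pool.Agent.Helper92.Weak
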