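import Pool.Agent.Helper92.Sem.Gen
import Pool.Agent.Helper92.Sem.Defs

set_option autoImplicit false

/-! The hyperplane section and its multiples. -/

namespace Pool.Agent.Helper92.Weak

namespace ProjVar

variable {k L : Type*} [Field k] [Field L] [Algebra k L] (X : ProjVar k L)

variable {X}

lemma div_ne (i j : Fin (X.n + 1)) : X.x i / X.x j ≠ 0 := div_ne_zero (X.x_ne i) (X.x_ne j)

lemma exists_chart {R : Subalgebra k L} (hR : R ∈ X.localRings) : ∃ i, chart k X.x i ≤ R := by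
  obtain ⟨i, p, hp, rfl⟩ := X.mem_localRings.1 hR
  exact ⟨i, le_locAt p⟩

lemma exists_nat_bound {ι : Type*} (s : Finset ι) (f : ι → ℚ) : ∃ N : ℕ, ∀ i ∈ s, f i ≤ N := by
  classical
  obtain ⟨M, hM⟩ := (s.image f).exists_le
  obtain ⟨N, hN⟩ := exists_nat_ge M
  exact ⟨N, fun i hi => (hM _ (Finset.mem_image_of_mem f hi)).trans hN⟩

variable (X) in
lemma finite_not_chart (i : Fin (X.n + 1)) :
    {P : X.primeDivisors | ¬ chart k X.x i ≤ P.1.ring}.Finite := by
  apply (Set.finite_iUnion fun j => X.finite_prin (X.x j / X.x i)).subset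
  intro P hP
  rw [Set.mem_ofPred_eq, chart_le_iff] at hP
  push Not at hP
  obtain ⟨j, hj⟩ := hP
  rw [Set.mem_iUnion]
  refine ⟨j, ?_⟩
  rw [Set.mem_ofPred_eq]
  rw [DVal.mem_ring] at hj
  push Not at hj
  exact_mod_cast hj.ne

variable (X) in
lemma exists_hyp : ∃ H, X.IsHyp H := by
  classical
  let φ : X.primeDivisors → ℤ := fun P =>
    Finset.univ.sup' Finset.univ_nonempty (fun j => P.1 (X.x 0 / X.x j))
  have hφ : ∀ (P : X.primeDivisors) (i : Fin (X.n + 1)), chart k X.x i ≤ P.1.ring →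
      φ P = P.1 (X.x 0 / X.x i) := by
    intro P i hi
    apply le_antisymm
    · apply Finset.sup'_le
      intro j _
      have h1 := (chart_le_iff.1 hi) j
      rw [DVal.mem_ring] at h1
      have h2 : X.x 0 / X.x i = X.x 0 / X.x j * (X.x j / X.x i) := by
        have := X.x_ne i
        have := X.x_ne j
        field_simp
      rw [h2, DVal.map_mul _ (div_ne _ _) (div_ne _ _)]
      omega
    · exact Finset.le_sup' (fun j => P.1 (X.x 0 / X.x j)) (Finset.mem_univ i)
  have hfin : {P : X.primeDivisors | (φ P : ℚ) ≠ 0}.Finite := by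
    apply (Set.finite_iUnion fun j => X.finite_prin (X.x 0 / X.x j)).subset
    intro P hP
    obtain ⟨i, hi⟩ := exists_chart P.2
    rw [Set.mem_iUnion]
    refine ⟨i, ?_⟩
    rw [Set.mem_ofPred_eq, hφ P i hi] at hP
    exact hP
  refine ⟨Finsupp.onFinset hfin.toFinset (fun P => (φ P : ℚ)) (fun P hP => by
    rw [Set.Finite.mem_toFinset]
    exact hP), fun P i hi => ?_⟩
  rw [Finsupp.onFinset_apply, hφ P i hi]

lemma IsHyp.unique {H H' : X.Div} (h : X.IsHyp H) (h' : X.IsHyp H') : H = H' := by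
  ext P
  obtain ⟨i, hi⟩ := exists_chart P.2
  rw [h P i hi, h' P i hi]

lemma IsHyp.ge {H : X.Div} (h : X.IsHyp H) (P : X.primeDivisors) (i : Fin (X.n + 1))
    (hi : ¬ chart k X.x i ≤ P.1.ring) : (P.1 (X.x 0 / X.x i) : ℚ) + 1 ≤ H P := by
  obtain ⟨j, hj⟩ := exists_chart P.2
  rw [h P j hj]
  have h1 : 1 ≤ P.1 (X.x i / X.x j) := by
    rw [chart_le_iff] at hi hj
    push Not at hi
    obtain ⟨l, hl⟩ := hi
    have h2 := hj l
    rw [DVal.mem_ring] at hl h2
    have h3 : X.x l / X.x j = X.x l / X.x i * (X.x i / X.x j) := by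
      have := X.x_ne i
      have := X.x_ne j
      field_simp
    rw [h3, DVal.map_mul _ (div_ne _ _) (div_ne _ _)] at h2
    omega
  have h2 : X.x 0 / X.x j = X.x 0 / X.x i * (X.x i / X.x j) := by
    have := X.x_ne i
    have := X.x_ne j
    field_simp
  rw [h2, DVal.map_mul _ (div_ne _ _) (div_ne _ _)]
  push_cast
  have h3 : (1 : ℚ) ≤ P.1 (X.x i / X.x j) := by exact_mod_cast h1
  linarith

/-- The hyperplane section is effective. -/
lemma IsHyp.nonneg {H : X.Div} (h : X.IsHyp H) (P : X.primeDivisors) : 0 ≤ H P := by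
  obtain ⟨j, hj⟩ := exists_chart P.2
  rw [h P j hj]
  have := (chart_le_iff.1 hj) 0
  rw [DVal.mem_ring] at this
  exact_mod_cast this

/-- Large multiples of the hyperplane section minus a divisor which is Cartier at a point are
generated at this point. -/
theorem IsHyp.ample {H : X.Div} (h : X.IsHyp H) {C : X.primeDivisors → ℚ}
    (hC : {P | C P ≠ 0}.Finite) {R : Subalgebra k L} (hR : R ∈ X.localRings) {g : L} (hg : g ≠ 0)
    (hgC : ∀ P : X.primeDivisors, R ≤ P.1.ring → (P.1 g : ℚ) = C P) :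
    ∃ n₀ : ℕ, ∀ n : ℕ, n₀ ≤ n → ∃ s, X.Gens (fun P => n * H P - C P) 1 s R := by
  classical
  obtain ⟨i, p, hp, rfl⟩ := X.mem_localRings.1 hR
  have hfin := finite_ne hC g (-1 : ℚ)
  obtain ⟨a, ha, ha1⟩ := exists_notMem p hfin.toFinset (fun P hP _ hP2 => by
    rw [Set.Finite.mem_toFinset, Set.mem_ofPred_eq, hgC P hP2] at hP
    apply hP
    ring)
  have ha0 := coe_ne_zero_of_notMem ha
  obtain ⟨N, hN⟩ := exists_nat_bound hfin.toFinset (fun P => -((P.1 g : ℚ) - C P))
  obtain ⟨n₀, hn₀⟩ := exists_nat_bound (X.finite_not_chart i).toFinset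
    (fun P => -((P.1 g : ℚ) - C P + N * P.1 (a : L)))
  refine ⟨n₀, fun n hn => ⟨g * (a : L) ^ N * (X.x i / X.x 0) ^ n, ?_⟩⟩
  have hne1 : g * (a : L) ^ N ≠ 0 := mul_ne_zero hg (pow_ne_zero _ ha0)
  have hne2 : (X.x i / X.x 0) ^ n ≠ 0 := pow_ne_zero _ (div_ne _ _)
  have hval : ∀ P : X.primeDivisors, (P.1 (g * (a : L) ^ N * (X.x i / X.x 0) ^ n) : ℚ) +
      ((1 : ℕ) : ℚ) * (n * H P - C P) = ((P.1 g : ℚ) - C P + N * P.1 (a : L)) +
        n * (H P - P.1 (X.x 0 / X.x i)) := by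
    intro P
    have h1 : P.1 (X.x i / X.x 0) = -P.1 (X.x 0 / X.x i) := by
      rw [← inv_div, DVal.map_inv]
    rw [DVal.map_mul _ hne1 hne2, DVal.map_mul _ hg (pow_ne_zero _ ha0), DVal.map_pow,
      DVal.map_pow, h1]
    push_cast
    ring
  refine ⟨⟨mul_ne_zero hne1 hne2, fun P => ?_⟩, fun P hP => ?_⟩
  · rw [hval]
    by_cases hc : chart k X.x i ≤ P.1.ring
    · rw [h P i hc, sub_self, mul_zero, add_zero]
      by_cases hb : P ∈ hfin.toFinset
      · have h1 := hN P hb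
        have h2 := ha1 P hb hc
        have h3 : (1 : ℚ) ≤ P.1 (a : L) := by exact_mod_cast h2
        have h4 : (N : ℚ) * 1 ≤ N * P.1 (a : L) := mul_le_mul_of_nonneg_left h3 (by positivity)
        linarith
      · rw [Set.Finite.mem_toFinset, Set.mem_ofPred_eq, not_not] at hb
        have h1 : 0 ≤ P.1 (a : L) := hc a.2
        have h2 : (0 : ℚ) ≤ N * P.1 (a : L) := mul_nonneg (by positivity) (by exact_mod_cast h1)
        linarith
    · have h1 := h.ge P i hc
      have h2 := hn₀ P (by rw [Set.Finite.mem_toFinset]; exact hc)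
      have h3 : (n : ℚ) * 1 ≤ n * (H P - P.1 (X.x 0 / X.x i)) :=
        mul_le_mul_of_nonneg_left (by linarith) (by positivity)
      have h4 : (n₀ : ℚ) ≤ n := by exact_mod_cast hn
      linarith
  · rw [hval, h P i ((le_locAt p).trans hP), hgC P hP, val_of_notMem ha hP]
    simp

/-- The rational version. -/
theorem IsHyp.ample_rat {H : X.Div} (h : X.IsHyp H) {C : X.Div} (hC : X.IsQCartier C)
    {R : Subalgebra k L} (hR : R ∈ X.localRings) {δ ε₀ : ℚ} (hδ : 0 < δ) (hε₀ : 0 < ε₀) :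
    ∃ ε : ℚ, 0 < ε ∧ ε ≤ ε₀ ∧ ∃ (m : ℕ) (s : L), 0 < m ∧
      X.Gens (fun P => δ * H P - ε * C P) m s R := by
  obtain ⟨m, hm, g, hg0, hg⟩ := hC R hR
  obtain ⟨n₀, hn₀⟩ := h.ample (C := fun P => m * C P) (by
    apply Set.Finite.subset (Finset.finite_toSet C.support)
    intro P hP
    rw [Finset.mem_coe, Finsupp.mem_support_iff]
    intro h0
    apply hP
    rw [h0, mul_zero]) hR hg0 (fun P hP => by
      rw [hg P hP, Finsupp.smul_apply, smul_eq_mul])
  obtain ⟨n₁, hn₁⟩ := exists_nat_ge (δ * m / ε₀)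
  set n := max n₀ (max n₁ 1) with hn
  have hn0 : n₀ ≤ n := le_max_left _ _
  have hn1 : n₁ ≤ n := (le_max_left _ _).trans (le_max_right _ _)
  have hn2 : 1 ≤ n := (le_max_right _ _).trans (le_max_right _ _)
  have hnpos : (0 : ℚ) < n := by exact_mod_cast hn2
  have hmpos : (0 : ℚ) < m := by exact_mod_cast hm
  obtain ⟨s, hs⟩ := hn₀ n hn0
  refine ⟨δ * m / n, by positivity, ?_, ?_⟩
  · rw [div_le_iff₀ hnpos]
    rw [div_le_iff₀ hε₀] at hn₁
    have h1 : (n₁ : ℚ) ≤ n := by exact_mod_cast hn1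
    have h2 := mul_le_mul_of_nonneg_right h1 hε₀.le
    linarith
  · have h1 := hs.smul (q := δ / n) (by positivity)
    have h2 : (δ / n) • (fun P => (n : ℚ) * H P - m * C P) =
        fun P => δ * H P - δ * m / n * C P := by
      funext P
      rw [Pi.smul_apply, smul_eq_mul]
      field_simp
    rw [h2] at h1
    exact ⟨_, _, Nat.mul_pos one_pos (δ / n).den_pos, h1⟩

end ProjVar

end Pool.Agent.Helper92.Weak
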