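import Pool.Agent.Helper92.Weak.Torus5

set_option autoImplicit false

/-! Valuations with centre in a given closed subset. -/

namespace Pool.Agent.Helper92.Weak

variable {k L : Type*} [Field k] [Field L] [Algebra k L]

/-- Normalisation of a finitely generated algebra. -/
lemma exists_normalization [CharZero k] (B : Subalgebra k L) (hfg : B.FG) (hB : IsFrac B) :
    ∃ C : Subalgebra k L, B ≤ C ∧ IsNoetherianRing C ∧ IsIntegrallyClosed C ∧
      ∀ z ∈ C, IsIntegral B z := by
  have hft : Algebra.FiniteType k B := (Subalgebra.fg_iff_finiteType B).1 hfg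
  obtain ⟨s, g, hinj, hint⟩ := exists_integral_inj_algHom_of_fg k B
  let : Algebra (MvPolynomial (Fin s) k) B := g.toRingHom.toAlgebra
  let : Algebra (MvPolynomial (Fin s) k) L := (B.val.comp g).toRingHom.toAlgebra
  have hinj' : Function.Injective (algebraMap (MvPolynomial (Fin s) k) L) := by
    intro a b hab
    exact hinj (Subtype.ext hab)
  have : FaithfulSMul (MvPolynomial (Fin s) k) L :=
    (faithfulSMul_iff_algebraMap_injective _ _).2 hinj'
  have h1 : IsScalarTower (MvPolynomial (Fin s) k) B L := IsScalarTower.of_algebraMap_eq fun x => rfl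
  have h2 : IsScalarTower k (MvPolynomial (Fin s) k) L := by
    apply IsScalarTower.of_algebraMap_eq
    intro x
    change _ = ((g (algebraMap k (MvPolynomial (Fin s) k) x) : B) : L)
    rw [g.commutes]
    rfl
  let : Algebra (FractionRing (MvPolynomial (Fin s) k)) L := FractionRing.liftAlgebra _ _
  have h3 : IsScalarTower (MvPolynomial (Fin s) k) (FractionRing (MvPolynomial (Fin s) k)) L :=
    FractionRing.isScalarTower_liftAlgebra _ _
  have h4 : IsScalarTower k (FractionRing (MvPolynomial (Fin s) k)) L := by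
    apply IsScalarTower.of_algebraMap_eq
    intro x
    rw [IsScalarTower.algebraMap_apply k (MvPolynomial (Fin s) k)
      (FractionRing (MvPolynomial (Fin s) k)), ← IsScalarTower.algebraMap_apply
      (MvPolynomial (Fin s) k) (FractionRing (MvPolynomial (Fin s) k)) L,
      ← IsScalarTower.algebraMap_apply]
  have hBint : ∀ b ∈ B, IsIntegral (MvPolynomial (Fin s) k) b := by
    intro b hb
    have h5 : IsIntegral (MvPolynomial (Fin s) k) (⟨b, hb⟩ : B) := hint ⟨b, hb⟩
    exact h5.map (IsScalarTower.toAlgHom (MvPolynomial (Fin s) k) B L)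
  have halg : Algebra.IsAlgebraic (FractionRing (MvPolynomial (Fin s) k)) L := by
    constructor
    intro z
    obtain ⟨a, ha, b, hb, hb0, rfl⟩ := hB z
    have ha' : IsAlgebraic (FractionRing (MvPolynomial (Fin s) k)) a :=
      ((hBint a ha).isAlgebraic).extendScalars (IsFractionRing.injective _ _)
    have hb' : IsAlgebraic (FractionRing (MvPolynomial (Fin s) k)) b :=
      ((hBint b hb).isAlgebraic).extendScalars (IsFractionRing.injective _ _)
    rw [div_eq_mul_inv]
    exact ha'.mul hb'.inv
  have hess : Algebra.EssFiniteType (FractionRing (MvPolynomial (Fin s) k)) L := by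
    have : IsFractionRing B L := hB.isFractionRing
    have : Algebra.EssFiniteType k L := by
      have : Algebra.EssFiniteType B L :=
        Algebra.EssFiniteType.of_isLocalization (R := B) L (nonZeroDivisors B)
      exact Algebra.EssFiniteType.comp k B L
    exact Algebra.EssFiniteType.of_comp k _ L
  have hfin : FiniteDimensional (FractionRing (MvPolynomial (Fin s) k)) L :=
    Algebra.finite_of_essFiniteType_of_isAlgebraic
  have : CharZero (FractionRing (MvPolynomial (Fin s) k)) := by
    have : CharZero (MvPolynomial (Fin s) k) := inferInstance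
    exact IsFractionRing.charZero_of_isFractionRing (MvPolynomial (Fin s) k)
  refine ⟨(integralClosure (MvPolynomial (Fin s) k) L).restrictScalars k, ?_, ?_, ?_, ?_⟩
  · intro b hb
    exact hBint b hb
  · exact integralClosure.isNoetherianRing (A := MvPolynomial (Fin s) k)
      (K := FractionRing (MvPolynomial (Fin s) k)) L
  · exact integralClosure.isIntegrallyClosedOfFiniteExtension
      (FractionRing (MvPolynomial (Fin s) k))
  · intro z hz
    exact IsIntegral.tower_top (R := MvPolynomial (Fin s) k) hz

/-- There is a discrete valuation with centre in a given closed subset. -/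
theorem exists_dval_pos [CharZero k] {A : Subalgebra k L} (hfg : A.FG) (hA : IsFrac A)
    (p : Ideal A) (hp : p ≠ ⊤) (hp0 : p ≠ ⊥) :
    ∃ v : DVal k L, A ≤ v.ring ∧ ∀ a ∈ p, v.Ge 1 (a : L) := by
  classical
  have hN : IsNoetherianRing A := isNoetherianRing_of_fg hfg
  obtain ⟨V, hAV, hV⟩ := Ideal.image_subset_nonunits_valuationSubring (A := A.toSubring) p hp
  obtain ⟨s, hs⟩ := (isNoetherianRing_iff_ideal_fg A).1 hN p
  have hsp : ∀ a ∈ s, a ∈ p := fun a ha => by rw [← hs]; exact Ideal.subset_span ha
  have hval : ∀ a ∈ p, V.valuation (a : L) < 1 := by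
    intro a ha
    rw [← ValuationSubring.mem_nonunits_iff]
    exact hV ⟨a, ha, rfl⟩
  -- a generator of maximal value
  obtain ⟨a₀, ha₀, ha₀0⟩ : ∃ a ∈ s, a ≠ 0 := by
    by_contra hcon
    push Not at hcon
    apply hp0
    rw [← hs, Ideal.span_eq_bot]
    exact hcon
  obtain ⟨c, hc, hmax⟩ := s.exists_max_image (fun a => V.valuation (a : L)) ⟨a₀, ha₀⟩
  have hc0 : (c : L) ≠ 0 := by
    intro h0
    have h1 := hmax a₀ ha₀
    rw [h0, map_zero] at h1
    have h2 : V.valuation (a₀ : L) = 0 := le_antisymm h1 zero_le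
    rw [map_eq_zero] at h2
    exact ha₀0 (Subtype.ext h2)
  -- the blow up
  let S : Finset L := s.image (fun a : A => (a : L) / (c : L))
  let B : Subalgebra k L := A ⊔ Algebra.adjoin k (S : Set L)
  have hBfg : B.FG := hfg.sup ⟨S, rfl⟩
  have hAB : A ≤ B := le_sup_left
  have hSB : ∀ a ∈ s, (a : L) / c ∈ B := by
    intro a ha
    exact (le_sup_right : _ ≤ B) (Algebra.subset_adjoin (Finset.mem_image_of_mem _ ha))
  have hVk : ∀ x : k, algebraMap k L x ∈ V := fun x => hAV (A.algebraMap_mem x)
  let V' : Subalgebra k L := { V.toSubring with algebraMap_mem' := hVk }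
  have hBV : B ≤ V' := by
    apply sup_le
    · exact hAV
    · rw [Algebra.adjoin_le_iff]
      intro x hx
      obtain ⟨a, ha, rfl⟩ := Finset.mem_image.1 (Finset.mem_coe.1 hx)
      change (a : L) / c ∈ V
      rw [← ValuationSubring.valuation_le_one_iff, map_div₀]
      exact div_le_one_of_le₀ (hmax a ha) zero_le
  obtain ⟨C, hBC, hCN, hCI, hCint⟩ := exists_normalization B hBfg (hA.mono hAB)
  have hCV : ∀ z ∈ C, z ∈ V := by
    intro z hz
    have h1 : IsIntegral B z := hCint z hz
    let φ : B →+* V :=
      { toFun := fun b => ⟨b.1, hBV b.2⟩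
        map_one' := rfl
        map_mul' := fun _ _ => rfl
        map_zero' := rfl
        map_add' := fun _ _ => rfl }
    let _ : Algebra B V := φ.toAlgebra
    have : IsScalarTower B V L := IsScalarTower.of_algebraMap_eq fun x => rfl
    have h2 : IsIntegral V z := h1.tower_top
    obtain ⟨y, hy⟩ := (IsIntegrallyClosed.isIntegral_iff (R := V) (K := L)).1 h2
    rw [← hy]
    exact y.2
  let ψ : C →+* V :=
    { toFun := fun b => ⟨b.1, hCV b.1 b.2⟩
      map_one' := rfl
      map_mul' := fun _ _ => rfl
      map_zero' := rfl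
      map_add' := fun _ _ => rfl }
  let P : Ideal C := (IsLocalRing.maximalIdeal V).comap ψ
  have hPp : P.IsPrime := Ideal.IsPrime.comap ψ
  have hnot : (c : L)⁻¹ ∉ locAt C P := by
    rintro ⟨a, b, hb, h⟩
    have h1 : ¬ V.valuation (b : L) < 1 := by
      intro hlt
      apply hb
      change ψ b ∈ IsLocalRing.maximalIdeal V
      rw [ValuationSubring.valuation_lt_one_iff]
      exact hlt
    have h2 : V.valuation (b : L) ≤ 1 := (V.valuation_le_one_iff _).2 (hCV _ b.2)
    have h3 : V.valuation (b : L) = 1 := le_antisymm h2 (not_lt.1 h1)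
    have h4 : V.valuation (a : L) ≤ 1 := (V.valuation_le_one_iff _).2 (hCV _ a.2)
    rw [← h, map_mul, h3, mul_one, map_inv₀] at h4
    have h5 := hval c (hsp c hc)
    have h6 : V.valuation (c : L) ≠ 0 := by rwa [Ne, map_eq_zero]
    have h7 : V.valuation (c : L) * (V.valuation (c : L))⁻¹ < 1 := by
      calc V.valuation (c : L) * (V.valuation (c : L))⁻¹ ≤ V.valuation (c : L) * 1 :=
            mul_le_mul_right h4 _
        _ < 1 := by rwa [mul_one]
    rw [mul_inv_cancel₀ h6] at h7
    exact lt_irrefl _ h7
  obtain ⟨v, q, hq, hqp, hvq, hzv⟩ := exists_dval_of_notMem ((hA.mono hAB).mono hBC) P hnot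
  have hCv : C ≤ v.ring := by rw [hvq]; exact le_locAt q
  have hvc : 1 ≤ v (c : L) := by
    rw [DVal.mem_ring, DVal.map_inv] at hzv
    omega
  refine ⟨v, hAB.trans (hBC.trans hCv), fun a ha => ?_⟩
  rw [← hs] at ha
  refine Submodule.span_induction ?_ ?_ ?_ ?_ ha
  · intro x hx
    by_cases hx0 : (x : L) = 0
    · exact Or.inl hx0
    right
    have h1 : 0 ≤ v ((x : L) / c) := hCv (hBC (hSB x hx))
    have h2 : (x : L) = x / c * c := by field_simp
    have h3 : v (x : L) = v ((x : L) / c) + v (c : L) := by
      conv_lhs => rw [h2]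
      rw [v.map_mul (div_ne_zero hx0 hc0) hc0]
    rw [h3]
    have h4 : (1 : ℤ) ≤ v ((x : L) / c) + v (c : L) := by omega
    exact_mod_cast h4
  · exact Or.inl rfl
  · intro x y _ _ hx hy
    exact hx.add hy
  · intro a x _ hx
    have h1 : v.Ge 0 (a : L) := (v.mem_ring_iff_ge).1 (hCv (hBC (hAB a.2)))
    have h2 := h1.mul hx
    rw [zero_add] at h2
    exact h2

namespace ProjVar

variable (X : ProjVar k L)

/-- Every point specialises to the centre of a discrete valuation, unless there is no such
valuation. -/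
theorem exists_center_le [CharZero k] {R : Subalgebra k L} (hR : R ∈ X.localRings) :
    (∃ (v : DVal k L) (R' : Subalgebra k L), R' ∈ X.localRings ∧ R' ≤ R ∧
      Dominates R' v.ring) ∨ ∀ _ : DVal k L, False := by
  obtain ⟨i, p, hp, rfl⟩ := X.mem_localRings.1 hR
  by_cases hp0 : p = ⊥
  · by_cases hv : ∃ _ : DVal k L, True
    · obtain ⟨v, -⟩ := hv
      left
      obtain ⟨R', hR', hRv⟩ := X.exists_center v
      refine ⟨v, R', hR', fun z _ => ?_, hRv⟩
      obtain ⟨a, ha, b, hb, hb0, rfl⟩ := X.chart_isFrac i z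
      refine ⟨⟨a, ha⟩, ⟨b, hb⟩, ?_, ?_⟩
      · rw [hp0]
        intro h
        exact hb0 (congrArg Subtype.val (show (⟨b, hb⟩ : chart k X.x i) = 0 from h))
      · exact div_mul_cancel₀ a hb0
    · right
      intro v
      exact hv ⟨v, trivial⟩
  · left
    obtain ⟨v, hv, hvp⟩ := exists_dval_pos (chart_fg X.x i) (X.chart_isFrac i) p hp.ne_top hp0
    have hprime : (posIdeal v (chart k X.x i) hv).IsPrime := inferInstance
    refine ⟨v, locAt _ (posIdeal v (chart k X.x i) hv), X.locAt_mem i _, locAt_mono ?_,
      dominates_posIdeal hv⟩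
    intro a ha
    rw [mem_posIdeal]
    exact hvp a ha

end ProjVar

end Pool.Agent.Helper92.Weak
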