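import Pool.Agent.Helper92.Sem.Adj3
import Pool.Agent.Helper92.Sem.Defs

set_option autoImplicit false
set_option linter.unusedSectionVars false

/-! Abundance for pairs with torus action. -/

namespace Pool.Agent.Helper92.Weak

open scoped KaehlerDifferential
open Module

namespace ProjVar

variable {k L : Type*} [Field k] [Field L] [Algebra k L] {X : ProjVar k L}

lemma isSemiample_iff (D : X.Div) : X.IsSemiample D ↔ X.PSemi D := by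
  constructor
  · rintro ⟨m, hm, h⟩ R hR
    obtain ⟨f, hf, hne, heq⟩ := h R hR
    have hf0 : f ≠ 0 := fun h0 => hne (by rw [h0, inv_zero])
    refine ⟨m, f, hm, ⟨hf0, fun P => ?_⟩, fun P hP => ?_⟩
    · unfold ProjVar.H0 at hf
      rw [mem_sec_of_ne hf0] at hf
      have h1 := hf P
      rwa [Finsupp.smul_apply, smul_eq_mul] at h1
    · have h1 := heq P hP
      rw [DVal.map_inv, Finsupp.smul_apply, smul_eq_mul] at h1
      push_cast at h1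
      linarith
  · intro h
    obtain ⟨T, F, hT, hF, hg⟩ := h.exists_finite (D := ⇑D) (by
      apply Set.Finite.subset (Finset.finite_toSet D.support)
      intro P hP
      rw [Finset.mem_coe, Finsupp.mem_support_iff]
      exact hP)
    refine ⟨T, hT, fun R hR => ?_⟩
    obtain ⟨f, hf, h1⟩ := hg R hR
    refine ⟨f, ?_, inv_ne_zero h1.ne, fun P hP => ?_⟩
    · unfold ProjVar.H0
      rw [mem_sec_of_ne h1.ne]
      intro P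
      rw [Finsupp.smul_apply, smul_eq_mul]
      exact h1.sect.2 P
    · rw [DVal.map_inv, Finsupp.smul_apply, smul_eq_mul]
      have h2 := h1.eq P hP
      push_cast
      linarith

lemma PSemi.congr {D D' : X.primeDivisors → ℚ} (h : X.PSemi D) (hD : ∀ P, D' P = D P) :
    X.PSemi D' := by
  have : D' = D := funext hD
  rwa [this]

end ProjVar

section

variable {k K L : Type*} [Field k] [Field K] [Field L] [Algebra k K] [Algebra k L] [Algebra K L]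
  [IsScalarTower k K L] {r : ℕ} {t : Fin r → L} [IsAlgClosed k] [CharZero k]

/-- The main theorem, for adjoint divisors. -/
theorem TV.adj_semiample {𝒱 : TV k K t} {A : DVal k K → ℤ → Prop} (𝒜 : 𝒱.Adj A)
    (hQF : 𝒱.Z.IsQFactorial) (hnef : 𝒱.X.IsNef (𝒜.KX + 𝒜.Δ)) :
    ∃ 𝒮 : Set (ℕ × Set 𝒱.Z.Div), 𝒮.Finite ∧ 𝒮.Nonempty ∧
      (∀ s ∈ 𝒮, Adj.Data.Sys (𝒜 := 𝒜) s.1 s.2 ∧
        (∀ B ∈ s.2, 𝒱.Z.IsNef ((s.1 : ℚ) • 𝒜.KZ + B)) ∧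
        (∀ (v₀ : DVal k K) (a : ℤ) (κ : ℚ), A v₀ a → 𝒱.Z.IsValue v₀ 𝒜.KZ κ →
          ∃ B ∈ s.2, ∀ c, 𝒱.Z.IsValue v₀ B c → c ≤ s.1 * (1 + a - κ)) ∧
        (∀ (v₀ : DVal k K) (a : ℤ) (κ : ℚ), (∀ (e : ℕ) (w : Fin r → ℤ) (hs : ∃ (c : K)
          (u : Fin r → ℤ), c ≠ 0 ∧ ZVal.ofDVal e v₀ c + ipair w u = 1) (c : ℚ), 0 < e →
          𝒱.X.IsValue (monoVal 𝒱.ht (ZVal.ofDVal e v₀) w hs) (𝒜.KX + 𝒜.Δ) c →
          c < monoVal 𝒱.ht (ZVal.ofDVal e v₀) w hs 𝒜.g + e * (a + 1)) →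
          𝒱.Z.IsValue v₀ 𝒜.KZ κ →
          ∃ B ∈ s.2, ∀ c, 𝒱.Z.IsValue v₀ B c → c < s.1 * (1 + a - κ))) ∧
      (𝒱.X.IsSemiample (𝒜.KX + 𝒜.Δ) ↔
        ∀ s ∈ 𝒮, ∀ B ∈ s.2, 𝒱.Z.IsSemiample ((s.1 : ℚ) • 𝒜.KZ + B)) := by
  classical
  obtain ⟨𝒟⟩ := 𝒜.exists_data
  have hM0 : (0 : ℚ) < 𝒟.M := by exact_mod_cast 𝒟.M_pos
  obtain ⟨H, hH, hε⟩ := hnef
  obtain ⟨ψ, hψ0, hHinv, hH0⟩ := TV.exists_inv_hyp hH
  obtain ⟨HZ, hHZ⟩ := 𝒱.Z.exists_hyp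
  have hDE : ∀ P, 𝒟.red.D P = 𝒟.M * (𝒜.KX + 𝒜.Δ) P - P.1 𝒟.red.G := fun P => 𝒟.red.D_eq P
  have hDfin := 𝒟.red.finite
  have hHfin : {P : 𝒱.X.primeDivisors | H P + (P.1 ψ : ℚ) ≠ 0}.Finite := by
    apply ((H.hasFiniteSupport).union (𝒱.X.finite_prin ψ)).subset
    intro P hP
    by_contra hcon
    simp only [Set.mem_union, Function.mem_support, Set.mem_ofPred_eq, not_or, not_not] at hcon
    apply hP
    rw [hcon.1, hcon.2, add_zero]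
  -- the reduced divisor is nef
  have hnefD : ∀ ε : ℚ, 0 < ε → 𝒱.X.PSemi (𝒟.red.D + ε • fun P => H P + (P.1 ψ : ℚ)) := by
    intro ε hε0
    have h1 := (ProjVar.isSemiample_iff _).1 (hε (ε / 𝒟.M) (by positivity))
    have h2 := ((h1.smul hM0.le).add_prin 𝒟.red.G_ne (-1)).add_prin hψ0 ε
    apply h2.congr
    intro P
    simp only [Pi.add_apply, Pi.smul_apply, hDE, Finsupp.add_apply, Finsupp.smul_apply,
      smul_eq_mul]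
    field_simp
    ring
  -- semiampleness of the reduced divisor
  have hsD : 𝒱.X.IsSemiample (𝒜.KX + 𝒜.Δ) ↔ 𝒱.X.PSemi 𝒟.red.D := by
    rw [ProjVar.isSemiample_iff]
    constructor
    · intro h
      apply ((h.smul hM0.le).add_prin 𝒟.red.G_ne (-1)).congr
      intro P
      rw [hDE, Pi.smul_apply, smul_eq_mul]
      ring
    · intro h
      apply ((h.smul (q := (𝒟.M : ℚ)⁻¹) (by positivity)).add_prin 𝒟.red.G_ne
        (𝒟.M : ℚ)⁻¹).congr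
      intro P
      rw [Pi.smul_apply, smul_eq_mul, hDE]
      field_simp
      ring
  obtain ⟨𝒰, h𝒰fin, h𝒰ne, h𝒰P, h𝒰⟩ := TV.psemi_iff hQF 𝒟.red.inv hHinv hDfin hHfin hnefD
  -- the systems
  have hsys : ∀ u ∈ 𝒰, ∃ s : ℕ × Set 𝒱.Z.Div, ∃ T : ℕ, 0 < T ∧
      Adj.Data.Sys (𝒜 := 𝒜) s.1 s.2 ∧
      (∀ B ∈ s.2, ∃ ψ : K, ψ ≠ 0 ∧ ∀ Q, ((s.1 : ℚ) • 𝒜.KZ + B) Q =
        T * 𝒱.data.low (𝒱.res 𝒟.red.D) u Q + Q.1 ψ) ∧
      (∀ (v₀ : DVal k K) (a : ℤ) (κ : ℚ), A v₀ a → 𝒱.Z.IsValue v₀ 𝒜.KZ κ →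
        ∃ B ∈ s.2, ∀ c, 𝒱.Z.IsValue v₀ B c → c ≤ s.1 * (1 + a - κ)) ∧
      (∀ (v₀ : DVal k K) (a : ℤ) (κ : ℚ), (∀ (e : ℕ) (w : Fin r → ℤ) (hs : ∃ (c : K)
          (u : Fin r → ℤ), c ≠ 0 ∧ ZVal.ofDVal e v₀ c + ipair w u = 1) (c : ℚ), 0 < e →
          𝒱.X.IsValue (monoVal 𝒱.ht (ZVal.ofDVal e v₀) w hs) (𝒜.KX + 𝒜.Δ) c →
          c < monoVal 𝒱.ht (ZVal.ofDVal e v₀) w hs 𝒜.g + e * (a + 1)) →
        𝒱.Z.IsValue v₀ 𝒜.KZ κ →
        ∃ B ∈ s.2, ∀ c, 𝒱.Z.IsValue v₀ B c → c < s.1 * (1 + a - κ)) := by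
    intro u hu
    obtain ⟨N, T, 𝔅, hT, h1, h2, h3, h4⟩ := 𝒟.exists_system hQF (h𝒰P u hu)
    exact ⟨(N, 𝔅), T, hT, h1, h2, h3, h4⟩
  choose! s T hT hS hlin hlc hklt using hsys
  -- semiampleness of the members
  have hsem : ∀ u ∈ 𝒰, ∀ B ∈ (s u).2, (𝒱.Z.IsSemiample (((s u).1 : ℚ) • 𝒜.KZ + B) ↔
      𝒱.Z.PSemi (𝒱.data.low (𝒱.res 𝒟.red.D) u)) := by
    intro u hu B hB
    obtain ⟨ψ', hψ', hQ⟩ := hlin u hu B hB
    have hT0 : (0 : ℚ) < T u := by exact_mod_cast hT u hu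
    rw [ProjVar.isSemiample_iff]
    constructor
    · intro h
      apply ((h.smul (q := (T u : ℚ)⁻¹) (by positivity)).add_prin hψ' (-(T u : ℚ)⁻¹)).congr
      intro Q
      rw [Pi.smul_apply, smul_eq_mul, hQ]
      field_simp
      ring
    · intro h
      apply ((h.smul hT0.le).add_prin hψ' 1).congr
      intro Q
      rw [Pi.smul_apply, smul_eq_mul, hQ, one_mul]
  refine ⟨s '' 𝒰, h𝒰fin.image _, h𝒰ne.image _, ?_, ?_⟩
  · rintro _ ⟨u, hu, rfl⟩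
    refine ⟨hS u hu, fun B hB => ⟨HZ, hHZ, fun ε hε0 => ?_⟩, hlc u hu, hklt u hu⟩
    obtain ⟨ψ', hψ', hQ⟩ := hlin u hu B hB
    have hT0 : (0 : ℚ) < T u := by exact_mod_cast hT u hu
    rw [ProjVar.isSemiample_iff]
    have h1 := TV.nef_low hQF 𝒟.red.inv hHinv hDfin hHfin hH0 hnefD (h𝒰P u hu) hHZ
      (δ := ε / T u) (by positivity)
    apply ((h1.smul hT0.le).add_prin hψ' 1).congr
    intro Q
    rw [Pi.smul_apply, Finsupp.add_apply, Finsupp.smul_apply, hQ]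
    simp only [smul_eq_mul]
    field_simp
    ring
  · rw [hsD, h𝒰]
    constructor
    · rintro h _ ⟨u, hu, rfl⟩ B hB
      exact (hsem u hu B hB).2 (h u hu)
    · intro h u hu
      obtain ⟨B, hB⟩ := (hS u hu).nonempty
      exact (hsem u hu B hB).1 (h (s u) ⟨u, hu, rfl⟩ B hB)

/-- The main theorem, in terms of pairs. -/
theorem torus_semiample_pair {d : ℕ} (hd : Algebra.trdeg k K = d) (Z : ProjVar k K)
    (X : ProjVar k L) (hZ : Z.IsQFactorial) (h : IsTorusQuotient t X Z) (p : X.Pair (d + r))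
    (hlc : p.LC) (hnef : X.IsNef p.logDiv) (q : Z.Pair d) (hq : IsOrbifoldBase p q) :
    ∃ 𝒮 : Set (ℕ × Set Z.Div), 𝒮.Finite ∧ 𝒮.Nonempty ∧
      (∀ s ∈ 𝒮, q.LCSystem s.1 s.2 ∧ (p.KLT → q.IsKLTSystem s.1 s.2) ∧
        ∀ B ∈ s.2, Z.IsNef ((s.1 : ℚ) • q.can + B)) ∧
      (X.IsSemiample p.logDiv ↔
        ∀ s ∈ 𝒮, ∀ B ∈ s.2, Z.IsSemiample ((s.1 : ℚ) • q.can + B)) := by
  obtain ⟨y, hy⟩ := exists_basis_of_trdeg hd
  have ht : IsTorus K t := ⟨h.indep, h.gen⟩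
  obtain ⟨b, hb⟩ := Pool.Agent.Helper50.Forms.exists_kaehler_basis hy
  obtain ⟨B, hB, -, -⟩ := Pool.Agent.Helper50.Forms.exists_basis_tower hy t h.indep h.gen y b hb
  obtain ⟨ωZ, hωZ⟩ := exists_form b y hb q.ω
  obtain ⟨ωX, hωX⟩ := exists_form B _ hB p.ω
  have h1 : Z.IsDivOf ωZ q.can := by
    intro Q
    obtain ⟨a, ha, ha'⟩ := q.isDivisorOf Q
    exact ⟨a, ha, (hωZ _ _).1 ha'⟩
  have h2 : X.IsDivOf ωX p.can := by
    intro P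
    obtain ⟨a, ha, ha'⟩ := p.isDivisorOf P
    exact ⟨a, ha, (hωX _ _).1 ha'⟩
  have h3 : X.IsLC ωX p.can p.Δ :=
    ⟨hlc.1, fun v hv a c ha hc => hlc.2 v hv a c ((hωX v a).2 ha) hc⟩
  let 𝒱 : TV k K t :=
    { ht := ht
      Z := Z
      X := X
      stable := stable_of ht h.stable
      mor := h.mor
      equi := fun P hP h' => by
        obtain ⟨Q, hQ, e, -, he⟩ := h.equi P hP h'
        exact ⟨Q, hQ, e, he⟩ }
  obtain ⟨𝒜, g1, g2, g3, g4, hord⟩ := exists_adj_ord 𝒱 hy ωZ q.can h1 ωX p.can h2 p.Δ p.nonneg h3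
    q.Δ q.nonneg (fun j => hq ⟨j.1, j.2.1⟩ (TV.base j) (TV.mult j) ⟨TV.mult_pos j, TV.mult_spec j⟩)
  have hE : 𝒜.KX + 𝒜.Δ = p.logDiv := by
    rw [g1, g2]
    rfl
  obtain ⟨𝒮, hfin, hne, hall, hiff⟩ := TV.adj_semiample 𝒜 hZ (by rw [hE]; exact hnef)
  rw [hE] at hiff
  rw [g3] at hiff
  refine ⟨𝒮, hfin, hne, fun s hs => ?_, hiff⟩
  obtain ⟨⟨hN, hBf, hBne, heff, hlin⟩, hnefs, hlcs, hklts⟩ := hall s hs
  rw [g3] at hnefs hlcs hklts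
  rw [g4] at heff
  refine ⟨⟨hN, hBf, hBne, fun B hB => (heff B hB).1, fun B hB => (heff B hB).2, ?_, ?_⟩, ?_, hnefs⟩
  · intro B hB B' hB'
    obtain ⟨ψ, hψ, h5⟩ := hlin B hB B' hB'
    refine ⟨ψ, hψ, fun Q => ?_⟩
    rw [h5]
    rfl
  · intro v hv a κ ha hκ
    exact hlcs v a κ ⟨hv, (hωZ v a).1 ha⟩ hκ
  · rintro ⟨-, hk⟩ v hv a κ ha hκ
    refine hklts v a κ (fun e w hs' c he hc => ?_) hκ
    obtain ⟨h5, h6⟩ := hord v a hv ((hωZ v a).1 ha) e w hs' he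
    rw [hE] at hc
    have h7 := hk _ h5 _ c ((hωX _ _).2 h6) hc
    push_cast at h7
    linarith

end

end Pool.Agent.Helper92.Weak
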