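import Pool.Agent.Helper92.Sem.ToBase
import Pool.Agent.Helper92.Weak.Mono

set_option autoImplicit false
set_option linter.unusedSectionVars false

/-! Semiample divisors on a variety with torus action from semiample divisors on the base. -/

namespace Pool.Agent.Helper92.Weak

/-- A limit of systems of affine inequalities, finitely many of which are not trivial. -/
lemma farkas_limit {r : ℕ} {ι : Type*} (φ : ι → (Fin r → ℚ) →ₗ[ℚ] ℚ) (a b : ι → ℚ)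
    (hfin : {x | φ x ≠ 0 ∨ a x ≠ 0 ∨ b x ≠ 0}.Finite)
    (h : ∀ ε : ℚ, 0 < ε → ∃ u, ∀ x, 0 ≤ φ x u + a x + ε * b x) :
    ∃ u, ∀ x, 0 ≤ φ x u + a x := by
  classical
  set s := hfin.toFinset with hs
  have htriv : ∀ x ∉ s, φ x = 0 ∧ a x = 0 := by
    intro x hx
    rw [hs, Set.Finite.mem_toFinset, Set.mem_ofPred_eq] at hx
    push Not at hx
    exact ⟨hx.1, hx.2.1⟩
  have hsum : ∀ (ψ : (Fin r → ℚ) →ₗ[ℚ] ℚ) (u : Fin r → ℚ), ψ u = ∑ l, u l * ψ (Pi.single l 1) := by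
    intro ψ u
    conv_lhs => rw [pi_eq_sum_univ' u]
    rw [map_sum]
    exact Finset.sum_congr rfl fun l _ => by rw [map_smul, smul_eq_mul]
  rcases farkas s (fun x => (((fun l => φ x (Pi.single l 1)), a x) : (Fin r → ℚ) × ℚ)) (0, -1)
    with ⟨μ, hμ, hb⟩ | ⟨y, hy, hyb⟩
  · exfalso
    have hb1 : ∀ l, ∑ x ∈ s, μ x * φ x (Pi.single l 1) = 0 := by
      intro l
      have h1 := congrFun (congrArg Prod.fst hb) l
      rw [Prod.fst_sum, Finset.sum_apply] at h1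
      exact h1.symm
    have hb2 : ∑ x ∈ s, μ x * a x = -1 := by
      have h1 := congrArg Prod.snd hb
      rw [Prod.snd_sum] at h1
      exact h1.symm
    set B := ∑ x ∈ s, μ x * b x with hB
    obtain ⟨ε, hε, hεB⟩ : ∃ ε : ℚ, 0 < ε ∧ ε * B < 1 := by
      refine ⟨1 / (|B| + 1), by positivity, ?_⟩
      have h1 : 0 < |B| + 1 := by positivity
      rw [one_div, inv_mul_lt_iff₀ h1, mul_one]
      have := le_abs_self B
      linarith
    obtain ⟨u, hu⟩ := h ε hε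
    have h1 : 0 ≤ ∑ x ∈ s, μ x * (φ x u + a x + ε * b x) :=
      Finset.sum_nonneg fun x hx => mul_nonneg (hμ x hx) (hu x)
    have h2 : ∑ x ∈ s, μ x * (φ x u + a x + ε * b x) =
        ∑ x ∈ s, μ x * φ x u + ∑ x ∈ s, μ x * a x + ε * B := by
      rw [hB, Finset.mul_sum, ← Finset.sum_add_distrib, ← Finset.sum_add_distrib]
      exact Finset.sum_congr rfl fun x _ => by ring
    have h3 : ∑ x ∈ s, μ x * φ x u = 0 := by
      have h4 : ∀ x ∈ s, μ x * φ x u = ∑ l, u l * (μ x * φ x (Pi.single l 1)) := by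
        intro x _
        rw [hsum (φ x) u, Finset.mul_sum]
        exact Finset.sum_congr rfl fun l _ => by ring
      rw [Finset.sum_congr rfl h4, Finset.sum_comm]
      apply Finset.sum_eq_zero
      intro l _
      rw [← Finset.mul_sum, hb1, mul_zero]
    rw [h2, h3, hb2] at h1
    linarith
  · have hl : 0 < y (0, 1) := by
      have h4 : ((0, -1) : (Fin r → ℚ) × ℚ) = -(0, 1) := by simp
      rw [h4, map_neg] at hyb
      linarith
    refine ⟨fun l => (y (0, 1))⁻¹ * y (Pi.single l 1, 0), fun x => ?_⟩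
    by_cases hx : x ∈ s
    · have h1 := hy x hx
      have h2 : y ((fun l => φ x (Pi.single l 1)), a x) =
          ∑ l, φ x (Pi.single l 1) * y (Pi.single l 1, 0) + a x * y (0, 1) := by
        have h3 : (((fun l => φ x (Pi.single l 1)), a x) : (Fin r → ℚ) × ℚ) =
            LinearMap.inl ℚ (Fin r → ℚ) ℚ (fun l => φ x (Pi.single l 1)) + a x • (0, 1) := by
          simp
        rw [h3, map_add, map_smul, smul_eq_mul]
        congr 1
        have h4 := hsum (y.comp (LinearMap.inl ℚ (Fin r → ℚ) ℚ))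
          (fun l => φ x (Pi.single l 1))
        simp only [LinearMap.comp_apply] at h4
        rw [h4]
        rfl
      rw [h2] at h1
      have h3 : φ x (fun l => (y (0, 1))⁻¹ * y (Pi.single l 1, 0)) + a x = (y (0, 1))⁻¹ *
          (∑ l, φ x (Pi.single l 1) * y (Pi.single l 1, 0) + a x * y (0, 1)) := by
        rw [hsum (φ x), mul_add, Finset.mul_sum]
        congr 1
        · exact Finset.sum_congr rfl fun l _ => by ring
        · field_simp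
      rw [h3]
      exact mul_nonneg (inv_nonneg.2 hl.le) h1
    · obtain ⟨h1, h2⟩ := htriv x hx
      rw [h1, h2]
      simp

namespace TV

variable {k K L : Type*} [Field k] [Field K] [Field L] [Algebra k K] [Algebra k L] [Algebra K L]
  [IsScalarTower k K L] {r : ℕ} {t : Fin r → L} (𝒱 : TV k K t) [IsAlgClosed k] [CharZero k]

/-- The weights for which the divisor `D` is generated along given divisors. -/
def InF (D : 𝒱.X.primeDivisors → ℚ) (A : Set 𝒱.HH) (B : Set 𝒱.JJ) (u : Fin r → ℚ) : Prop :=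
  InP 𝒱.data (𝒱.res D) u ∧ (∀ i ∈ A, pairL (wvec i.1 t) u + D ⟨i.1, i.2.1⟩ = 0) ∧
    ∀ j ∈ B, ∀ j' : 𝒱.JJ, base j' = base j →
      (mult j' : ℚ) * (pairL (wvec j.1 t) u + D ⟨j.1, j.2.1⟩) ≤
        mult j * (pairL (wvec j'.1 t) u + D ⟨j'.1, j'.2.1⟩)

/-- The horizontal divisors through a point. -/
def hset (R : Subalgebra k L) : Set 𝒱.HH := {i | R ≤ i.1.ring}

/-- The vertical divisors through a point. -/
def jset (R : Subalgebra k L) : Set 𝒱.JJ := {j | R ≤ j.1.ring}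

variable {𝒱}

/-- Homogeneous generators give weights. -/
lemma inF_of_gens {D : 𝒱.X.primeDivisors → ℚ} {m : ℕ} (hm : 0 < m) {c : K} (hc : c ≠ 0)
    {z : Fin r → ℤ} {R : Subalgebra k L} (h : 𝒱.X.Gens D m (c • mono t z) R) :
    𝒱.InF D (𝒱.hset R) (𝒱.jset R) ((m : ℚ)⁻¹ • toQ z) := by
  have hm0 : (0 : ℚ) < m := by exact_mod_cast hm
  have hpair : ∀ w : Fin r → ℤ, pairL w ((m : ℚ)⁻¹ • toQ z) = (m : ℚ)⁻¹ * ipair w z := by
    intro w
    rw [map_smul, smul_eq_mul, ipair_cast]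
    rfl
  have hH : ∀ i : 𝒱.HH, (i.1 (c • mono t z) : ℚ) + m * D ⟨i.1, i.2.1⟩ =
      m * (pairL (wvec i.1 t) ((m : ℚ)⁻¹ • toQ z) + D ⟨i.1, i.2.1⟩) := by
    intro i
    rw [𝒱.hor_term i hc, hpair]
    field_simp
  have hJ : ∀ j : 𝒱.JJ, (j.1 (c • mono t z) : ℚ) + m * D ⟨j.1, j.2.1⟩ =
      mult j * (base j).1 c +
        m * (pairL (wvec j.1 t) ((m : ℚ)⁻¹ • toQ z) + D ⟨j.1, j.2.1⟩) := by
    intro j
    rw [𝒱.vert_term j hc, hpair]
    push_cast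
    field_simp
    ring
  refine ⟨fun i => ?_, fun i hi => ?_, fun j hj j' hjj' => ?_⟩
  · have h1 : 0 ≤ (i.1 (c • mono t z) : ℚ) + m * D ⟨i.1, i.2.1⟩ := h.sect.2 ⟨i.1, i.2.1⟩
    rw [hH] at h1
    exact nonneg_of_mul_nonneg_right h1 hm0
  · have h1 : (i.1 (c • mono t z) : ℚ) + m * D ⟨i.1, i.2.1⟩ = 0 := h.eq ⟨i.1, i.2.1⟩ hi
    rw [hH] at h1
    exact (mul_eq_zero.1 h1).resolve_left hm0.ne'
  · have h1 : (j.1 (c • mono t z) : ℚ) + m * D ⟨j.1, j.2.1⟩ = 0 := h.eq ⟨j.1, j.2.1⟩ hj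
    have h2 : 0 ≤ (j'.1 (c • mono t z) : ℚ) + m * D ⟨j'.1, j'.2.1⟩ := h.sect.2 ⟨j'.1, j'.2.1⟩
    rw [hJ] at h1 h2
    rw [hjj'] at h2
    have hj0 : (0 : ℚ) < mult j := by exact_mod_cast mult_pos j
    have hj0' : (0 : ℚ) < mult j' := by exact_mod_cast mult_pos j'
    have h3 := mul_nonneg hj0.le h2
    have h4 : (mult j' : ℚ) * (mult j * (base j).1 c +
        m * (pairL (wvec j.1 t) ((m : ℚ)⁻¹ • toQ z) + D ⟨j.1, j.2.1⟩)) = 0 := by
      rw [h1, mul_zero]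
    have h5 : (m : ℚ) * (mult j' * (pairL (wvec j.1 t) ((m : ℚ)⁻¹ • toQ z) + D ⟨j.1, j.2.1⟩)) ≤
        m * (mult j * (pairL (wvec j'.1 t) ((m : ℚ)⁻¹ • toQ z) + D ⟨j'.1, j'.2.1⟩)) := by
      linarith
    exact le_of_mul_le_mul_left h5 hm0

/-- Weights give generators. -/
lemma gens_of_inF {D : 𝒱.X.primeDivisors → ℚ} (hD : 𝒱.InvDiv D) {u : Fin r → ℚ}
    {R : Subalgebra k L} (hu : 𝒱.InF D (𝒱.hset R) (𝒱.jset R) u) {S : Subalgebra k K}
    (hSR : Above S R) {m : ℕ} (hm : 0 < m) {g : K}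
    (hg : 𝒱.Z.Gens (𝒱.data.low (𝒱.res D) u) m g S) :
    ∃ (m' : ℕ) (f : L), 0 < m' ∧ 𝒱.X.Gens D m' f R := by
  obtain ⟨n, hn, z, hz⟩ := exists_int_multiple u
  have hn0 : (0 : ℚ) < n := by exact_mod_cast hn
  have hm0 : (0 : ℚ) < m := by exact_mod_cast hm
  have hgn : g ^ n ≠ 0 := pow_ne_zero n hg.ne
  have hpair : ∀ w : Fin r → ℤ, (ipair w ((m : ℤ) • z) : ℚ) = (m * n) * pairL w u := by
    intro w
    rw [ipair_smul]
    push_cast
    rw [ipair_cast, ← hz, map_smul, smul_eq_mul, mul_assoc]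
  have hH : ∀ i : 𝒱.HH, (i.1 (g ^ n • mono t ((m : ℤ) • z)) : ℚ) +
      ((m * n : ℕ) : ℚ) * D ⟨i.1, i.2.1⟩ =
      (m * n) * (pairL (wvec i.1 t) u + D ⟨i.1, i.2.1⟩) := by
    intro i
    rw [𝒱.hor_term i hgn, hpair]
    push_cast
    ring
  have hJ : ∀ j : 𝒱.JJ, (j.1 (g ^ n • mono t ((m : ℤ) • z)) : ℚ) +
      ((m * n : ℕ) : ℚ) * D ⟨j.1, j.2.1⟩ =
      n * (mult j * (base j).1 g + m * (pairL (wvec j.1 t) u + D ⟨j.1, j.2.1⟩)) := by
    intro j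
    rw [𝒱.vert_term j hgn, DVal.map_pow]
    push_cast
    rw [hpair]
    ring
  have hlow : ∀ j : 𝒱.JJ, (mult j : ℚ) * 𝒱.data.low (𝒱.res D) u (base j) ≤
      pairL (wvec j.1 t) u + D ⟨j.1, j.2.1⟩ := fun j =>
    TData.e_mul_low_le (𝒯 := 𝒱.data) (D := 𝒱.res D) (u := u) (j := j) rfl
  refine ⟨m * n, g ^ n • mono t ((m : ℤ) • z), Nat.mul_pos hm hn,
    ⟨𝒱.term_ne hgn _, fun P => ?_⟩, fun P hP => ?_⟩
  · rcases 𝒱.tricho P.1 P.2 with hni | ⟨i, hi⟩ | ⟨j, hj⟩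
    · rw [hD P hni, term_eq_zero 𝒱.stable P.2 hni]
      simp
    · have h4 : P = ⟨i.1, i.2.1⟩ := Subtype.ext hi.symm
      subst h4
      change 0 ≤ (i.1 (g ^ n • mono t ((m : ℤ) • z)) : ℚ) + _
      rw [hH]
      exact mul_nonneg (mul_nonneg hm0.le hn0.le) (hu.1 i)
    · have h4 : P = ⟨j.1, j.2.1⟩ := Subtype.ext hj.symm
      subst h4
      change 0 ≤ (j.1 (g ^ n • mono t ((m : ℤ) • z)) : ℚ) + _
      rw [hJ]
      apply mul_nonneg hn0.le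
      have h1 := hg.sect.2 (base j)
      have hj0 : (0 : ℚ) ≤ mult j := by positivity
      have h2 := mul_nonneg hj0 h1
      have h3 := mul_le_mul_of_nonneg_left (hlow j) hm0.le
      linarith
  · rcases 𝒱.tricho P.1 P.2 with hni | ⟨i, hi⟩ | ⟨j, hj⟩
    · rw [hD P hni, term_eq_zero 𝒱.stable P.2 hni]
      simp
    · have h4 : P = ⟨i.1, i.2.1⟩ := Subtype.ext hi.symm
      subst h4
      change (i.1 (g ^ n • mono t ((m : ℤ) • z)) : ℚ) + _ = 0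
      rw [hH, hu.2.1 i hP, mul_zero]
    · have h4 : P = ⟨j.1, j.2.1⟩ := Subtype.ext hj.symm
      subst h4
      change (j.1 (g ^ n • mono t ((m : ℤ) • z)) : ℚ) + _ = 0
      have hj0 : (0 : ℚ) < mult j := by exact_mod_cast mult_pos j
      have hSj : S ≤ (base j).1.ring := by
        intro y hy
        have h9 := hP (hSR.1 y hy)
        change algebraMap K L y ∈ j.1.ring at h9
        rw [DVal.mem_ring, mult_spec] at h9
        rw [DVal.mem_ring]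
        have h10 : (0 : ℤ) < mult j := by exact_mod_cast mult_pos j
        by_contra hneg
        push Not at hneg
        have := mul_neg_of_pos_of_neg h10 hneg
        omega
      have h1 := hg.eq (base j) hSj
      have h2 : (pairL (wvec j.1 t) u + D ⟨j.1, j.2.1⟩) / mult j ≤
          𝒱.data.low (𝒱.res D) u (base j) := by
        rw [TData.le_low_iff]
        intro j' hj'
        have h3 := hu.2.2 j hP j' hj'
        change (mult j' : ℚ) * _ ≤ pairL (wvec j'.1 t) u + D ⟨j'.1, j'.2.1⟩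
        rw [mul_div_assoc', div_le_iff₀ hj0]
        linarith
      rw [div_le_iff₀ hj0] at h2
      have h3 := hlow j
      have h5 : pairL (wvec j.1 t) u + D ⟨j.1, j.2.1⟩ =
          mult j * 𝒱.data.low (𝒱.res D) u (base j) := by linarith
      rw [hJ, h5]
      have h6 : (n : ℚ) * (mult j * (base j).1 g + m * (mult j *
          𝒱.data.low (𝒱.res D) u (base j))) = n * mult j * (((base j).1 g : ℚ) +
            m * 𝒱.data.low (𝒱.res D) u (base j)) := by ring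
      rw [h6, h1, mul_zero]

/-- The vertical divisors lying over the same divisor of the base as a given finite set. -/
lemma finite_sat {S : Set 𝒱.JJ} (hS : S.Finite) :
    {j : 𝒱.JJ | ∃ j' ∈ S, base j' = base j}.Finite := by
  have h : {j : 𝒱.JJ | ∃ j' ∈ S, base j' = base j} ⊆ ⋃ j' ∈ S, {j : 𝒱.JJ | base j = base j'} := by
    rintro j ⟨j', hj', h⟩
    rw [Set.mem_iUnion₂]
    exact ⟨j', hj', h.symm⟩
  exact (Set.Finite.biUnion hS fun j' _ => 𝒱.fib (base j')).subset h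

lemma finite_vert {D : 𝒱.X.primeDivisors → ℚ} (hD : {P | D P ≠ 0}.Finite) :
    {j : 𝒱.JJ | D ⟨j.1, j.2.1⟩ ≠ 0}.Finite := by
  apply Set.Finite.of_finite_image (f := fun j : 𝒱.JJ => (⟨j.1, j.2.1⟩ : 𝒱.X.primeDivisors))
  · apply hD.subset
    rintro _ ⟨j, hj, rfl⟩
    exact hj
  · intro a _ b _ hab
    exact Subtype.ext (congrArg (fun P : 𝒱.X.primeDivisors => P.1) hab)

/-- The weights exist in the limit. -/
lemma exists_inF {D H : 𝒱.X.primeDivisors → ℚ} (hD : {P | D P ≠ 0}.Finite)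
    (hH : {P | H P ≠ 0}.Finite) (A : Set 𝒱.HH) (B : Set 𝒱.JJ)
    (h : ∀ ε : ℚ, 0 < ε → ∃ u, 𝒱.InF (D + ε • H) A B u) : ∃ u, 𝒱.InF D A B u := by
  classical
  have : Finite 𝒱.HH := 𝒱.hor_finite
  let ι := (𝒱.HH ⊕ A) ⊕ {p : 𝒱.JJ × 𝒱.JJ // p.1 ∈ B ∧ base p.2 = base p.1}
  let φ : ι → (Fin r → ℚ) →ₗ[ℚ] ℚ := Sum.elim (Sum.elim (fun i => pairL (wvec i.1 t))
    fun i => -pairL (wvec i.1.1 t))
    fun p => (mult p.1.1 : ℚ) • pairL (wvec p.1.2.1 t) - (mult p.1.2 : ℚ) • pairL (wvec p.1.1.1 t)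
  let val : (𝒱.X.primeDivisors → ℚ) → ι → ℚ := fun D => Sum.elim (Sum.elim (fun i => D ⟨i.1, i.2.1⟩)
    fun i => -D ⟨i.1.1, i.1.2.1⟩)
    fun p => (mult p.1.1 : ℚ) * D ⟨p.1.2.1, p.1.2.2.1⟩ - (mult p.1.2 : ℚ) * D ⟨p.1.1.1, p.1.1.2.1⟩
  have hval : ∀ (D : 𝒱.X.primeDivisors → ℚ) (u : Fin r → ℚ),
      𝒱.InF D A B u ↔ ∀ x : ι, 0 ≤ φ x u + val D x := by
    intro D u
    constructor
    · rintro ⟨h1, h2, h3⟩ ((i | i) | p)
      · exact h1 i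
      · change 0 ≤ -pairL (wvec i.1.1 t) u + -D ⟨i.1.1, i.1.2.1⟩
        have := h2 i.1 i.2
        linarith
      · change 0 ≤ ((mult p.1.1 : ℚ) * pairL (wvec p.1.2.1 t) u -
          (mult p.1.2 : ℚ) * pairL (wvec p.1.1.1 t) u) + ((mult p.1.1 : ℚ) *
            D ⟨p.1.2.1, p.1.2.2.1⟩ - (mult p.1.2 : ℚ) * D ⟨p.1.1.1, p.1.1.2.1⟩)
        have := h3 p.1.1 p.2.1 p.1.2 p.2.2
        linarith
    · intro hx
      refine ⟨fun i => hx (Sum.inl (Sum.inl i)), fun i hi => ?_, fun j hj j' hj' => ?_⟩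
      · have h1 : 0 ≤ pairL (wvec i.1 t) u + D ⟨i.1, i.2.1⟩ := hx (Sum.inl (Sum.inl i))
        have h2 : 0 ≤ -pairL (wvec i.1 t) u + -D ⟨i.1, i.2.1⟩ :=
          hx (Sum.inl (Sum.inr ⟨i, hi⟩))
        linarith
      · have h1 : 0 ≤ ((mult j : ℚ) * pairL (wvec j'.1 t) u -
          (mult j' : ℚ) * pairL (wvec j.1 t) u) + ((mult j : ℚ) *
            D ⟨j'.1, j'.2.1⟩ - (mult j' : ℚ) * D ⟨j.1, j.2.1⟩) :=
          hx (Sum.inr ⟨(j, j'), hj, hj'⟩)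
        linarith
  have hvadd : ∀ (ε : ℚ) (x : ι), val (D + ε • H) x = val D x + ε * val H x := by
    rintro ε ((i | i) | p)
    · rfl
    · change -(D _ + ε * H _) = -D _ + ε * -H _
      ring
    · change (mult p.1.1 : ℚ) * (D _ + ε * H _) - (mult p.1.2 : ℚ) * (D _ + ε * H _) = _
      change _ = ((mult p.1.1 : ℚ) * D _ - (mult p.1.2 : ℚ) * D _) + ε *
        ((mult p.1.1 : ℚ) * H _ - (mult p.1.2 : ℚ) * H _)
      ring
  -- finiteness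
  let J₀ : Set 𝒱.JJ := {j | wvec j.1 t ≠ 0 ∨ mult j ≠ 1} ∪
    ({j | D ⟨j.1, j.2.1⟩ ≠ 0} ∪ {j | H ⟨j.1, j.2.1⟩ ≠ 0})
  have hJ₀ : J₀.Finite := 𝒱.special.union ((finite_vert hD).union (finite_vert hH))
  have hJ₁ := finite_sat hJ₀
  have htriv : ∀ j ∉ J₀, wvec j.1 t = 0 ∧ mult j = 1 ∧ D ⟨j.1, j.2.1⟩ = 0 ∧
      H ⟨j.1, j.2.1⟩ = 0 := by
    intro j hj
    simp only [J₀, Set.mem_union, Set.mem_ofPred_eq, not_or, not_not] at hj
    exact ⟨hj.1.1, hj.1.2, hj.2.1, hj.2.2⟩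
  have hfin : {x : ι | φ x ≠ 0 ∨ val D x ≠ 0 ∨ val H x ≠ 0}.Finite := by
    have h1 : (Set.range (Sum.inl : 𝒱.HH ⊕ A → ι)).Finite := Set.finite_range _
    have h2 : {x : {p : 𝒱.JJ × 𝒱.JJ // p.1 ∈ B ∧ base p.2 = base p.1} |
        (∃ j' ∈ J₀, base j' = base x.1.1)}.Finite := by
      apply Set.Finite.of_finite_image (f := fun x => x.1) _ (Subtype.val_injective.injOn)
      apply (hJ₁.prod hJ₁).subset
      rintro _ ⟨x, ⟨j', hj', hx⟩, rfl⟩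
      exact ⟨⟨j', hj', hx⟩, ⟨j', hj', hx.trans x.2.2.symm⟩⟩
    apply (h1.union (h2.image Sum.inr)).subset
    rintro (x | x) hx
    · exact Or.inl ⟨x, rfl⟩
    · right
      refine ⟨x, ?_, rfl⟩
      by_contra hcon
      rw [Set.mem_ofPred_eq] at hcon
      push Not at hcon
      have h3 : x.1.1 ∉ J₀ := fun hmem => hcon x.1.1 hmem rfl
      have h4 : x.1.2 ∉ J₀ := fun hmem => hcon x.1.2 hmem x.2.2
      obtain ⟨a1, a2, a3, a4⟩ := htriv _ h3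
      obtain ⟨b1, b2, b3, b4⟩ := htriv _ h4
      have c1 : φ (Sum.inr x) = 0 := by
        change (mult x.1.1 : ℚ) • pairL (wvec x.1.2.1 t) -
          (mult x.1.2 : ℚ) • pairL (wvec x.1.1.1 t) = 0
        rw [a1, b1, pairL_zero]
        simp
      have c2 : val D (Sum.inr x) = 0 := by
        change (mult x.1.1 : ℚ) * D ⟨x.1.2.1, x.1.2.2.1⟩ -
          (mult x.1.2 : ℚ) * D ⟨x.1.1.1, x.1.1.2.1⟩ = 0
        rw [a3, b3]
        simp
      have c3 : val H (Sum.inr x) = 0 := by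
        change (mult x.1.1 : ℚ) * H ⟨x.1.2.1, x.1.2.2.1⟩ -
          (mult x.1.2 : ℚ) * H ⟨x.1.1.1, x.1.1.2.1⟩ = 0
        rw [a4, b4]
        simp
      rcases hx with hx | hx | hx
      · exact hx c1
      · exact hx c2
      · exact hx c3
  obtain ⟨u, hu⟩ := farkas_limit φ (val D) (val H) hfin (fun ε hε => by
    obtain ⟨u, hu⟩ := h ε hε
    refine ⟨u, fun x => ?_⟩
    rw [add_assoc, ← hvadd]
    exact (hval _ u).1 hu x)
  exact ⟨u, (hval D u).2 hu⟩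

/-- Finitely many weights suffice. -/
theorem exists_weights {D H : 𝒱.X.primeDivisors → ℚ} (hDinv : 𝒱.InvDiv D)
    (hHinv : 𝒱.InvDiv H) (hD : {P | D P ≠ 0}.Finite)
    (hH : {P | H P ≠ 0}.Finite) (h : ∀ ε : ℚ, 0 < ε → 𝒱.X.PSemi (D + ε • H)) :
    ∃ 𝒰 : Set (Fin r → ℚ), 𝒰.Finite ∧ 𝒰.Nonempty ∧ (∀ u ∈ 𝒰, InP 𝒱.data (𝒱.res D) u) ∧
      ∀ R ∈ 𝒱.X.localRings, ∃ u ∈ 𝒰, 𝒱.InF D (𝒱.hset R) (𝒱.jset R) u := by
  classical
  have : Finite 𝒱.HH := 𝒱.hor_finite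
  let J₀ : Set 𝒱.JJ := {j | wvec j.1 t ≠ 0 ∨ mult j ≠ 1} ∪ {j | D ⟨j.1, j.2.1⟩ ≠ 0}
  have hJ₀ : J₀.Finite := 𝒱.special.union (finite_vert hD)
  set J₁ : Set 𝒱.JJ := {j : 𝒱.JJ | ∃ j' ∈ J₀, base j' = base j} with hJ₁def
  have hJ₁ : J₁.Finite := finite_sat hJ₀
  have htriv : ∀ j ∉ J₀, wvec j.1 t = 0 ∧ mult j = 1 ∧ D ⟨j.1, j.2.1⟩ = 0 := by
    intro j hj
    simp only [J₀, Set.mem_union, Set.mem_ofPred_eq, not_or, not_not] at hj
    exact ⟨hj.1.1, hj.1.2, hj.2⟩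
  -- only the special divisors matter
  have hred : ∀ (A : Set 𝒱.HH) (B : Set 𝒱.JJ) (u : Fin r → ℚ), 𝒱.InF D A (B ∩ J₁) u →
      𝒱.InF D A B u := by
    rintro A B u ⟨h1, h2, h3⟩
    refine ⟨h1, h2, fun j hj j' hj' => ?_⟩
    by_cases hj1 : j ∈ J₁
    · exact h3 j ⟨hj, hj1⟩ j' hj'
    · have h4 : j ∉ J₀ := fun hmem => hj1 ⟨j, hmem, rfl⟩
      have h5 : j' ∉ J₀ := fun hmem => hj1 ⟨j', hmem, hj'⟩
      obtain ⟨a1, a2, a3⟩ := htriv _ h4
      obtain ⟨b1, b2, b3⟩ := htriv _ h5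
      rw [a1, b1, a3, b3]
      simp
  have hex : ∀ R ∈ 𝒱.X.localRings, ∃ u, 𝒱.InF D (𝒱.hset R) (𝒱.jset R ∩ J₁) u := by
    intro R hR
    obtain ⟨u, h1, h2, h3⟩ := exists_inF hD hH (𝒱.hset R) (𝒱.jset R) (fun ε hε => by
      obtain ⟨m, f, hm, hf⟩ := h ε hε R hR
      obtain ⟨c, z, hc, hg⟩ := 𝒱.exists_gens_hom (D := D + ε • H) (by
        intro P hP
        rw [Pi.add_apply, Pi.smul_apply, hDinv P hP, hHinv P hP, smul_zero, add_zero]) hR hf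
      exact ⟨_, inF_of_gens hm hc hg⟩)
    exact ⟨u, h1, h2, fun j hj => h3 j hj.1⟩
  -- types
  let τ : Subalgebra k L → Set 𝒱.HH × Set J₁ := fun R => (𝒱.hset R, {j | j.1 ∈ 𝒱.jset R})
  have hτ : ∀ R R', τ R = τ R' → ∀ u, 𝒱.InF D (𝒱.hset R) (𝒱.jset R ∩ J₁) u →
      𝒱.InF D (𝒱.hset R') (𝒱.jset R' ∩ J₁) u := by
    intro R R' hRR u hu
    have h1 : 𝒱.hset R = 𝒱.hset R' := congrArg Prod.fst hRR
    have h2 : 𝒱.jset R ∩ J₁ = 𝒱.jset R' ∩ J₁ := by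
      ext j
      constructor
      · rintro ⟨hj, hj1⟩
        refine ⟨?_, hj1⟩
        have h3 : (⟨j, hj1⟩ : J₁) ∈ (τ R).2 := hj
        rw [hRR] at h3
        exact h3
      · rintro ⟨hj, hj1⟩
        refine ⟨?_, hj1⟩
        have h3 : (⟨j, hj1⟩ : J₁) ∈ (τ R').2 := hj
        rw [← hRR] at h3
        exact h3
    rwa [h1, h2] at hu
  choose! U hU using hex
  have hfinJ : Finite J₁ := hJ₁
  have hfinτ : (τ '' 𝒱.X.localRings).Finite := Set.toFinite _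
  -- a representative for every type
  have hrep : ∀ σ ∈ τ '' 𝒱.X.localRings, ∃ R ∈ 𝒱.X.localRings, τ R = σ := fun σ hσ => hσ
  choose! ρ hρ using hrep
  refine ⟨(fun σ => U (ρ σ)) '' (τ '' 𝒱.X.localRings), hfinτ.image _, ?_, ?_, ?_⟩
  · exact ⟨_, _, ⟨_, 𝒱.X.locAt_mem 0 ⊥, rfl⟩, rfl⟩
  · rintro _ ⟨σ, hσ, rfl⟩
    exact (hU (ρ σ) (hρ σ hσ).1).1
  · intro R hR
    have hσ : τ R ∈ τ '' 𝒱.X.localRings := ⟨R, hR, rfl⟩
    refine ⟨_, ⟨τ R, hσ, rfl⟩, hred _ _ _ ?_⟩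
    exact hτ (ρ (τ R)) R (hρ _ hσ).2 _ (hU _ (hρ _ hσ).1)

/-- A criterion for semiampleness in terms of the base. -/
theorem psemi_iff (hQF : 𝒱.Z.IsQFactorial) {D H : 𝒱.X.primeDivisors → ℚ} (hDinv : 𝒱.InvDiv D)
    (hHinv : 𝒱.InvDiv H) (hD : {P | D P ≠ 0}.Finite)
    (hH : {P | H P ≠ 0}.Finite) (h : ∀ ε : ℚ, 0 < ε → 𝒱.X.PSemi (D + ε • H)) :
    ∃ 𝒰 : Set (Fin r → ℚ), 𝒰.Finite ∧ 𝒰.Nonempty ∧ (∀ u ∈ 𝒰, InP 𝒱.data (𝒱.res D) u) ∧
      (𝒱.X.PSemi D ↔ ∀ u ∈ 𝒰, 𝒱.Z.PSemi (𝒱.data.low (𝒱.res D) u)) := by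
  obtain ⟨𝒰, h1, h2, h3, h4⟩ := exists_weights hDinv hHinv hD hH h
  refine ⟨𝒰, h1, h2, h3, fun hs u hu => psemi_low hQF hDinv hD hs (h3 u hu), fun hs R hR => ?_⟩
  obtain ⟨u, hu, hF⟩ := h4 R hR
  obtain ⟨S, hS, hSR⟩ := 𝒱.mor R hR
  obtain ⟨m, g, hm, hg⟩ := hs u hu S hS
  exact gens_of_inF hDinv hF hSR hm hg

end TV

end Pool.Agent.Helper92.Weak
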