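import Pool.Agent.Helper92.Weak.Values

set_option autoImplicit false

/-! Generation of divisors by sections at the points of a normal projective variety. -/

namespace Pool.Agent.Helper92.Weak

namespace ProjVar

variable {k L : Type*} [Field k] [Field L] [Algebra k L] (X : ProjVar k L)

/-- The function `f` is a section of `m D`. -/
def IsSect (D : X.primeDivisors → ℚ) (m : ℕ) (f : L) : Prop :=
  f ≠ 0 ∧ ∀ P : X.primeDivisors, 0 ≤ (P.1 f : ℚ) + m * D P

/-- The section `f` of `m D` generates it at the point `R`. -/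
structure Gens (D : X.primeDivisors → ℚ) (m : ℕ) (f : L) (R : Subalgebra k L) : Prop where
  sect : X.IsSect D m f
  eq : ∀ P : X.primeDivisors, R ≤ P.1.ring → (P.1 f : ℚ) + m * D P = 0

/-- Some multiple of `D` is generated at every point. -/
def PSemi (D : X.primeDivisors → ℚ) : Prop :=
  ∀ R ∈ X.localRings, ∃ (m : ℕ) (f : L), 0 < m ∧ X.Gens D m f R

variable {X}

lemma IsSect.ne {D : X.primeDivisors → ℚ} {m : ℕ} {f : L} (h : X.IsSect D m f) : f ≠ 0 := h.1

lemma IsSect.pow {D : X.primeDivisors → ℚ} {m : ℕ} {f : L} (h : X.IsSect D m f) (n : ℕ) :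
    X.IsSect D (m * n) (f ^ n) := by
  refine ⟨pow_ne_zero n h.1, fun P => ?_⟩
  have h1 := h.2 P
  have hn : (0 : ℚ) ≤ n := by positivity
  have h2 := mul_nonneg hn h1
  rw [DVal.map_pow]
  push_cast
  linarith

lemma IsSect.mul {D D' : X.primeDivisors → ℚ} {m : ℕ} {f f' : L} (h : X.IsSect D m f)
    (h' : X.IsSect D' m f') : X.IsSect (D + D') m (f * f') := by
  refine ⟨mul_ne_zero h.1 h'.1, fun P => ?_⟩
  have h1 := h.2 P
  have h2 := h'.2 P
  rw [DVal.map_mul _ h.1 h'.1, Pi.add_apply]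
  push_cast
  linarith

namespace Gens

variable {D : X.primeDivisors → ℚ} {m : ℕ} {f : L} {R : Subalgebra k L}

lemma ne (h : X.Gens D m f R) : f ≠ 0 := h.sect.1

lemma mono (h : X.Gens D m f R) {R' : Subalgebra k L} (hR : R ≤ R') : X.Gens D m f R' :=
  ⟨h.sect, fun P hP => h.eq P (hR.trans hP)⟩

lemma pow (h : X.Gens D m f R) (n : ℕ) : X.Gens D (m * n) (f ^ n) R := by
  refine ⟨h.sect.pow n, fun P hP => ?_⟩
  have h1 := h.eq P hP
  rw [DVal.map_pow]
  push_cast
  have h2 : (n : ℚ) * ((P.1 f : ℚ) + m * D P) = 0 := by rw [h1, mul_zero]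
  linarith

lemma mul {D' : X.primeDivisors → ℚ} {f' : L} (h : X.Gens D m f R) (h' : X.Gens D' m f' R) :
    X.Gens (D + D') m (f * f') R := by
  refine ⟨h.sect.mul h'.sect, fun P hP => ?_⟩
  have h1 := h.eq P hP
  have h2 := h'.eq P hP
  rw [DVal.map_mul _ h.ne h'.ne, Pi.add_apply]
  push_cast
  linarith

/-- Changing the divisor by a rational multiple of a principal divisor. -/
lemma add_prin (h : X.Gens D m f R) {ψ : L} (hψ : ψ ≠ 0) (q : ℚ) :
    X.Gens (fun P => D P + q * P.1 ψ) (m * q.den) (f ^ q.den * ψ ^ (-((m : ℤ) * q.num))) R := by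
  have hq : (q.num : ℚ) = q * q.den := (Rat.mul_den_eq_num q).symm
  have key : ∀ P : X.primeDivisors, (P.1 (f ^ q.den * ψ ^ (-((m : ℤ) * q.num))) : ℚ) +
      ((m * q.den : ℕ) : ℚ) * (D P + q * P.1 ψ) = q.den * ((P.1 f : ℚ) + m * D P) := by
    intro P
    rw [DVal.map_mul _ (pow_ne_zero _ h.ne) (zpow_ne_zero _ hψ), DVal.map_pow, DVal.map_zpow]
    push_cast
    rw [hq]
    ring
  refine ⟨⟨mul_ne_zero (pow_ne_zero _ h.ne) (zpow_ne_zero _ hψ), fun P => ?_⟩, fun P hP => ?_⟩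
  · rw [key]
    exact mul_nonneg (by positivity) (h.sect.2 P)
  · rw [key, h.eq P hP, mul_zero]

/-- Scaling. -/
lemma smul (h : X.Gens D m f R) {q : ℚ} (hq : 0 ≤ q) :
    X.Gens (q • D) (m * q.den) (f ^ q.num.toNat) R := by
  have hnum : ((q.num.toNat : ℕ) : ℚ) = q * q.den := by
    have h1 : ((q.num.toNat : ℕ) : ℤ) = q.num := Int.toNat_of_nonneg (Rat.num_nonneg.2 hq)
    have h2 : ((q.num.toNat : ℕ) : ℚ) = (((q.num.toNat : ℕ) : ℤ) : ℚ) := (Int.cast_natCast _).symm
    rw [h2, h1]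
    exact (Rat.mul_den_eq_num q).symm
  have key : ∀ P : X.primeDivisors, (P.1 (f ^ q.num.toNat) : ℚ) +
      ((m * q.den : ℕ) : ℚ) * (q • D) P = q.num.toNat * ((P.1 f : ℚ) + m * D P) := by
    intro P
    rw [DVal.map_pow, Pi.smul_apply, smul_eq_mul]
    push_cast
    rw [hnum]
    ring
  refine ⟨⟨pow_ne_zero _ h.ne, fun P => ?_⟩, fun P hP => ?_⟩
  · rw [key]
    exact mul_nonneg (by positivity) (h.sect.2 P)
  · rw [key, h.eq P hP, mul_zero]

end Gens

lemma PSemi.add {D D' : X.primeDivisors → ℚ} (h : X.PSemi D) (h' : X.PSemi D') :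
    X.PSemi (D + D') := by
  intro R hR
  obtain ⟨m, f, hm, hf⟩ := h R hR
  obtain ⟨m', f', hm', hf'⟩ := h' R hR
  refine ⟨m * m', f ^ m' * f' ^ m, Nat.mul_pos hm hm', (hf.pow m').mul ?_⟩
  rw [mul_comm m m']
  exact hf'.pow m

lemma PSemi.smul {D : X.primeDivisors → ℚ} (h : X.PSemi D) {q : ℚ} (hq : 0 ≤ q) :
    X.PSemi (q • D) := by
  intro R hR
  obtain ⟨m, f, hm, hf⟩ := h R hR
  exact ⟨_, _, Nat.mul_pos hm q.den_pos, hf.smul hq⟩

lemma PSemi.add_prin {D : X.primeDivisors → ℚ} (h : X.PSemi D) {ψ : L} (hψ : ψ ≠ 0) (q : ℚ) :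
    X.PSemi (fun P => D P + q * P.1 ψ) := by
  intro R hR
  obtain ⟨m, f, hm, hf⟩ := h R hR
  exact ⟨_, _, Nat.mul_pos hm q.den_pos, hf.add_prin hψ q⟩

/-- A function which vanishes on finitely many divisors not through a point, but not at the
point. -/
lemma exists_notMem {i : Fin (X.n + 1)} (p : Ideal (chart k X.x i)) [hp : p.IsPrime]
    (s : Finset X.primeDivisors) (hs : ∀ P ∈ s, chart k X.x i ≤ P.1.ring →
      ¬ locAt (chart k X.x i) p ≤ P.1.ring) :
    ∃ a : chart k X.x i, a ∉ p ∧ ∀ P ∈ s, chart k X.x i ≤ P.1.ring → 0 < P.1 (a : L) := by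
  classical
  induction s using Finset.induction_on with
  | empty =>
    refine ⟨1, fun h => hp.ne_top ((Ideal.eq_top_iff_one _).2 h), by simp⟩
  | insert Q s hQ ih =>
    obtain ⟨a, ha, h⟩ := ih fun P hP => hs P (Finset.mem_insert_of_mem hP)
    by_cases hc : chart k X.x i ≤ Q.1.ring
    · have h1 := hs Q (Finset.mem_insert_self Q s) hc
      -- some element outside `p` has positive value
      obtain ⟨b, hb, hbQ⟩ : ∃ b : chart k X.x i, b ∉ p ∧ 0 < Q.1 (b : L) := by
        by_contra hcon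
        push Not at hcon
        apply h1
        rintro z ⟨a, b, hb, hz⟩
        have hb0 := coe_ne_zero_of_notMem hb
        have h2 := hcon b hb
        have h3 : 0 ≤ Q.1 (b : L) := hc b.2
        by_cases hz0 : z = 0
        · rw [hz0]; exact Subalgebra.zero_mem _
        have h4 : 0 ≤ Q.1 (a : L) := hc a.2
        rw [← hz, DVal.map_mul _ hz0 hb0] at h4
        rw [DVal.mem_ring]
        omega
      refine ⟨a * b, fun h => (hp.mem_or_mem h).elim ha hb, fun P hP hPc => ?_⟩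
      have ha0 := coe_ne_zero_of_notMem ha
      have hb0 := coe_ne_zero_of_notMem hb
      push_cast
      rw [DVal.map_mul _ ha0 hb0]
      have h3 : 0 ≤ P.1 (a : L) := hPc a.2
      have h4 : 0 ≤ P.1 (b : L) := hPc b.2
      rcases Finset.mem_insert.1 hP with rfl | hP
      · omega
      · have := h P hP hPc
        omega
    · refine ⟨a, ha, fun P hP hPc => ?_⟩
      rcases Finset.mem_insert.1 hP with rfl | hP
      · exact absurd hPc hc
      · exact h P hP hPc

/-- An element of a chart outside a prime ideal is a unit at the point. -/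
lemma val_of_notMem {i : Fin (X.n + 1)} {p : Ideal (chart k X.x i)} [hp : p.IsPrime]
    {a : chart k X.x i} (ha : a ∉ p) {P : DVal k L} (hP : locAt (chart k X.x i) p ≤ P.ring) :
    P (a : L) = 0 := by
  have h1 := hP (le_locAt p a.2)
  have h2 := hP (inv_mem_locAt ha)
  rw [DVal.mem_ring] at h1 h2
  rw [DVal.map_inv] at h2
  omega

lemma finite_ne {D : X.primeDivisors → ℚ} (hD : {P | D P ≠ 0}.Finite) (f : L) (q : ℚ) :
    {P : X.primeDivisors | (P.1 f : ℚ) + q * D P ≠ 0}.Finite := by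
  have h1 : {P : X.primeDivisors | (P.1 f : ℚ) ≠ 0}.Finite := X.finite_prin f
  apply (h1.union hD).subset
  intro P hP
  by_contra hcon
  simp only [Set.mem_union, Set.mem_ofPred_eq, not_or, not_not] at hcon
  apply hP
  rw [hcon.1, hcon.2]
  simp

/-- Finitely many sections of one multiple generate. -/
theorem PSemi.exists_finite {D : X.primeDivisors → ℚ} (hD : {P | D P ≠ 0}.Finite)
    (h : X.PSemi D) : ∃ (T : ℕ) (F : Finset L), 0 < T ∧ (∀ f ∈ F, X.IsSect D T f) ∧
      ∀ R ∈ X.localRings, ∃ f ∈ F, X.Gens D T f R := by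
  classical
  -- finitely many sections on one chart
  have hchart : ∀ i : Fin (X.n + 1), ∃ F : Finset (ℕ × L),
      (∀ x ∈ F, 0 < x.1 ∧ X.IsSect D x.1 x.2) ∧
      ∀ (p : Ideal (chart k X.x i)) (_ : p.IsPrime), ∃ x ∈ F,
        X.Gens D x.1 x.2 (locAt (chart k X.x i) p) := by
    intro i
    let G : Set (chart k X.x i) := {a | ∃ (m : ℕ) (f : L), 0 < m ∧ X.IsSect D m f ∧
      ∀ P : X.primeDivisors, chart k X.x i ≤ P.1.ring → (P.1 f : ℚ) + m * D P ≠ 0 →
        0 < P.1 (a : L)}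
    have hG : Ideal.span G = ⊤ := by
      by_contra hne
      obtain ⟨p, hpm, hp⟩ := Ideal.exists_le_maximal _ hne
      have hpp : p.IsPrime := hpm.isPrime
      obtain ⟨m, f, hm, hf⟩ := h _ (X.locAt_mem i p)
      have hfin := finite_ne hD f (m : ℚ)
      obtain ⟨a, ha, h1⟩ := exists_notMem p hfin.toFinset (fun P hP _ hP2 => by
        rw [Set.Finite.mem_toFinset] at hP
        exact hP (hf.eq P hP2))
      apply ha
      apply hp
      apply Ideal.subset_span
      refine ⟨m, f, hm, hf.sect, fun P hP hne => h1 P ?_ hP⟩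
      rw [Set.Finite.mem_toFinset]
      exact hne
    have h1 : (1 : chart k X.x i) ∈ Ideal.span G := by rw [hG]; trivial
    obtain ⟨G', hG', h2⟩ := Submodule.mem_span_finite_of_mem_span h1
    have hsel : ∀ a ∈ G', ∃ x : ℕ × L, 0 < x.1 ∧ X.IsSect D x.1 x.2 ∧
        ∀ P : X.primeDivisors, chart k X.x i ≤ P.1.ring → (P.1 x.2 : ℚ) + x.1 * D P ≠ 0 →
          0 < P.1 (a : L) := by
      intro a ha
      obtain ⟨m, f, hm, hf, h⟩ := hG' ha
      exact ⟨(m, f), hm, hf, h⟩
    choose! φ hφ using hsel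
    refine ⟨G'.image φ, ?_, ?_⟩
    · intro x hx
      obtain ⟨a, ha, rfl⟩ := Finset.mem_image.1 hx
      exact ⟨(hφ a ha).1, (hφ a ha).2.1⟩
    · intro p hp
      obtain ⟨a, ha, hap⟩ : ∃ a ∈ G', a ∉ p := by
        by_contra hcon
        push Not at hcon
        apply hp.ne_top
        rw [Ideal.eq_top_iff_one]
        exact (Ideal.span_le.2 fun a ha => hcon a ha) h2
      refine ⟨φ a, Finset.mem_image_of_mem φ ha, (hφ a ha).2.1, fun P hP => ?_⟩
      by_contra hne
      have h3 := (hφ a ha).2.2 P ((le_locAt p).trans hP) hne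
      rw [val_of_notMem hap hP] at h3
      exact lt_irrefl _ h3
  choose F hF hFg using hchart
  -- a common multiple
  let G := (Finset.univ : Finset (Fin (X.n + 1))).biUnion F
  have hG : ∀ x ∈ G, 0 < x.1 ∧ X.IsSect D x.1 x.2 := by
    intro x hx
    obtain ⟨i, -, hi⟩ := Finset.mem_biUnion.1 hx
    exact hF i x hi
  have hpos : 0 < ∏ x ∈ G, x.1 := Finset.prod_pos fun x hx => (hG x hx).1
  have hdiv : ∀ x ∈ G, x.1 * ((∏ x ∈ G, x.1) / x.1) = ∏ x ∈ G, x.1 := fun x hx =>
    Nat.mul_div_cancel' (Finset.dvd_prod_of_mem _ hx)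
  refine ⟨∏ x ∈ G, x.1, G.image (fun x => x.2 ^ ((∏ x ∈ G, x.1) / x.1)), hpos, ?_, ?_⟩
  · intro f hf
    obtain ⟨x, hx, rfl⟩ := Finset.mem_image.1 hf
    have := (hG x hx).2.pow ((∏ x ∈ G, x.1) / x.1)
    rwa [hdiv x hx] at this
  · intro R hR
    obtain ⟨i, p, hp, rfl⟩ := X.mem_localRings.1 hR
    obtain ⟨x, hx, h1⟩ := hFg i p hp
    have hxG : x ∈ G := Finset.mem_biUnion.2 ⟨i, Finset.mem_univ i, hx⟩
    refine ⟨_, Finset.mem_image.2 ⟨x, hxG, rfl⟩, ?_⟩
    have := h1.pow ((∏ x ∈ G, x.1) / x.1)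
    rwa [hdiv x hxG] at this

end ProjVar

end Pool.Agent.Helper92.Weak
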