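import Pool.Agent.Helper92.Sem.Verts

set_option autoImplicit false

/-! Geometric data, once more. -/

namespace Pool.Agent.Helper92.Weak

open Module

variable {k K : Type*} [Field k] [Field K] [Algebra k K] {r : ℕ} {Q H J : Type*}

/-- The point of the relative interior does not depend on the effectivity. -/
theorem exists_geom' [Fintype H] (𝒯 : TData k K r Q H J) (D : H ⊕ J → ℚ)
    (hD : {j | D (Sum.inr j) ≠ 0}.Finite) (hP : ∃ u, InP 𝒯 D u) :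
    ∃ u₀, InP 𝒯 D u₀ ∧ ((∀ u, InP 𝒯 D u → ∃ T : ℕ, 0 < T ∧ ∃ g : K, g ≠ 0 ∧
      g ∈ 𝒯.wt ((T : ℚ) • D) ((T : ℚ) • u)) → ∀ T₀ : ℕ, 0 < T₀ →
      ∃ 𝒢 : Geom 𝒯 D, 𝒢.u₀ = u₀ ∧ T₀ ∣ 𝒢.T) := by
  classical
  have hsep : ∀ z, (∀ i, pairL (𝒯.ρ i) z = 0) → z = 0 := fun z hz =>
    𝒯.complete z fun i => (hz i).ge
  have hneg : ∀ i, ∃ c : H → ℚ, (∀ j, 0 ≤ c j) ∧ -pairL (𝒯.ρ i) = ∑ j, c j • pairL (𝒯.ρ j) := by
    intro i
    rcases farkas (Finset.univ : Finset H) (fun j => pairL (𝒯.ρ j)) (-pairL (𝒯.ρ i)) with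
      ⟨c, hc, h⟩ | ⟨y, hy, hyb⟩
    · exact ⟨c, fun j => hc j (Finset.mem_univ j), h⟩
    · exfalso
      -- `y` is evaluation at a vector
      have hev : ∃ z : Fin r → ℚ, ∀ φ : (Fin r → ℚ) →ₗ[ℚ] ℚ, y φ = φ z := by
        refine ⟨fun l => y (LinearMap.proj l), fun φ => ?_⟩
        have h1 : φ = ∑ l, φ (Pi.single l 1) • (LinearMap.proj l : (Fin r → ℚ) →ₗ[ℚ] ℚ) := by
          apply LinearMap.ext
          intro u
          rw [LinearMap.sum_apply]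
          simp only [LinearMap.smul_apply, LinearMap.proj_apply, smul_eq_mul]
          conv_lhs => rw [pi_eq_sum_univ' u]
          rw [map_sum]
          refine Finset.sum_congr rfl fun l _ => ?_
          rw [map_smul, smul_eq_mul, mul_comm]
        conv_rhs => rw [h1]
        rw [LinearMap.sum_apply]
        conv_lhs => rw [h1]
        rw [map_sum]
        refine Finset.sum_congr rfl fun l _ => ?_
        rw [map_smul, LinearMap.smul_apply, LinearMap.proj_apply]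
      obtain ⟨z, hz⟩ := hev
      have hz0 : z = 0 := by
        apply 𝒯.complete
        intro j
        rw [← hz]
        exact hy j (Finset.mem_univ j)
      rw [hz, hz0] at hyb
      simp at hyb
  obtain ⟨u₀, s, t, b, h0, bint, haff, ⟨ε, hε, hεb⟩, hbd⟩ :=
    poly_geometry (fun i => pairL (𝒯.ρ i)) (fun i => D (Sum.inl i)) hneg hsep hP
  refine ⟨u₀, h0, fun hEff T₀ hT₀ => ?_⟩
  -- the points
  let p : Option (Fin s × Bool) → Fin r → ℚ := fun o => o.elim u₀ fun jb =>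
    if jb.2 then u₀ + ε • b (Sum.inl jb.1) else u₀ - ε • b (Sum.inl jb.1)
  have hp : ∀ o, InP 𝒯 D (p o) := by
    intro o
    cases o with
    | none => exact h0
    | some jb =>
      obtain ⟨j, bo⟩ := jb
      cases bo
      · exact (hεb j).2
      · exact (hεb j).1
  choose T₁ hT₁ g hg0 hg using fun o => hEff (p o) (hp o)
  obtain ⟨n₁, hn₁, hint⟩ := exists_int_multiple_family p
  -- the denominators of `low`
  have hbad : ({j | 𝒯.w j ≠ 0 ∨ 𝒯.e j ≠ 1} ∪ {j | D (Sum.inr j) ≠ 0}).Finite :=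
    𝒯.special.union hD
  obtain ⟨n₃, hn₃, hlow'⟩ := exists_common_den hbad.toFinset
    (fun j => (pairL (𝒯.w j) u₀ + D (Sum.inr j)) / 𝒯.e j)
  obtain ⟨n₂, hn₂, hn₂T, hlow⟩ : ∃ n₂ : ℕ, 0 < n₂ ∧ T₀ ∣ n₂ ∧ ∀ j ∈ hbad.toFinset, ∃ z : ℤ,
      (n₂ : ℚ) * ((pairL (𝒯.w j) u₀ + D (Sum.inr j)) / 𝒯.e j) = z := by
    refine ⟨n₃ * T₀, Nat.mul_pos hn₃ hT₀, Dvd.intro_left _ rfl, fun j hj => ?_⟩
    obtain ⟨z, hz⟩ := hlow' j hj
    refine ⟨T₀ * z, ?_⟩
    push_cast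
    rw [← hz]
    ring
  set T : ℕ := (∏ o, T₁ o) * (n₁ * n₂) with hT
  have hTpos : 0 < T := Nat.mul_pos (Finset.prod_pos fun o _ => hT₁ o) (Nat.mul_pos hn₁ hn₂)
  have hdvd : ∀ o, T₁ o ∣ T := fun o =>
    (Finset.dvd_prod_of_mem T₁ (Finset.mem_univ o)).mul_right _
  have hsec : ∀ o, ∃ g' : K, g' ≠ 0 ∧ g' ∈ 𝒯.wt ((T : ℚ) • D) ((T : ℚ) • p o) := fun o =>
    wt_multiple (hg0 o) (hg o) (hdvd o)
  have hint' : ∀ o, ∃ z : Fin r → ℤ, (T : ℚ) • p o = fun l => (z l : ℚ) := by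
    intro o
    obtain ⟨z, hz⟩ := hint o
    refine ⟨fun l => ((∏ o, T₁ o) * n₂ : ℕ) * z l, ?_⟩
    funext l
    have h1 := congrFun hz l
    simp only [Pi.smul_apply, smul_eq_mul] at h1 ⊢
    rw [hT]
    push_cast
    rw [← h1]
    ring
  choose g' hg'0 hg' using hsec
  refine ⟨⟨u₀, s, t, b, h0, haff, ε, hε, fun j => (hεb j).1, fun j => (hεb j).2, hbd, T, hTpos,
    g' none, hg'0 none, hg' none, fun j => g' (some (j, true)), fun j => hg'0 _, ?_,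
    fun j => g' (some (j, false)), fun j => hg'0 _, ?_, hint' none, ?_, ?_⟩, rfl,
    (hn₂T.mul_left n₁).mul_left _⟩
  · intro j
    have := hg' (some (j, true))
    simpa [p] using this
  · intro j
    have := hg' (some (j, false))
    simpa [p] using this
  · intro j
    have := hint' (some (j, true))
    simpa [p] using this
  · intro q
    obtain ⟨j, hj, h⟩ := TData.exists_low (𝒯 := 𝒯) D u₀ q
    have hej : (𝒯.e j : ℚ) ≠ 0 := by exact_mod_cast (𝒯.e_pos j).ne'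
    have h2 : 𝒯.low D u₀ q = (pairL (𝒯.w j) u₀ + D (Sum.inr j)) / 𝒯.e j := by
      rw [eq_div_iff hej, mul_comm]; exact h
    by_cases hjb : j ∈ hbad.toFinset
    · obtain ⟨z, hz⟩ := hlow j hjb
      refine ⟨(∏ o, T₁ o : ℕ) * n₁ * z, ?_⟩
      rw [h2, hT]
      push_cast
      rw [← hz]
      ring
    · have h3 : j ∉ ({j | 𝒯.w j ≠ 0 ∨ 𝒯.e j ≠ 1} ∪ {j | D (Sum.inr j) ≠ 0}) := by
        simpa using hjb
      simp only [Set.mem_union, Set.mem_ofPred_eq, not_or, not_not] at h3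
      refine ⟨0, ?_⟩
      rw [h2, h3.1.1, h3.2]
      simp

/-- Effectivity at all points of the polytope follows from effectivity at the vertices. -/
theorem eff_of_vtx [Finite H] (𝒯 : TData k K r Q H J) (D : H ⊕ J → ℚ)
    (h : ∀ u ∈ vtx (fun i => pairL (𝒯.ρ i)) (fun i => D (Sum.inl i)),
      ∃ T : ℕ, 0 < T ∧ ∃ g : K, g ≠ 0 ∧ g ∈ 𝒯.wt ((T : ℚ) • D) ((T : ℚ) • u)) (u : Fin r → ℚ)
    (hu : InP 𝒯 D u) : ∃ T : ℕ, 0 < T ∧ ∃ g : K, g ≠ 0 ∧ g ∈ 𝒯.wt ((T : ℚ) • D) ((T : ℚ) • u) := by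
  have h1 := polyt_subset (fun i => pairL (𝒯.ρ i)) (fun i => D (Sum.inl i)) 𝒯.complete hu
  exact convexHull_min (fun v hv => h v hv) (eff_convex 𝒯 D) h1

end Pool.Agent.Helper92.Weak
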