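import Pool.Agent.Helper92.Sem.Gen
import Pool.Agent.Helper92.Weak.Adj

set_option autoImplicit false
set_option linter.unusedSectionVars false

/-! Homogeneous generators. -/

namespace Pool.Agent.Helper92.Weak

namespace TV

variable {k K L : Type*} [Field k] [Field K] [Field L] [Algebra k K] [Algebra k L] [Algebra K L]
  [IsScalarTower k K L] {r : ℕ} {t : Fin r → L} (𝒱 : TV k K t) [IsAlgClosed k] [CharZero k]

include 𝒱 in
lemma term_ne {c : K} (hc : c ≠ 0) (u : Fin r → ℤ) : c • mono t u ≠ 0 :=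
  smul_ne_zero hc (𝒱.ht.mono_ne u)

/-- The terms of a section are sections. -/
lemma term_sect {D : 𝒱.X.primeDivisors → ℚ} (hD : 𝒱.InvDiv D) {m : ℕ} {h : (Fin r → ℤ) →₀ K}
    (hs : 𝒱.X.IsSect D m (ev K t h)) {u : Fin r → ℤ} (hu : h u ≠ 0) :
    𝒱.X.IsSect D m (h u • mono t u) := by
  refine ⟨𝒱.term_ne hu u, fun P => ?_⟩
  by_cases hP : IsInv 𝒱.ht P.1
  · have h1 := hP.le_term h u hu
    have h2 : (P.1 (ev K t h) : ℚ) ≤ P.1 (h u • mono t u) := by exact_mod_cast h1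
    have h3 := hs.2 P
    linarith
  · rw [hD P hP, term_eq_zero 𝒱.stable P.2 hP]
    simp

/-- Some term of a generating section generates. -/
lemma gens_term {D : 𝒱.X.primeDivisors → ℚ} (hD : 𝒱.InvDiv D) {m : ℕ} {h : (Fin r → ℤ) →₀ K}
    {R : Subalgebra k L} (hR : R ∈ 𝒱.X.localRings) (hs : 𝒱.X.Gens D m (ev K t h) R) :
    ∃ u, h u ≠ 0 ∧ 𝒱.X.Gens D m (h u • mono t u) R := by
  have hne := hs.ne
  have hmem : ∀ u ∈ h.support, h u • mono t u / ev K t h ∈ R := by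
    intro u hu
    rw [Finsupp.mem_support_iff] at hu
    apply 𝒱.X.hartogs hR
    intro P hP hRP
    rw [DVal.mem_ring, DVal.map_div _ (𝒱.term_ne hu u) hne]
    have h1 := (𝒱.term_sect hD hs.sect hu).2 ⟨P, hP⟩
    have h2 := hs.eq ⟨P, hP⟩ hRP
    have h3 : (0 : ℚ) ≤ ((P (h u • mono t u) - P (ev K t h) : ℤ) : ℚ) := by
      push_cast
      change 0 ≤ (P (h u • mono t u) : ℚ) + _ at h1
      change (P (ev K t h) : ℚ) + _ = 0 at h2
      linarith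
    exact_mod_cast h3
  obtain ⟨u, hu, h1, h2⟩ := 𝒱.X.isUnit_of_sum hR h.support (fun u => h u • mono t u / ev K t h) hmem
    (by rw [← Finset.sum_div, ← ev_apply, div_self hne])
  have hu' : h u ≠ 0 := Finsupp.mem_support_iff.1 hu
  refine ⟨u, hu', 𝒱.term_sect hD hs.sect hu', fun P hP => ?_⟩
  have h3 := hP (hmem u hu)
  have h4 := hP h1
  rw [DVal.mem_ring] at h3 h4
  rw [DVal.map_inv] at h4
  rw [DVal.map_div _ (𝒱.term_ne hu' u) hne] at h3 h4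
  have h5 : P.1 (h u • mono t u) = P.1 (ev K t h) := by omega
  rw [h5]
  exact hs.eq P hP

/-- Sections of invariant divisors are Laurent polynomials. -/
lemma exists_ev_of_sect {D : 𝒱.X.primeDivisors → ℚ} (hD : 𝒱.InvDiv D) {m : ℕ} {z : L}
    (hz : 𝒱.X.IsSect D m z) : ∃ f : (Fin r → ℤ) →₀ K, z = ev K t f := by
  apply 𝒱.exists_ev_of_sec (D := (m : ℚ) • D)
  · intro P hP
    rw [Pi.smul_apply, hD P hP, smul_zero]
  · rw [mem_sec_of_ne hz.1]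
    exact hz.2

/-- Homogeneous generators at a point. -/
lemma exists_gens_hom {D : 𝒱.X.primeDivisors → ℚ} (hD : 𝒱.InvDiv D) {m : ℕ} {z : L}
    {R : Subalgebra k L} (hR : R ∈ 𝒱.X.localRings) (hs : 𝒱.X.Gens D m z R) :
    ∃ (c : K) (u : Fin r → ℤ), c ≠ 0 ∧ 𝒱.X.Gens D m (c • mono t u) R := by
  obtain ⟨f, rfl⟩ := 𝒱.exists_ev_of_sect hD hs.sect
  obtain ⟨u, hu, h⟩ := 𝒱.gens_term hD hR hs
  exact ⟨f u, u, hu, h⟩

/-- Finitely many homogeneous generators. -/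
theorem exists_hom_gens {D : 𝒱.X.primeDivisors → ℚ} (hD : 𝒱.InvDiv D)
    (hfin : {P | D P ≠ 0}.Finite) (h : 𝒱.X.PSemi D) :
    ∃ (T : ℕ) (s : Finset (K × (Fin r → ℤ))), 0 < T ∧
      (∀ x ∈ s, x.1 ≠ 0 ∧ 𝒱.X.IsSect D T (x.1 • mono t x.2)) ∧
      ∀ R ∈ 𝒱.X.localRings, ∃ x ∈ s, 𝒱.X.Gens D T (x.1 • mono t x.2) R := by
  classical
  obtain ⟨T, F, hT, hF, hFg⟩ := h.exists_finite hfin
  have hφ : ∀ f ∈ F, ∃ φ : (Fin r → ℤ) →₀ K, f = ev K t φ := fun f hf =>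
    𝒱.exists_ev_of_sect hD (hF f hf)
  choose! φ hφ using hφ
  refine ⟨T, F.biUnion fun f => (φ f).support.image fun u => (φ f u, u), hT, ?_, ?_⟩
  · intro x hx
    obtain ⟨f, hf, hx⟩ := Finset.mem_biUnion.1 hx
    obtain ⟨u, hu, rfl⟩ := Finset.mem_image.1 hx
    rw [Finsupp.mem_support_iff] at hu
    refine ⟨hu, 𝒱.term_sect hD ?_ hu⟩
    rw [← hφ f hf]
    exact hF f hf
  · intro R hR
    obtain ⟨f, hf, h1⟩ := hFg R hR
    rw [hφ f hf] at h1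
    obtain ⟨u, hu, h2⟩ := 𝒱.gens_term hD hR h1
    exact ⟨(φ f u, u), Finset.mem_biUnion.2 ⟨f, hf, Finset.mem_image.2
      ⟨u, Finsupp.mem_support_iff.2 hu, rfl⟩⟩, h2⟩

end TV

end Pool.Agent.Helper92.Weak
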