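import Pool.Agent.Helper92.Sem.NefBase
import Pool.Agent.Helper92.Weak.Adj2

set_option autoImplicit false
set_option linter.unusedSectionVars false

/-! Adjoint systems on the base. -/

namespace Pool.Agent.Helper92.Weak

open MvPolynomial

namespace TV

variable {k K L : Type*} [Field k] [Field K] [Field L] [Algebra k K] [Algebra k L] [Algebra K L]
  [IsScalarTower k K L] {r : ℕ} {t : Fin r → L} {𝒱 : TV k K t} [IsAlgClosed k] [CharZero k]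

/-- An invariant effective divisor which is linearly equivalent to the hyperplane section. -/
lemma exists_inv_hyp {HX : 𝒱.X.Div} (hHX : 𝒱.X.IsHyp HX) : ∃ ψ : L, ψ ≠ 0 ∧
    𝒱.InvDiv (fun P => HX P + P.1 ψ) ∧ ∀ P, 0 ≤ HX P + P.1 ψ := by
  have hint : 𝒱.X.IsInt HX := by
    intro P
    obtain ⟨i, hi⟩ := ProjVar.exists_chart P.2
    exact ⟨_, hHX P i hi⟩
  obtain ⟨f, hf, h⟩ := 𝒱.exists_poly HX hHX.nonneg hint
  obtain ⟨φ, hφ⟩ := exists_ev_eq t f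
  have hG0 : aeval t f ≠ 0 := fun h0 => hf (𝒱.ht.indep (by rw [h0, map_zero]))
  have hinv : 𝒱.InvDiv (fun P => HX P - P.1 (ev K t φ)) := by
    intro P hP
    change HX P - P.1 (ev K t φ) = 0
    rw [hφ, h P hP, sub_self]
  have hs : 𝒱.X.IsSect (fun P => HX P - P.1 (ev K t φ)) 1 (ev K t φ) := by
    refine ⟨by rw [hφ]; exact hG0, fun P => ?_⟩
    have h1 := hHX.nonneg P
    push_cast
    linarith
  obtain ⟨u, hu⟩ : ∃ u, φ u ≠ 0 := by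
    by_contra hcon
    push Not at hcon
    have : φ = 0 := by
      ext u
      exact hcon u
    rw [this, map_zero] at hφ
    exact hG0 hφ.symm
  have ht := 𝒱.term_sect hinv hs hu
  have hval : ∀ P : 𝒱.X.primeDivisors, (P.1 (φ u • mono t u * (ev K t φ)⁻¹) : ℚ) =
      P.1 (φ u • mono t u) - P.1 (ev K t φ) := by
    intro P
    rw [DVal.map_mul _ ht.ne (inv_ne_zero hs.ne), DVal.map_inv]
    push_cast
    ring
  refine ⟨φ u • mono t u * (ev K t φ)⁻¹, mul_ne_zero ht.ne (inv_ne_zero hs.ne), fun P hP => ?_,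
    fun P => ?_⟩
  · change HX P + _ = 0
    rw [hval]
    have h1 := hinv P hP
    change HX P - P.1 (ev K t φ) = 0 at h1
    rw [term_eq_zero 𝒱.stable P.2 hP]
    push_cast
    linarith
  · rw [hval]
    have h1 := ht.2 P
    push_cast at h1
    linarith

variable {A : DVal k K → ℤ → Prop} {𝒜 : 𝒱.Adj A} (𝒟 : 𝒜.Data)

namespace Adj.Data

/-- Comparison along vertical valuations. -/
lemma vert_key {v₀ : DVal k K} {u₀ : Fin r → ℚ} (hu : 𝒟.InQ u₀) {T : ℕ}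
    (hT : 0 < T) {z : Fin r → ℤ} (hz : (T : ℚ) • u₀ = fun l => (z l : ℚ)) {DZ : 𝒱.Z.Div}
    (hDZ : ∀ q, DZ q = T * 𝒱.data.low (𝒱.res 𝒟.red.D) u₀ q) {d : ℚ}
    (hd : 𝒱.Z.IsValue v₀ DZ d) {e : ℕ} (he : 0 < e) {w : Fin r → ℤ}
    (hs : ∃ (c : K) (u : Fin r → ℤ), c ≠ 0 ∧ ZVal.ofDVal e v₀ c + ipair w u = 1) {x : ℚ}
    (hx : 𝒱.X.IsValue (monoVal 𝒱.ht (ZVal.ofDVal e v₀) w hs) (𝒜.KX + 𝒜.Δ) x) :
    ∃ b ∈ 𝒟.S, (e : ℚ) * v₀ (𝒟.φ b) + pairL w (toQ b) ≤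
      𝒟.M * (x - monoVal 𝒱.ht (ZVal.ofDVal e v₀) w hs 𝒜.g) - e * d / T + pairL w u₀ := by
  set v := monoVal 𝒱.ht (ZVal.ofDVal e v₀) w hs with hv
  have hvK : ∀ a : K, v (algebraMap K L a) = e * v₀ a := fun a =>
    monoVal_algebraMap 𝒱.ht _ _ hs a
  have hvt : ∀ (c : K) (u : Fin r → ℤ), c ≠ 0 → v (c • mono t u) = e * v₀ c + ipair w u := by
    intro c u hc
    rw [hv, monoVal_term 𝒱.ht _ _ hs hc]
    rfl
  have he0 : (0 : ℤ) < e := by exact_mod_cast he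
  obtain ⟨R, hR, hRv⟩ := 𝒱.X.exists_center v
  obtain ⟨S₁, hS₁, hS₁R⟩ := 𝒱.mor R hR
  have hS₁v : Dominates S₁ v₀.ring := by
    constructor
    · intro x hx
      have h1 := hRv.1 (hS₁R.1 x hx)
      rw [DVal.mem_ring, hvK] at h1
      rw [DVal.mem_ring]
      by_contra hneg
      push Not at hneg
      have := mul_neg_of_pos_of_neg he0 hneg
      omega
    · intro x hx hx'
      apply hS₁R.2 x hx
      apply hRv.2 _ (hS₁R.1 x hx)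
      rw [DVal.mem_ring] at hx' ⊢
      rw [← map_inv₀, hvK]
      positivity
  obtain ⟨S₂, hS₂, hS₂v, m', h, hm', ⟨hh0, hh⟩, rfl⟩ := hd
  have hSS : S₁ = S₂ := 𝒱.Z.separated hS₁ hS₂ hS₁v hS₂v
  subst hSS
  obtain ⟨m, c, u', hm, hc, hterm⟩ := 𝒟.exists_term hR
  have h1 := 𝒟.value_eq hR hRv hm hc hterm hx
  have hm0 : (0 : ℚ) < m := by exact_mod_cast hm
  have hm0' : (0 : ℚ) < m' := by exact_mod_cast hm'
  have hT0 : (0 : ℚ) < T := by exact_mod_cast hT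
  have hM0 : (0 : ℚ) < 𝒟.M := by exact_mod_cast 𝒟.M_pos
  -- the value of the polynomial
  have h3 : (v (ev K t 𝒟.φ) : ℚ) = 𝒟.M * (x - v 𝒜.g) - (v (c • mono t u') : ℚ) / m := by
    linarith
  -- nonnegativity
  have hne : c • mono t u' ≠ 0 := smul_ne_zero hc (𝒱.ht.mono_ne u')
  have hhL : algebraMap K L h ≠ 0 := by simpa using hh0
  have hne2 : (algebraMap K L h ^ m)⁻¹ ≠ 0 := inv_ne_zero (pow_ne_zero _ hhL)
  have hne1 : mono t z ^ (m * m') * (c • mono t u') ^ (m' * T) ≠ 0 :=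
    mul_ne_zero (pow_ne_zero _ (𝒱.ht.mono_ne z)) (pow_ne_zero _ hne)
  have hexp : ∀ P : DVal k L, P (mono t z ^ (m * m') * (c • mono t u') ^ (m' * T) *
      (algebraMap K L h ^ m)⁻¹) = (m * m') * P (mono t z) + (m' * T) * P (c • mono t u') -
        m * P (algebraMap K L h) := by
    intro P
    rw [DVal.map_mul _ hne1 hne2, DVal.map_mul _ (pow_ne_zero _ (𝒱.ht.mono_ne z))
      (pow_ne_zero _ hne), DVal.map_pow, DVal.map_pow, DVal.map_inv, DVal.map_pow]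
    push_cast
    ring
  have h5 : 0 ≤ v (mono t z ^ (m * m') * (c • mono t u') ^ (m' * T) *
      (algebraMap K L h ^ m)⁻¹) := by
    apply ProjVar.val_nonneg hR hRv
    intro P hP hRP
    rw [hexp]
    have h6 := hterm ⟨P, hP⟩ hRP
    have h7 : (0 : ℚ) ≤ (((m * m') * P (mono t z) + (m' * T) * P (c • mono t u') -
        m * P (algebraMap K L h) : ℤ) : ℚ) := by
      push_cast
      change (P (c • mono t u') : ℚ) = _ at h6
      rw [h6]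
      rcases 𝒱.tricho P hP with hni | ⟨i, hi⟩ | ⟨j, hj⟩
      · have h8 := term_eq_zero 𝒱.stable hP hni 1 z
        rw [one_smul] at h8
        have h9 : P (algebraMap K L h) = 0 := by
          by_contra h10
          exact hni (isInv_of_algebraMap 𝒱.stable hP h10)
        rw [h8, h9, 𝒟.red.inv ⟨P, hP⟩ hni]
        simp
      · have h8 := 𝒱.hor_term i (one_ne_zero : (1 : K) ≠ 0) z
        rw [one_smul] at h8
        subst hi
        rw [h8, ipair_cast, ← hz, map_smul, smul_eq_mul, i.2.2.2 h]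
        have h9 := 𝒟.hor_D hu (i := i)
        have h10 : (0 : ℚ) ≤ m * m' * T := by positivity
        have h11 := mul_nonneg h10 h9
        push_cast
        linarith
      · have h8 := 𝒱.vert_term j (one_ne_zero : (1 : K) ≠ 0) z
        rw [one_smul, DVal.map_one, mul_zero, zero_add] at h8
        subst hj
        rw [h8, ipair_cast, ← hz, map_smul, smul_eq_mul, mult_spec]
        have hSj : S₁ ≤ (base j).1.ring := by
          intro y hy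
          have h9 := hRP (hS₁R.1 y hy)
          rw [DVal.mem_ring, mult_spec] at h9
          rw [DVal.mem_ring]
          have h10 : (0 : ℤ) < mult j := by exact_mod_cast mult_pos j
          by_contra hneg
          push Not at hneg
          have := mul_neg_of_pos_of_neg h10 hneg
          omega
        have h9 := hh (base j) hSj
        rw [Finsupp.smul_apply, smul_eq_mul, hDZ] at h9
        have h10 : (mult j : ℚ) * 𝒱.data.low (𝒱.res 𝒟.red.D) u₀ (base j) ≤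
            pairL (wvec j.1 t) u₀ + 𝒟.red.D ⟨j.1, j.2.1⟩ :=
          TData.e_mul_low_le (𝒯 := 𝒱.data) (D := 𝒱.res 𝒟.red.D) (u := u₀) (j := j) rfl
        push_cast
        rw [h9]
        have h11 : (0 : ℚ) ≤ m * m' * T := by positivity
        have h12 := mul_le_mul_of_nonneg_left h10 h11
        linarith
    exact_mod_cast h7
  rw [hexp, hvK] at h5
  have h6 : v (mono t z) = ipair w z := by
    have := hvt 1 z one_ne_zero
    rw [one_smul, DVal.map_one, mul_zero, zero_add] at this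
    exact this
  have h7 : (0 : ℚ) ≤ (((m * m') * v (mono t z) + (m' * T) * v (c • mono t u') -
      m * (e * v₀ h) : ℤ) : ℚ) := by exact_mod_cast h5
  rw [h6] at h7
  push_cast at h7
  rw [ipair_cast, ← hz, map_smul, smul_eq_mul] at h7
  have h8 : (e : ℚ) * (v₀ h / m') / T ≤ (v (c • mono t u') : ℚ) / m + pairL w u₀ := by
    rw [← sub_nonneg]
    have h9 : (v (c • mono t u') : ℚ) / m + pairL w u₀ - e * (v₀ h / m') / T =
        ((m * m') * (T * pairL w u₀) + (m' * T) * v (c • mono t u') - m * (e * v₀ h)) /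
          (m * m' * T) := by
      field_simp
      ring
    rw [h9]
    positivity
  -- the minimum
  obtain ⟨b, hb, h9⟩ := exists_gaussN (v := ZVal.ofDVal e v₀) (w := w) 𝒟.φ_ne
  refine ⟨b, 𝒟.mem_S.2 hb, ?_⟩
  have h10 : v (ev K t 𝒟.φ) = e * v₀ (𝒟.φ b) + ipair w b := by
    rw [hv, monoVal_ev 𝒱.ht _ _ hs 𝒟.φ_ne, h9]
    rfl
  rw [h10] at h3
  push_cast at h3
  rw [ipair_cast] at h3
  change (e : ℚ) * v₀ (𝒟.φ b) + pairL w (fun l => (b l : ℚ)) ≤ _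
  linarith

/-- The conditions on a system of divisors on the base. -/
structure Sys (N : ℕ) (𝔅 : Set 𝒱.Z.Div) : Prop where
  pos : 0 < N
  finite : 𝔅.Finite
  nonempty : 𝔅.Nonempty
  eff : ∀ B ∈ 𝔅, 𝒱.Z.IsInt B ∧ ∀ Q, N * 𝒜.ΔZ Q ≤ B Q
  lin : ∀ B ∈ 𝔅, ∀ B' ∈ 𝔅, ∃ ψ : K, ψ ≠ 0 ∧ B' = B + 𝒱.Z.prin ψ

/-- The adjoint system attached to a weight. -/
theorem exists_system (hQF : 𝒱.Z.IsQFactorial) {u : Fin r → ℚ} (hu : 𝒟.InQ u) :
    ∃ (N T : ℕ) (𝔅 : Set 𝒱.Z.Div), 0 < T ∧ Sys (𝒜 := 𝒜) N 𝔅 ∧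
      (∀ B ∈ 𝔅, ∃ ψ : K, ψ ≠ 0 ∧ ∀ Q, ((N : ℚ) • 𝒜.KZ + B) Q =
        T * 𝒱.data.low (𝒱.res 𝒟.red.D) u Q + Q.1 ψ) ∧
      (∀ (v₀ : DVal k K) (a : ℤ) (κ : ℚ), A v₀ a → 𝒱.Z.IsValue v₀ 𝒜.KZ κ →
        ∃ B ∈ 𝔅, ∀ c, 𝒱.Z.IsValue v₀ B c → c ≤ N * (1 + a - κ)) ∧
      (∀ (v₀ : DVal k K) (a : ℤ) (κ : ℚ), (∀ (e : ℕ) (w : Fin r → ℤ) (hs : ∃ (c : K)
          (u : Fin r → ℤ), c ≠ 0 ∧ ZVal.ofDVal e v₀ c + ipair w u = 1) (c : ℚ), 0 < e →
          𝒱.X.IsValue (monoVal 𝒱.ht (ZVal.ofDVal e v₀) w hs) (𝒜.KX + 𝒜.Δ) c →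
          c < monoVal 𝒱.ht (ZVal.ofDVal e v₀) w hs 𝒜.g + e * (a + 1)) →
        𝒱.Z.IsValue v₀ 𝒜.KZ κ →
        ∃ B ∈ 𝔅, ∀ c, 𝒱.Z.IsValue v₀ B c → c < N * (1 + a - κ)) := by
  classical
  have hVfin := verts_finite 𝒟.S u
  obtain ⟨T₀, hT₀, hTden⟩ := exists_common_den (hVfin.toFinset ×ˢ 𝒟.S) (fun x => x.1 x.2)
  obtain ⟨T₁, hT₁, z₁, hz₁⟩ := exists_int_multiple u
  -- the divisor on the base
  have hfin : {q : 𝒱.QQ | 𝒱.data.low (𝒱.res 𝒟.red.D) u q ≠ 0}.Finite := by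
    apply (((𝒱.special.union (finite_vert 𝒟.red.finite))).image base).subset
    intro q hq
    obtain ⟨j, hj, h⟩ := TData.exists_low (𝒯 := 𝒱.data) (𝒱.res 𝒟.red.D) u q
    refine ⟨j, ?_, hj⟩
    by_contra hcon
    simp only [Set.mem_union, Set.mem_ofPred_eq, not_or, not_not] at hcon
    apply hq
    have h1 : (𝒱.data.e j : ℚ) = 1 := by
      have : 𝒱.data.e j = 1 := hcon.1.2
      exact_mod_cast this
    have h2 : pairL (𝒱.data.w j) u = 0 := by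
      have : 𝒱.data.w j = 0 := hcon.1.1
      rw [this, pairL_zero]
      rfl
    have h3 : 𝒱.res 𝒟.red.D (Sum.inr j) = 0 := hcon.2
    rw [h1, h2, h3, one_mul, add_zero] at h
    exact h
  obtain ⟨T₂, hT₂, hlowden⟩ := exists_common_den hfin.toFinset
    (𝒱.data.low (𝒱.res 𝒟.red.D) u)
  set T := T₀ * (T₁ * T₂) with hTdef
  have hTp : 0 < T := Nat.mul_pos hT₀ (Nat.mul_pos hT₁ hT₂)
  have hTpos : (0 : ℚ) < T := by exact_mod_cast hTp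
  have hTint : ∀ τ ∈ verts 𝒟.S u, ∀ b ∈ 𝒟.S, ∃ n : ℤ, (T : ℚ) * τ b = n := by
    intro τ hτ b hb
    obtain ⟨z, hz⟩ := hTden (τ, b) (by simp [hτ, hb])
    refine ⟨(T₁ * T₂ : ℕ) * z, ?_⟩
    rw [hTdef]
    push_cast
    rw [← hz]
    ring
  have hz₀ : (T : ℚ) • u = fun l => (((T₀ * T₂ : ℕ) * z₁ l : ℤ) : ℚ) := by
    funext l
    have h1 : (T₁ : ℚ) * u l = z₁ l := congrFun hz₁ l
    rw [Pi.smul_apply, smul_eq_mul, hTdef]
    push_cast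
    rw [← h1]
    ring
  have hlowint : ∀ q, ∃ z : ℤ, (T : ℚ) * 𝒱.data.low (𝒱.res 𝒟.red.D) u q = z := by
    intro q
    by_cases hq : q ∈ hfin.toFinset
    · obtain ⟨z, hz⟩ := hlowden q hq
      refine ⟨(T₀ * T₁ : ℕ) * z, ?_⟩
      rw [hTdef]
      push_cast
      rw [← hz]
      ring
    · rw [Set.Finite.mem_toFinset, Set.mem_ofPred_eq, not_not] at hq
      exact ⟨0, by rw [hq]; simp⟩
  let DZ : 𝒱.Z.Div := Finsupp.onFinset hfin.toFinset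
    (fun q => T * 𝒱.data.low (𝒱.res 𝒟.red.D) u q) (by
      intro q hq
      rw [Set.Finite.mem_toFinset]
      intro h0
      apply hq
      rw [h0, mul_zero])
  have hDZ : ∀ q, DZ q = T * 𝒱.data.low (𝒱.res 𝒟.red.D) u q := fun q => rfl
  have hDZint : 𝒱.Z.IsInt DZ := fun q => hlowint q
  -- the linear system
  set Bτ : ((Fin r → ℤ) → ℚ) → 𝒱.Z.Div := fun τ =>
    DZ - ((T * 𝒟.M : ℕ) : ℚ) • 𝒜.KZ + ∑ b ∈ 𝒟.S, (T * τ b) • 𝒱.Z.prin (𝒟.φ b) with hBτ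
  have hφ0 : ∀ b ∈ 𝒟.S, 𝒟.φ b ≠ 0 := fun b hb => 𝒟.mem_S.1 hb
  have hψ : ∀ τ ∈ verts 𝒟.S u, ∃ ψ : K, ψ ≠ 0 ∧
      ∑ b ∈ 𝒟.S, (T * τ b) • 𝒱.Z.prin (𝒟.φ b) = 𝒱.Z.prin ψ := by
    intro τ hτ
    choose! n hn using hTint τ hτ
    refine ⟨∏ b ∈ 𝒟.S, 𝒟.φ b ^ n b, ?_, ?_⟩
    · rw [Finset.prod_ne_zero_iff]
      exact fun b hb => zpow_ne_zero _ (hφ0 b hb)
    · rw [𝒱.Z.prin_prod _ _ (fun b hb => zpow_ne_zero _ (hφ0 b hb))]
      refine Finset.sum_congr rfl fun b hb => ?_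
      rw [𝒱.Z.prin_zpow, hn b hb]
  -- the values of the members
  have hvalB : ∀ (v₀ : DVal k K) (d κ : ℚ), 𝒱.Z.IsValue v₀ DZ d → 𝒱.Z.IsValue v₀ 𝒜.KZ κ →
      ∀ τ, 𝒱.Z.IsValue v₀ (Bτ τ) (d - T * 𝒟.M * κ + T * ∑ b ∈ 𝒟.S, τ b * v₀ (𝒟.φ b)) := by
    intro v₀ d κ hd hκ τ
    have h1 : 𝒱.Z.IsValue v₀ (Bτ τ) (d + (-((T * 𝒟.M : ℕ) : ℚ)) * κ +
        ∑ b ∈ 𝒟.S, (T * τ b) * v₀ (𝒟.φ b)) := by
      simp only [hBτ]
      rw [sub_eq_add_neg, ← neg_smul]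
      exact (hd.add (hκ.smul _)).add (ProjVar.IsValue.sum fun b hb =>
        (ProjVar.IsValue.prin (hφ0 b hb)).smul _)
    have h2 : ∑ b ∈ 𝒟.S, (T * τ b) * (v₀ (𝒟.φ b) : ℚ) =
        T * ∑ b ∈ 𝒟.S, τ b * (v₀ (𝒟.φ b) : ℚ) := by
      rw [Finset.mul_sum]
      exact Finset.sum_congr rfl fun b _ => by ring
    rw [h2] at h1
    have h3 : d + (-((T * 𝒟.M : ℕ) : ℚ)) * κ + T * ∑ b ∈ 𝒟.S, τ b * (v₀ (𝒟.φ b) : ℚ) =
        d - T * 𝒟.M * κ + T * ∑ b ∈ 𝒟.S, τ b * v₀ (𝒟.φ b) := by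
      push_cast
      ring
    rwa [h3] at h1
  refine ⟨T * 𝒟.M, T, Bτ '' verts 𝒟.S u, hTp, ⟨Nat.mul_pos hTp 𝒟.M_pos, hVfin.image _,
    Set.Nonempty.image _ (𝒟.exists_vert hu), ?_, ?_⟩, ?_, ?_, ?_⟩
  · -- effectivity
    rintro _ ⟨τ, hτ, rfl⟩
    constructor
    · obtain ⟨ψ, hψ0, hψ1⟩ := hψ τ hτ
      simp only [hBτ]
      rw [hψ1]
      exact (hDZint.sub (𝒜.KZ_int.nsmul _)).add (𝒱.Z.isInt_prin ψ)
    · intro Q
      simp only [hBτ]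
      rw [Finsupp.add_apply, Finsupp.sub_apply, Finsupp.smul_apply, Finsupp.finsetSum_apply,
        hDZ, smul_eq_mul]
      have h1 : 𝒟.M * (𝒜.KZ Q + 𝒜.ΔZ Q) - ∑ b ∈ 𝒟.S, τ b * Q.1 (𝒟.φ b) ≤
          𝒱.data.low (𝒱.res 𝒟.red.D) u Q := by
        rw [TData.le_low_iff]
        rintro j rfl
        exact 𝒟.eff hτ j
      have h2 := mul_le_mul_of_nonneg_left h1 hTpos.le
      have h3 : ∑ b ∈ 𝒟.S, ((T * τ b) • 𝒱.Z.prin (𝒟.φ b)) Q =
          T * ∑ b ∈ 𝒟.S, τ b * Q.1 (𝒟.φ b) := by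
        rw [Finset.mul_sum]
        refine Finset.sum_congr rfl fun b _ => ?_
        rw [Finsupp.smul_apply, smul_eq_mul, ProjVar.prin_apply]
        ring
      rw [h3]
      push_cast
      linarith
  · -- linear equivalence
    rintro _ ⟨τ, hτ, rfl⟩ _ ⟨τ', hτ', rfl⟩
    obtain ⟨ψ, hψ0, hψ1⟩ := hψ τ hτ
    obtain ⟨ψ', hψ0', hψ1'⟩ := hψ τ' hτ'
    refine ⟨ψ' * ψ⁻¹, mul_ne_zero hψ0' (inv_ne_zero hψ0), ?_⟩
    simp only [hBτ]
    rw [hψ1, hψ1', 𝒱.Z.prin_mul hψ0' (inv_ne_zero hψ0), 𝒱.Z.prin_inv]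
    abel
  · -- the adjoint divisor
    rintro _ ⟨τ, hτ, rfl⟩
    obtain ⟨ψ, hψ0, hψ1⟩ := hψ τ hτ
    refine ⟨ψ, hψ0, fun Q => ?_⟩
    have h1 : ((T * 𝒟.M : ℕ) : ℚ) • 𝒜.KZ + Bτ τ = DZ + 𝒱.Z.prin ψ := by
      simp only [hBτ]
      rw [hψ1]
      abel
    rw [h1, Finsupp.add_apply, hDZ, ProjVar.prin_apply]
  · -- log canonicity
    intro v₀ a κ hA hκ
    obtain ⟨d, hd⟩ := (hQF DZ).exists_value v₀
    obtain ⟨τ, hτ, hcost⟩ := exists_vert_cost 𝒟.S 𝒟.S_nonempty u (fun b => (v₀ (𝒟.φ b) : ℚ))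
      (𝒟.M * (a + 1) - d / T) (fun w hw => 𝒟.le_hor hu w hw)
      (fun e w he hw => 𝒟.le_vert hA hu hTp hz₀ hDZ hd he hw)
    refine ⟨Bτ τ, ⟨τ, hτ, rfl⟩, fun c hc => ?_⟩
    rw [hc.unique (hvalB v₀ d κ hd hκ τ)]
    have h3 := mul_le_mul_of_nonneg_left hcost hTpos.le
    have h4 : (T : ℚ) * (𝒟.M * (a + 1) - d / T) = T * 𝒟.M * (a + 1) - d := by
      field_simp
    rw [h4] at h3
    push_cast
    linarith
  · -- the strict version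
    intro v₀ a κ hklt hκ
    obtain ⟨d, hd⟩ := (hQF DZ).exists_value v₀
    obtain ⟨τ₀, hτ₀⟩ := 𝒟.exists_vert hu
    obtain ⟨τ, hτ, y, hy⟩ := exists_opt 𝒟.S toQ (fun b => (v₀ (𝒟.φ b) : ℚ)) u
      ⟨τ₀, fun i _ => hτ₀.1 i, hτ₀.2.2.1, hτ₀.2.2.2.1⟩
    obtain ⟨e, w, he, ⟨n, α, hnα⟩, hew⟩ := exists_prim y
    have he' : (0 : ℚ) < e := by exact_mod_cast he
    obtain ⟨p, hp0, hp⟩ := v₀.exists_uniformizer
    have hs : ∃ (c : K) (u : Fin r → ℤ), c ≠ 0 ∧ ZVal.ofDVal e v₀ c + ipair w u = 1 := by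
      refine ⟨p ^ n, α, zpow_ne_zero _ hp0, ?_⟩
      change (e : ℤ) * v₀ (p ^ n) + _ = 1
      rw [DVal.map_zpow, hp, mul_one]
      linarith
    obtain ⟨x, hx⟩ := 𝒜.qc.exists_value (monoVal 𝒱.ht (ZVal.ofDVal e v₀) w hs)
    have h1 := hklt e w hs x he hx
    obtain ⟨b, hb, h2⟩ := 𝒟.vert_key hu hTp hz₀ hDZ hd he hs hx
    refine ⟨Bτ τ, ⟨τ, hτ, rfl⟩, fun c hc => ?_⟩
    rw [hc.unique (hvalB v₀ d κ hd hκ τ)]
    have hM0 : (0 : ℚ) < 𝒟.M := by exact_mod_cast 𝒟.M_pos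
    have h3 := mul_le_mul_of_nonneg_left (hy b hb) he'.le
    rw [mul_add, mul_add, hew, hew] at h3
    have h4 : (𝒟.M : ℚ) * (x - monoVal 𝒱.ht (ZVal.ofDVal e v₀) w hs 𝒜.g) <
        𝒟.M * (e * (a + 1)) := mul_lt_mul_of_pos_left (by linarith) hM0
    have h5 : (e : ℚ) * ∑ j ∈ 𝒟.S, τ j * (v₀ (𝒟.φ j) : ℚ) < e * (𝒟.M * (a + 1) - d / T) := by
      have h6 : (e : ℚ) * (𝒟.M * (a + 1) - d / T) = 𝒟.M * (e * (a + 1)) - e * d / T := by ring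
      rw [h6]
      linarith
    have h6 := lt_of_mul_lt_mul_left h5 he'.le
    have h7 := mul_lt_mul_of_pos_left h6 hTpos
    have h8 : (T : ℚ) * (𝒟.M * (a + 1) - d / T) = T * 𝒟.M * (a + 1) - d := by
      field_simp
    rw [h8] at h7
    push_cast
    linarith

end Adj.Data

end TV

end Pool.Agent.Helper92.Weak
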