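import Pool.Agent.Helper92.Sem.FromBase
import Pool.Agent.Helper92.Sem.Ample

set_option autoImplicit false
set_option linter.unusedSectionVars false

/-! Nef divisors on a variety with torus action induce nef divisors on the base. -/

namespace Pool.Agent.Helper92.Weak

/-- Finitely many positive numbers have a positive lower bound. -/
lemma exists_pos_le {ι : Type*} (s : Finset ι) (f : ι → ℚ) (hf : ∀ i ∈ s, 0 < f i) :
    ∃ ε : ℚ, 0 < ε ∧ ∀ i ∈ s, ε ≤ f i := by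
  classical
  induction s using Finset.induction_on with
  | empty => exact ⟨1, one_pos, by simp⟩
  | insert a s ha ih =>
    obtain ⟨ε, hε, h⟩ := ih fun i hi => hf i (Finset.mem_insert_of_mem hi)
    refine ⟨min ε (f a), lt_min hε (hf a (Finset.mem_insert_self a s)), fun i hi => ?_⟩
    rcases Finset.mem_insert.1 hi with rfl | hi
    · exact min_le_right _ _
    · exact (min_le_left _ _).trans (h i hi)

/-- A minimum of finitely many affine functions is affine near zero. -/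
lemma exists_slope {ι : Type*} (s : Finset ι) (hs : s.Nonempty) (f h : ι → ℚ) :
    ∃ i ∈ s, ∃ ε₁ : ℚ, 0 < ε₁ ∧ ∀ ε, 0 ≤ ε → ε ≤ ε₁ → ∀ j ∈ s, f i + ε * h i ≤ f j + ε * h j := by
  classical
  obtain ⟨i₀, hi₀, hmin₀⟩ := s.exists_min_image f hs
  obtain ⟨i, hi, hmin⟩ := (s.filter fun j => f j = f i₀).exists_min_image h
    ⟨i₀, by simp [hi₀]⟩
  rw [Finset.mem_filter] at hi
  obtain ⟨ε₁, hε₁, hle⟩ := exists_pos_le (s.filter fun j => f j ≠ f i₀)
    (fun j => (f j - f i₀) / (|h i - h j| + 1)) (by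
      intro j hj
      rw [Finset.mem_filter] at hj
      have h1 := hmin₀ j hj.1
      have h2 : f i₀ < f j := lt_of_le_of_ne h1 (Ne.symm hj.2)
      have h3 : 0 < |h i - h j| + 1 := by positivity
      exact div_pos (by linarith) h3)
  refine ⟨i, hi.1, ε₁, hε₁, fun ε hε hε' j hj => ?_⟩
  by_cases hj' : f j = f i₀
  · have h1 := hmin j (by rw [Finset.mem_filter]; exact ⟨hj, hj'⟩)
    rw [hi.2, hj']
    have h2 := mul_le_mul_of_nonneg_left h1 hε
    linarith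
  · have h1 := hle j (by rw [Finset.mem_filter]; exact ⟨hj, hj'⟩)
    have h3 : 0 < |h i - h j| + 1 := by positivity
    rw [le_div_iff₀ h3] at h1
    rw [hi.2]
    have h4 : ε * (h i - h j) ≤ ε * (|h i - h j| + 1) := by
      apply mul_le_mul_of_nonneg_left _ hε
      have := le_abs_self (h i - h j)
      linarith
    have h5 : ε * (|h i - h j| + 1) ≤ ε₁ * (|h i - h j| + 1) :=
      mul_le_mul_of_nonneg_right hε' h3.le
    linarith

variable {k K : Type*} [Field k] [Field K] [Algebra k K] {r : ℕ} {Q H J : Type*}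

/-- The divisor on the base depends linearly on small changes of the divisor. -/
lemma exists_low_slope (𝒯 : TData k K r Q H J) (D E : H ⊕ J → ℚ) (u : Fin r → ℚ) (q : Q) :
    ∃ C ε₁ : ℚ, 0 < ε₁ ∧ (∀ ε, 0 ≤ ε → ε ≤ ε₁ → 𝒯.low (D + ε • E) u q = 𝒯.low D u q + ε * C) ∧
      ∃ j, 𝒯.base j = q ∧ C = E (Sum.inr j) / 𝒯.e j := by
  have hpos : ∀ j, (0 : ℚ) < 𝒯.e j := fun j => by exact_mod_cast 𝒯.e_pos j
  obtain ⟨i, hi, ε₁, hε₁, h⟩ := exists_slope (𝒯.fiber q) (TData.fiber_nonempty q)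
    (fun j => (pairL (𝒯.w j) u + D (Sum.inr j)) / 𝒯.e j) (fun j => E (Sum.inr j) / 𝒯.e j)
  rw [TData.mem_fiber] at hi
  have h0 : 𝒯.low D u q = (pairL (𝒯.w i) u + D (Sum.inr i)) / 𝒯.e i := by
    apply le_antisymm (TData.low_le hi)
    rw [TData.le_low_iff]
    intro j hj
    have h1 := h 0 le_rfl hε₁.le j (by rwa [TData.mem_fiber])
    simp only [zero_mul, add_zero] at h1
    rw [le_div_iff₀ (hpos j)] at h1
    linarith
  refine ⟨E (Sum.inr i) / 𝒯.e i, ε₁, hε₁, fun ε hε hε' => ?_, i, hi, rfl⟩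
  rw [h0]
  apply le_antisymm
  · have h1 := TData.low_le (D := D + ε • E) (u := u) hi
    apply h1.trans_eq
    rw [Pi.add_apply, Pi.smul_apply, smul_eq_mul]
    ring
  · rw [TData.le_low_iff]
    intro j hj
    have h1 := h ε hε hε' j (by rwa [TData.mem_fiber])
    rw [Pi.add_apply, Pi.smul_apply, smul_eq_mul]
    have h2 : (pairL (𝒯.w j) u + D (Sum.inr j)) / 𝒯.e j + ε * (E (Sum.inr j) / 𝒯.e j) =
        (pairL (𝒯.w j) u + (D (Sum.inr j) + ε * E (Sum.inr j))) / 𝒯.e j := by ring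
    rw [h2, le_div_iff₀ (hpos j)] at h1
    linarith

namespace TV

variable {L : Type*} [Field L] [Algebra k L] [Algebra K L]
  [IsScalarTower k K L] {t : Fin r → L} {𝒱 : TV k K t} [IsAlgClosed k] [CharZero k]

/-- A nef divisor induces nef divisors on the base. -/
theorem nef_low (hQF : 𝒱.Z.IsQFactorial) {D H : 𝒱.X.primeDivisors → ℚ} (hDinv : 𝒱.InvDiv D)
    (hHinv : 𝒱.InvDiv H) (hD : {P | D P ≠ 0}.Finite) (hH : {P | H P ≠ 0}.Finite)
    (hH0 : ∀ P, 0 ≤ H P) (h : ∀ ε : ℚ, 0 < ε → 𝒱.X.PSemi (D + ε • H)) {u : Fin r → ℚ}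
    (hu : InP 𝒱.data (𝒱.res D) u) {HZ : 𝒱.Z.Div} (hHZ : 𝒱.Z.IsHyp HZ) {δ : ℚ} (hδ : 0 < δ) :
    𝒱.Z.PSemi (fun Q => 𝒱.data.low (𝒱.res D) u Q + δ * HZ Q) := by
  classical
  choose C ε₁ hε₁ hlin hC using exists_low_slope 𝒱.data (𝒱.res D) (𝒱.res H) u
  -- the divisor `C`
  have hJ : (TV.base '' {j : 𝒱.JJ | H ⟨j.1, j.2.1⟩ ≠ 0}).Finite := (finite_vert hH).image _
  have hC0 : ∀ q ∉ TV.base '' {j : 𝒱.JJ | H ⟨j.1, j.2.1⟩ ≠ 0}, C q = 0 := by
    intro q hq
    obtain ⟨j, hj, hCj⟩ := hC q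
    rw [hCj]
    have h1 : H ⟨j.1, j.2.1⟩ = 0 := by
      by_contra hne
      exact hq ⟨j, hne, hj⟩
    change H ⟨j.1, j.2.1⟩ / _ = 0
    rw [h1, zero_div]
  let CZ : 𝒱.Z.Div := Finsupp.onFinset hJ.toFinset C (by
    intro q hq
    rw [Set.Finite.mem_toFinset]
    by_contra hne
    exact hq (hC0 q hne))
  have hCZ : ∀ q, CZ q = C q := fun q => rfl
  obtain ⟨ε₀, hε₀, hle⟩ := exists_pos_le hJ.toFinset ε₁ (fun q _ => hε₁ q)
  have hlow : ∀ ε, 0 ≤ ε → ε ≤ ε₀ → ∀ q, 𝒱.data.low (𝒱.res (D + ε • H)) u q =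
      𝒱.data.low (𝒱.res D) u q + ε * C q := by
    intro ε hε hε' q
    rw [res_add, res_smul]
    by_cases hq : q ∈ TV.base '' {j : 𝒱.JJ | H ⟨j.1, j.2.1⟩ ≠ 0}
    · exact hlin q ε hε (hε'.trans (hle q (by rwa [Set.Finite.mem_toFinset])))
    · rw [hC0 q hq, mul_zero, add_zero]
      have hz : ∀ j : 𝒱.JJ, base j = q → H ⟨j.1, j.2.1⟩ = 0 := by
        intro j hj
        by_contra hne
        exact hq ⟨j, hne, hj⟩
      apply le_antisymm
      · rw [TData.le_low_iff]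
        intro j hj
        have h1 := TData.e_mul_low_le (D := 𝒱.res D + ε • 𝒱.res H) (u := u) hj
        have h2 : (𝒱.res D + ε • 𝒱.res H) (Sum.inr j) = 𝒱.res D (Sum.inr j) := by
          change D _ + ε * H _ = D _
          rw [hz j hj, mul_zero, add_zero]
        rwa [h2] at h1
      · rw [TData.le_low_iff]
        intro j hj
        have h1 := TData.e_mul_low_le (D := 𝒱.res D) (u := u) hj
        have h2 : (𝒱.res D + ε • 𝒱.res H) (Sum.inr j) = 𝒱.res D (Sum.inr j) := by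
          change D _ + ε * H _ = D _
          rw [hz j hj, mul_zero, add_zero]
        rwa [h2]
  intro S hS
  obtain ⟨ε, hε, hε', m, s, hm, hs⟩ := hHZ.ample_rat (hQF CZ) hS hδ hε₀
  have h1 : 𝒱.Z.PSemi (𝒱.data.low (𝒱.res (D + ε • H)) u) := by
    apply psemi_low hQF (D := D + ε • H) _ _ (h ε hε)
    · intro i
      have h2 := hu i
      have h3 : 0 ≤ ε * H ⟨i.1, i.2.1⟩ := mul_nonneg hε.le (hH0 _)
      change 0 ≤ pairL (wvec i.1 t) u + (D ⟨i.1, i.2.1⟩ + ε * H ⟨i.1, i.2.1⟩)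
      change 0 ≤ pairL (wvec i.1 t) u + D ⟨i.1, i.2.1⟩ at h2
      linarith
    · intro P hP
      rw [Pi.add_apply, Pi.smul_apply, hDinv P hP, hHinv P hP, smul_zero, add_zero]
    · apply (hD.union hH).subset
      intro P hP
      by_contra hcon
      simp only [Set.mem_union, Set.mem_ofPred_eq, not_or, not_not] at hcon
      apply hP
      rw [Pi.add_apply, Pi.smul_apply, hcon.1, hcon.2, smul_zero, add_zero]
  obtain ⟨m', g, hm', hg⟩ := h1 S hS
  have h2 := (hg.pow m).mul (show 𝒱.Z.Gens _ (m' * m) _ S by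
    rw [mul_comm m' m]
    exact hs.pow m')
  have h3 : (𝒱.data.low (𝒱.res (D + ε • H)) u) + (fun P => δ * HZ P - ε * CZ P) =
      fun Q => 𝒱.data.low (𝒱.res D) u Q + δ * HZ Q := by
    funext Q
    rw [Pi.add_apply, hlow ε hε.le hε' Q, hCZ]
    ring
  rw [h3] at h2
  exact ⟨_, _, Nat.mul_pos hm' hm, h2⟩

end TV

end Pool.Agent.Helper92.Weak
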