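import Pool.Agent.Helper92.Weak.LP

set_option autoImplicit false

/-! Optimal solutions of linear programs. -/

namespace Pool.Agent.Helper92.Weak

variable {E : Type*} [AddCommGroup E] [Module ℚ E]

/-- The vertices of the set of convex combinations. -/
def vset {ι : Type*} (s : Finset ι) (x : ι → E) (u : E) : Set (ι → ℚ) :=
  {t : ι → ℚ | (∀ i, 0 ≤ t i) ∧ (∀ i ∉ s, t i = 0) ∧ ∑ i ∈ s, t i = 1 ∧
      ∑ i ∈ s, t i • x i = u ∧
      ∀ μ : ι → ℚ, (∀ i, t i = 0 → μ i = 0) → ∑ i ∈ s, μ i = 0 → ∑ i ∈ s, μ i • x i = 0 →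
        μ = 0}

lemma vset_finite {ι : Type*} (s : Finset ι) (x : ι → E) (u : E) : (vset s x u).Finite :=
  finite_vertices s x u

/-- There is an optimal vertex, together with an optimal solution of the dual program. -/
theorem exists_opt {ι : Type*} (s : Finset ι) (x : ι → E) (c : ι → ℚ) (u : E)
    (h : ∃ t : ι → ℚ, (∀ i ∈ s, 0 ≤ t i) ∧ ∑ i ∈ s, t i = 1 ∧ ∑ i ∈ s, t i • x i = u) :
    ∃ t ∈ vset s x u, ∃ y : E →ₗ[ℚ] ℚ, ∀ i ∈ s, y u + ∑ j ∈ s, t j * c j ≤ y (x i) + c i := by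
  classical
  have hind : ∀ t : ι → ℚ, (∀ i ∈ s, 0 ≤ t i) → ∑ i ∈ s, t i = 1 → ∑ i ∈ s, t i • x i = u →
      ∃ t' ∈ vset s x u, ∑ i ∈ s, t' i * c i ≤ ∑ i ∈ s, t i * c i := by
    intro t h1 h2 h3
    obtain ⟨t', g1, g2, g3, g4, g5, g6⟩ :=
      exists_indep_support s x c u (∑ i ∈ s, t i * c i) ⟨t, h1, h2, h3, le_rfl⟩
    exact ⟨t', ⟨g1, g2, g3, g4, g6⟩, g5⟩
  obtain ⟨t₀, h1, h2, h3⟩ := h
  obtain ⟨t₁, ht₁, -⟩ := hind t₀ h1 h2 h3
  obtain ⟨t, ht, hmin⟩ := Set.exists_min_image (vset s x u) (fun t => ∑ i ∈ s, t i * c i)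
    (vset_finite s x u) ⟨t₁, ht₁⟩
  refine ⟨t, ht, ?_⟩
  set C := ∑ i ∈ s, t i * c i with hC
  rcases farkas s (fun i => ((x i - u, c i - C) : E × ℚ)) (0, -1) with ⟨μ, hμ, hb⟩ | ⟨y, hy, hyb⟩
  · exfalso
    have hb1 : ∑ i ∈ s, μ i • (x i - u) = 0 := by
      have := congrArg Prod.fst hb
      rw [Prod.fst_sum] at this
      exact this.symm
    have hb2 : ∑ i ∈ s, μ i * (c i - C) = -1 := by
      have := congrArg Prod.snd hb
      rw [Prod.snd_sum] at this
      exact this.symm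
    have hM0 : 0 ≤ ∑ i ∈ s, μ i := Finset.sum_nonneg hμ
    have hM : 0 < ∑ i ∈ s, μ i := by
      rcases hM0.eq_or_lt with h0 | h0
      · exfalso
        have h4 := (Finset.sum_eq_zero_iff_of_nonneg hμ).1 h0.symm
        rw [Finset.sum_eq_zero (fun i hi => by rw [h4 i hi, zero_mul])] at hb2
        norm_num at hb2
      · exact h0
    set M := ∑ i ∈ s, μ i with hMdef
    obtain ⟨t', ht', hle⟩ := hind (fun i => μ i / M) (fun i hi => div_nonneg (hμ i hi) hM0)
      (by rw [← Finset.sum_div, div_self hM.ne']) (by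
        have h4 : ∑ i ∈ s, μ i • x i = M • u := by
          have h5 : ∑ i ∈ s, μ i • (x i - u) = ∑ i ∈ s, μ i • x i - M • u := by
            rw [hMdef, Finset.sum_smul, ← Finset.sum_sub_distrib]
            exact Finset.sum_congr rfl fun i _ => smul_sub _ _ _
          rw [h5] at hb1
          exact sub_eq_zero.1 hb1
        have h6 : ∑ i ∈ s, (μ i / M) • x i = M⁻¹ • ∑ i ∈ s, μ i • x i := by
          rw [Finset.smul_sum]
          refine Finset.sum_congr rfl fun i _ => ?_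
          rw [smul_smul]
          congr 1
          field_simp
        rw [h6, h4, smul_smul, inv_mul_cancel₀ hM.ne', one_smul])
    have h4 := hmin t' ht'
    change C ≤ _ at h4
    have h5 : ∑ i ∈ s, μ i / M * c i = C - 1 / M := by
      have h6 : ∑ i ∈ s, μ i * c i = M * C - 1 := by
        have h7 : ∑ i ∈ s, μ i * (c i - C) = ∑ i ∈ s, μ i * c i - M * C := by
          rw [hMdef, Finset.sum_mul, ← Finset.sum_sub_distrib]
          exact Finset.sum_congr rfl fun i _ => mul_sub _ _ _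
        rw [h7] at hb2
        linarith
      have h8 : ∑ i ∈ s, μ i / M * c i = M⁻¹ * ∑ i ∈ s, μ i * c i := by
        rw [Finset.mul_sum]
        exact Finset.sum_congr rfl fun i _ => by field_simp
      rw [h8, h6]
      field_simp
    rw [h5] at hle
    have h6 : 0 < 1 / M := by positivity
    linarith
  · have hl : 0 < y (0, 1) := by
      have h4 : ((0, -1) : E × ℚ) = -(0, 1) := by simp
      rw [h4, map_neg] at hyb
      linarith
    have e : ∀ (z : E) (r : ℚ), y (z, r) = y (z, 0) + r * y (0, 1) := by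
      intro z r
      have : ((z, r) : E × ℚ) = (z, 0) + r • (0, 1) := by simp
      rw [this, map_add, map_smul, smul_eq_mul]
    refine ⟨(y (0, 1))⁻¹ • y.comp (LinearMap.inl ℚ E ℚ), fun i hi => ?_⟩
    have h4 := hy i hi
    have h5 : y (x i - u, c i - C) = y (x i, 0) - y (u, 0) + (c i - C) * y (0, 1) := by
      rw [e]
      have : ((x i - u, 0) : E × ℚ) = (x i, 0) - (u, 0) := by simp
      rw [this, map_sub]
    rw [h5] at h4
    simp only [LinearMap.smul_apply, LinearMap.comp_apply, LinearMap.inl_apply, smul_eq_mul]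
    have h6 : (y (0, 1))⁻¹ * y (x i, 0) + c i - ((y (0, 1))⁻¹ * y (u, 0) + C) =
        (y (0, 1))⁻¹ * (y (x i, 0) - y (u, 0) + (c i - C) * y (0, 1)) := by
      field_simp
      ring
    have h7 := mul_nonneg (inv_nonneg.2 hl.le) h4
    rw [← h6] at h7
    linarith

/-- A linear functional gives a primitive integral vector. -/
lemma exists_prim {r : ℕ} (y : (Fin r → ℚ) →ₗ[ℚ] ℚ) : ∃ (e : ℕ) (w : Fin r → ℤ), 0 < e ∧
    (∃ (n : ℤ) (a : Fin r → ℤ), n * e + ipair w a = 1) ∧ ∀ x, (e : ℚ) * y x = pairL w x := by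
  obtain ⟨n, z, hn, hz⟩ := exists_pairL y
  have hn' : (n : ℤ) ≠ 0 := by exact_mod_cast hn.ne'
  obtain ⟨g, e', w', a, u', hg, he', hw', h1⟩ := exists_primitive (n : ℤ) z (Or.inl hn')
  have hg' : (0 : ℚ) < g := by exact_mod_cast hg
  have he0 : 0 < e' := by
    by_contra hneg
    push Not at hneg
    have h2 : (n : ℤ) ≤ 0 := by
      rw [he']
      exact mul_nonpos_of_nonneg_of_nonpos hg.le hneg
    omega
  obtain ⟨e, he⟩ := Int.eq_ofNat_of_zero_le he0.le
  refine ⟨e, w', ?_, ⟨a, u', ?_⟩, fun x => ?_⟩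
  · rw [he] at he0
    exact_mod_cast he0
  · rw [← he]
    exact h1
  · have h3 : pairL z x = g * pairL w' x := by
      rw [pairL_apply, pairL_apply, Finset.mul_sum]
      refine Finset.sum_congr rfl fun l _ => ?_
      rw [hw' l]
      push_cast
      ring
    have h4 := hz x
    rw [h3] at h4
    have h5 : (n : ℚ) = g * e := by
      rw [he] at he'
      exact_mod_cast he'
    rw [h5, mul_assoc] at h4
    exact mul_left_cancel₀ hg'.ne' h4

end Pool.Agent.Helper92.Weak
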