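import Pool.Agent.Helper92.Sem.Defs

set_option autoImplicit false

/-!
# Definitions: systems on the quotient
-/

namespace Pool.Agent.Helper92.Weak

variable {k K L : Type*} [Field k] [Field K] [Field L] [Algebra k K] [Algebra k L]

/-- The divisor `N K + B`. -/
noncomputable def ProjVar.Pair.adj {Z : ProjVar k K} {n : ℕ} (q : Z.Pair n) (N : ℕ) (B : Z.Div) :
    Z.Div := (N : ℚ) • q.can + B

/-- The system `(N, 𝔅)` on `Z` consists of a number `N > 0` and a finite nonempty set `𝔅` of
linearly equivalent integral divisors `B ≥ N Δ_Z`, such that `(Z, (1/N) 𝔅)` is log canonical, and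
klt if the pair `p` on `X` is klt, and `N K_Z + B` is nef for all `B` in `𝔅` if `K_X + Δ` is
nef. -/
structure IsInherited {X : ProjVar k L} {Z : ProjVar k K} {m n : ℕ} (p : X.Pair m) (q : Z.Pair n)
    (s : ℕ × Set Z.Div) : Prop where
  lc : q.LCSystem s.1 s.2
  klt : p.KLT → q.IsKLTSystem s.1 s.2
  nef : X.IsNef p.logDiv → ∀ B ∈ s.2, Z.IsNef (q.adj s.1 B)

end Pool.Agent.Helper92.Weak
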