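import Pool.Agent.Helper92.Sem.Geom2
import Pool.Agent.Helper92.Sem.Final
import Pool.Agent.Helper92.Ga.Main2
import Pool.Agent.Helper92.Sem.RedDefs

set_option autoImplicit false
set_option linter.unusedSectionVars false

/-! Reduction of weak abundance to finitely many systems on the quotient. -/

namespace Pool.Agent.Helper92.Weak

open scoped KaehlerDifferential
open Module

/-- A divisor with nonnegative Kodaira dimension has a section. -/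
lemma ProjVar.exists_of_kod {k L : Type*} [Field k] [Field L] [Algebra k L] {X : ProjVar k L}
    {D : X.Div} (h : X.kod D ≠ ⊥) : ∃ m : ℕ, 0 < m ∧ ∃ f : L, f ≠ 0 ∧
      ∀ P : X.primeDivisors, 0 ≤ (P.1 f : ℚ) + m * D P := by
  have hne : ¬ ∀ m : ℕ, 1 ≤ m → X.h0 ((m : ℚ) • D) = 0 := by
    intro h0
    apply h
    unfold ProjVar.kod kodDim
    rw [if_pos h0]
  push Not at hne
  obtain ⟨m, hm, hm2⟩ := hne
  have h5 : sdim (X.H0 ((m : ℚ) • D)) ≠ 0 := by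
    intro h0
    have := X.h0_le ((m : ℚ) • D)
    rw [h0] at this
    exact hm2 (le_antisymm this zero_le)
  rw [sdim_ne_zero] at h5
  obtain ⟨f, hf, hf0⟩ := h5
  refine ⟨m, hm, f, hf0, fun P => ?_⟩
  unfold ProjVar.H0 at hf
  rw [mem_sec_of_ne hf0] at hf
  have h6 := hf P
  rwa [Finsupp.smul_apply, smul_eq_mul] at h6

section

variable {k K L : Type*} [Field k] [Field K] [Field L] [Algebra k K] [Algebra k L] [Algebra K L]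
  [IsScalarTower k K L] {r : ℕ} {t : Fin r → L} [IsAlgClosed k] [CharZero k]

/-- The reduction theorem, for adjoint divisors. -/
theorem TV.adj_reduction {𝒱 : TV k K t} {A : DVal k K → ℤ → Prop} (𝒜 : 𝒱.Adj A)
    (hQF : 𝒱.Z.IsQFactorial) :
    (𝒱.X.genKod K (𝒜.KX + 𝒜.Δ) = ⊥ ∧ 𝒱.X.kod (𝒜.KX + 𝒜.Δ) = ⊥ ∧ 𝒱.X.nu (𝒜.KX + 𝒜.Δ) = ⊥) ∨
    ∃ (𝒮 : Set (ℕ × Set 𝒱.Z.Div)) (s₀ : ℕ × Set 𝒱.Z.Div), 𝒮.Finite ∧ s₀ ∈ 𝒮 ∧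
      (∀ s ∈ 𝒮, Adj.Data.Sys (𝒜 := 𝒜) s.1 s.2 ∧
        (𝒱.X.IsNef (𝒜.KX + 𝒜.Δ) → ∀ B ∈ s.2, 𝒱.Z.IsNef ((s.1 : ℚ) • 𝒜.KZ + B)) ∧
        (∀ (v₀ : DVal k K) (a : ℤ) (κ : ℚ), A v₀ a → 𝒱.Z.IsValue v₀ 𝒜.KZ κ →
          ∃ B ∈ s.2, ∀ c, 𝒱.Z.IsValue v₀ B c → c ≤ s.1 * (1 + a - κ)) ∧
        (∀ (v₀ : DVal k K) (a : ℤ) (κ : ℚ), (∀ (e : ℕ) (w : Fin r → ℤ) (hs : ∃ (c : K)
          (u : Fin r → ℤ), c ≠ 0 ∧ ZVal.ofDVal e v₀ c + ipair w u = 1) (c : ℚ), 0 < e →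
          𝒱.X.IsValue (monoVal 𝒱.ht (ZVal.ofDVal e v₀) w hs) (𝒜.KX + 𝒜.Δ) c →
          c < monoVal 𝒱.ht (ZVal.ofDVal e v₀) w hs 𝒜.g + e * (a + 1)) →
          𝒱.Z.IsValue v₀ 𝒜.KZ κ →
          ∃ B ∈ s.2, ∀ c, 𝒱.Z.IsValue v₀ B c → c < s.1 * (1 + a - κ))) ∧
      ((∀ s ∈ 𝒮, ∀ B ∈ s.2, 𝒱.Z.kod ((s.1 : ℚ) • 𝒜.KZ + B) ≠ ⊥) →
        ∃ s : ℕ, s ≤ r ∧ 𝒱.X.genKod K (𝒜.KX + 𝒜.Δ) = s ∧ ∀ B ∈ s₀.2,
          𝒱.X.kod (𝒜.KX + 𝒜.Δ) = s + 𝒱.Z.kod ((s₀.1 : ℚ) • 𝒜.KZ + B) ∧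
          𝒱.X.nu (𝒜.KX + 𝒜.Δ) = s + 𝒱.Z.nu ((s₀.1 : ℚ) • 𝒜.KZ + B)) := by
  classical
  have : Finite 𝒱.HH := 𝒱.hor_finite
  let _ : Fintype 𝒱.HH := Fintype.ofFinite _
  obtain ⟨𝒟⟩ := 𝒜.exists_data
  have hM0 : (0 : ℚ) < 𝒟.M := by exact_mod_cast 𝒟.M_pos
  by_cases hP : ∃ u, InP 𝒱.data (𝒱.res 𝒟.red.D) u
  swap
  · exact Or.inl ⟨genKod_empty 𝒟.red hP, empty_case 𝒟.red hP⟩
  right
  obtain ⟨u₀, hu₀, hG⟩ := exists_geom' 𝒱.data (𝒱.res 𝒟.red.D) 𝒟.red.finite' hP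
  set V := vtx (fun i => pairL (𝒱.data.ρ i)) (fun i => 𝒱.res 𝒟.red.D (Sum.inl i)) with hV
  have hVfin : V.Finite := vtx_finite _ _
  set 𝒰 : Set (Fin r → ℚ) := insert u₀ V with h𝒰
  have h𝒰fin : 𝒰.Finite := hVfin.insert u₀
  have h𝒰P : ∀ u ∈ 𝒰, InP 𝒱.data (𝒱.res 𝒟.red.D) u := by
    rintro u (rfl | hu)
    · exact hu₀
    · exact hu.1
  -- the systems
  have hsys : ∀ u ∈ 𝒰, ∃ s : ℕ × Set 𝒱.Z.Div, ∃ T : ℕ, 0 < T ∧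
      Adj.Data.Sys (𝒜 := 𝒜) s.1 s.2 ∧
      (∀ B ∈ s.2, ∃ ψ : K, ψ ≠ 0 ∧ ∀ Q, ((s.1 : ℚ) • 𝒜.KZ + B) Q =
        T * 𝒱.data.low (𝒱.res 𝒟.red.D) u Q + Q.1 ψ) ∧
      (∀ (v₀ : DVal k K) (a : ℤ) (κ : ℚ), A v₀ a → 𝒱.Z.IsValue v₀ 𝒜.KZ κ →
        ∃ B ∈ s.2, ∀ c, 𝒱.Z.IsValue v₀ B c → c ≤ s.1 * (1 + a - κ)) ∧
      (∀ (v₀ : DVal k K) (a : ℤ) (κ : ℚ), (∀ (e : ℕ) (w : Fin r → ℤ) (hs : ∃ (c : K)
          (u : Fin r → ℤ), c ≠ 0 ∧ ZVal.ofDVal e v₀ c + ipair w u = 1) (c : ℚ), 0 < e →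
          𝒱.X.IsValue (monoVal 𝒱.ht (ZVal.ofDVal e v₀) w hs) (𝒜.KX + 𝒜.Δ) c →
          c < monoVal 𝒱.ht (ZVal.ofDVal e v₀) w hs 𝒜.g + e * (a + 1)) →
        𝒱.Z.IsValue v₀ 𝒜.KZ κ →
        ∃ B ∈ s.2, ∀ c, 𝒱.Z.IsValue v₀ B c → c < s.1 * (1 + a - κ)) := by
    intro u hu
    obtain ⟨N, T, 𝔅, hT, h1, h2, h3, h4⟩ := 𝒟.exists_system hQF (h𝒰P u hu)
    exact ⟨(N, 𝔅), T, hT, h1, h2, h3, h4⟩
  choose! s T hT hS hlin hlc hklt using hsys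
  have hu₀𝒰 : u₀ ∈ 𝒰 := Set.mem_insert _ _
  refine ⟨s '' 𝒰, s u₀, h𝒰fin.image _, ⟨u₀, hu₀𝒰, rfl⟩, ?_, ?_⟩
  · rintro _ ⟨u, hu, rfl⟩
    refine ⟨hS u hu, ?_, hlc u hu, hklt u hu⟩
    rintro ⟨H, hH, hε⟩ B hB
    obtain ⟨ψ, hψ0, hHinv, hH0⟩ := TV.exists_inv_hyp hH
    obtain ⟨HZ, hHZ⟩ := 𝒱.Z.exists_hyp
    have hDE : ∀ P, 𝒟.red.D P = 𝒟.M * (𝒜.KX + 𝒜.Δ) P - P.1 𝒟.red.G := fun P => 𝒟.red.D_eq P
    have hHfin : {P : 𝒱.X.primeDivisors | H P + (P.1 ψ : ℚ) ≠ 0}.Finite := by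
      apply ((H.hasFiniteSupport).union (𝒱.X.finite_prin ψ)).subset
      intro P hP
      by_contra hcon
      simp only [Set.mem_union, Function.mem_support, Set.mem_ofPred_eq, not_or, not_not] at hcon
      apply hP
      rw [hcon.1, hcon.2, add_zero]
    have hnefD : ∀ ε : ℚ, 0 < ε →
        𝒱.X.PSemi (𝒟.red.D + ε • fun P => H P + (P.1 ψ : ℚ)) := by
      intro ε hε0
      have h1 := (ProjVar.isSemiample_iff _).1 (hε (ε / 𝒟.M) (by positivity))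
      have h2 := ((h1.smul hM0.le).add_prin 𝒟.red.G_ne (-1)).add_prin hψ0 ε
      apply h2.congr
      intro P
      simp only [Pi.add_apply, Pi.smul_apply, hDE, Finsupp.add_apply, Finsupp.smul_apply,
        smul_eq_mul]
      field_simp
      ring
    refine ⟨HZ, hHZ, fun ε hε0 => ?_⟩
    obtain ⟨ψ', hψ', hQ⟩ := hlin u hu B hB
    have hT0 : (0 : ℚ) < T u := by exact_mod_cast hT u hu
    rw [ProjVar.isSemiample_iff]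
    have h1 := TV.nef_low hQF 𝒟.red.inv hHinv 𝒟.red.finite hHfin hH0 hnefD (h𝒰P u hu) hHZ
      (δ := ε / T u) (by positivity)
    apply ((h1.smul hT0.le).add_prin hψ' 1).congr
    intro Q
    rw [Pi.smul_apply, Finsupp.add_apply, Finsupp.smul_apply, hQ]
    simp only [smul_eq_mul]
    field_simp
    ring
  · intro hκ
    -- sections
    have hsec : ∀ u ∈ 𝒰, ∃ m : ℕ, 0 < m ∧ ∃ g : K, g ≠ 0 ∧ ∀ Q : 𝒱.Z.primeDivisors,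
        0 ≤ (Q.1 g : ℚ) + m * (T u * 𝒱.data.low (𝒱.res 𝒟.red.D) u Q) := by
      intro u hu
      obtain ⟨B, hB⟩ := (hS u hu).nonempty
      obtain ⟨m, hm, f, hf0, hf⟩ := ProjVar.exists_of_kod (hκ (s u) ⟨u, hu, rfl⟩ B hB)
      obtain ⟨ψ, hψ, hQ⟩ := hlin u hu B hB
      refine ⟨m, hm, f * ψ ^ m, mul_ne_zero hf0 (pow_ne_zero _ hψ), fun Q => ?_⟩
      have h1 := hf Q
      rw [hQ] at h1
      rw [DVal.map_mul _ hf0 (pow_ne_zero _ hψ), DVal.map_pow]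
      push_cast
      linarith
    have hEff : ∀ u, InP 𝒱.data (𝒱.res 𝒟.red.D) u → ∃ T : ℕ, 0 < T ∧ ∃ g : K, g ≠ 0 ∧
        g ∈ 𝒱.data.wt ((T : ℚ) • 𝒱.res 𝒟.red.D) ((T : ℚ) • u) := by
      apply eff_of_vtx
      intro u hu
      have hu' : u ∈ 𝒰 := Or.inr hu
      obtain ⟨m, hm, g, hg0, hg⟩ := hsec u hu'
      refine ⟨m * T u, Nat.mul_pos hm (hT u hu'), g, hg0, ?_⟩
      rw [TData.wt_eq, mem_sec_of_ne hg0]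
      · intro Q
        rw [TData.low_smul (by positivity)]
        have h1 := hg Q
        push_cast
        rw [mul_assoc]
        exact h1
      · intro i
        have h1 := mul_nonneg (by positivity : (0 : ℚ) ≤ ((m * T u : ℕ) : ℚ)) (h𝒰P u hu' i)
        rw [map_smul, Pi.smul_apply, smul_eq_mul, smul_eq_mul]
        linarith
    obtain ⟨m, hm, g, hg0, hg⟩ := hsec u₀ hu₀𝒰
    have hT₀ := hT u₀ hu₀𝒰
    obtain ⟨𝒢, h𝒢u, hdvd⟩ := hG hEff (T u₀ * m) (Nat.mul_pos hT₀ hm)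
    refine ⟨𝒢.s, ?_, genKod_eq 𝒟.red 𝒢, ?_⟩
    · have h1 := Module.finrank_eq_card_basis 𝒢.b
      rw [Module.finrank_fin_fun, Fintype.card_sum, Fintype.card_fin, Fintype.card_fin] at h1
      omega
    intro B hB
    obtain ⟨ψ, hψ, hQ⟩ := hlin u₀ hu₀𝒰 B hB
    -- the divisor on the base
    have hfin := G₀_finite (𝒱 := 𝒱) 𝒟.red.finite' 𝒢
    let DZ : 𝒱.Z.Div := Finsupp.onFinset hfin.toFinset 𝒢.G₀ (by
      intro q hq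
      rw [Set.Finite.mem_toFinset]
      exact hq)
    have hDZ : ∀ q, DZ q = 𝒢.G₀ q := fun q => rfl
    have hDZ' : ∀ q, DZ q = 𝒢.T * 𝒱.data.low (𝒱.res 𝒟.red.D) u₀ q := by
      intro q
      rw [hDZ, ← h𝒢u]
      rfl
    have hDZint : 𝒱.Z.IsInt DZ := fun q => 𝒢.int_low q
    obtain ⟨c, hc⟩ := hdvd
    have hc0 : 0 < c := by
      rcases Nat.eq_zero_or_pos c with h | h
      · rw [h, mul_zero] at hc
        have := 𝒢.T_pos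
        omega
      · exact h
    set D₀ : 𝒱.Z.Div := (s u₀).1 • 𝒜.KZ + B - 𝒱.Z.prin ψ with hD₀
    have hD₀Q : ∀ Q, D₀ Q = T u₀ * 𝒱.data.low (𝒱.res 𝒟.red.D) u₀ Q := by
      intro Q
      have h1 := hQ Q
      rw [hD₀, Finsupp.sub_apply, ProjVar.prin_apply, ← Nat.cast_smul_eq_nsmul ℚ, h1]
      ring
    have hcomp := Ga.kod_nu_eps (Z := 𝒱.Z) (T := D₀) (B := 0) (DZ := DZ) (N := m * c) (N₃ := m)
      (Nat.mul_pos hm hc0) hm (by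
        intro Q
        rw [hDZ', hD₀Q, hc, Finsupp.zero_apply, add_zero]
        push_cast
        ring) (fun Q => le_rfl) hDZint hg0 (by
        intro Q
        rw [hD₀Q]
        exact hg Q) (Dvd.intro _ rfl) (ε := 1) one_pos
    have hDB : (((s u₀).1 : ℕ) : ℚ) • 𝒜.KZ + B = (D₀ + (1 : ℚ) • 0) + 𝒱.Z.prin ψ := by
      rw [hD₀, smul_zero, add_zero, sub_add_cancel, Nat.cast_smul_eq_nsmul]
    rw [hDB, ProjVar.kod_add_prin _ hψ, ProjVar.nu_add_prin _ hψ, hcomp.kod_eq, hcomp.nu_eq]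
    have h1 := kod_eq 𝒟.red 𝒢 DZ hDZ hDZint
    have h2 := nu_eq 𝒟.red 𝒢 DZ hDZ hDZint
    rw [Nat.cast_zero, zero_add, zero_add]
    exact ⟨h1, h2⟩

/-- The reduction theorem, in terms of pairs. -/
theorem torus_reduction_pair {d : ℕ} (hd : Algebra.trdeg k K = d) (Z : ProjVar k K)
    (X : ProjVar k L) (hZ : Z.IsQFactorial) (h : IsTorusQuotient t X Z) (p : X.Pair (d + r))
    (hlc : p.LC) (q : Z.Pair d) (hq : IsOrbifoldBase p q) :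
    (X.genKod K p.logDiv = ⊥ ∧ X.kod p.logDiv = ⊥ ∧ X.nu p.logDiv = ⊥) ∨
    ∃ (𝒮 : Set (ℕ × Set Z.Div)) (s₀ : ℕ × Set Z.Div), 𝒮.Finite ∧ s₀ ∈ 𝒮 ∧
      (∀ s ∈ 𝒮, q.LCSystem s.1 s.2 ∧ (p.KLT → q.IsKLTSystem s.1 s.2) ∧
        (X.IsNef p.logDiv → ∀ B ∈ s.2, Z.IsNef ((s.1 : ℚ) • q.can + B))) ∧
      ((∀ s ∈ 𝒮, ∀ B ∈ s.2, Z.kod ((s.1 : ℚ) • q.can + B) ≠ ⊥) →
        ∃ s : ℕ, s ≤ r ∧ X.genKod K p.logDiv = s ∧ ∀ B ∈ s₀.2,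
          X.kod p.logDiv = s + Z.kod ((s₀.1 : ℚ) • q.can + B) ∧
          X.nu p.logDiv = s + Z.nu ((s₀.1 : ℚ) • q.can + B)) := by
  obtain ⟨y, hy⟩ := exists_basis_of_trdeg hd
  have ht : IsTorus K t := ⟨h.indep, h.gen⟩
  obtain ⟨b, hb⟩ := Pool.Agent.Helper50.Forms.exists_kaehler_basis hy
  obtain ⟨B, hB, -, -⟩ := Pool.Agent.Helper50.Forms.exists_basis_tower hy t h.indep h.gen y b hb
  obtain ⟨ωZ, hωZ⟩ := exists_form b y hb q.ω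
  obtain ⟨ωX, hωX⟩ := exists_form B _ hB p.ω
  have h1 : Z.IsDivOf ωZ q.can := by
    intro Q
    obtain ⟨a, ha, ha'⟩ := q.isDivisorOf Q
    exact ⟨a, ha, (hωZ _ _).1 ha'⟩
  have h2 : X.IsDivOf ωX p.can := by
    intro P
    obtain ⟨a, ha, ha'⟩ := p.isDivisorOf P
    exact ⟨a, ha, (hωX _ _).1 ha'⟩
  have h3 : X.IsLC ωX p.can p.Δ :=
    ⟨hlc.1, fun v hv a c ha hc => hlc.2 v hv a c ((hωX v a).2 ha) hc⟩
  let 𝒱 : TV k K t :=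
    { ht := ht
      Z := Z
      X := X
      stable := stable_of ht h.stable
      mor := h.mor
      equi := fun P hP h' => by
        obtain ⟨Q, hQ, e, -, he⟩ := h.equi P hP h'
        exact ⟨Q, hQ, e, he⟩ }
  obtain ⟨𝒜, g1, g2, g3, g4, hord⟩ := exists_adj_ord 𝒱 hy ωZ q.can h1 ωX p.can h2 p.Δ p.nonneg h3
    q.Δ q.nonneg (fun j => hq ⟨j.1, j.2.1⟩ (TV.base j) (TV.mult j) ⟨TV.mult_pos j, TV.mult_spec j⟩)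
  have hE : 𝒜.KX + 𝒜.Δ = p.logDiv := by
    rw [g1, g2]
    rfl
  have key := TV.adj_reduction 𝒜 hZ
  rw [hE, g3] at key
  rcases key with h0 | ⟨𝒮, s₀, hfin, hs₀, hall, hmain⟩
  · exact Or.inl h0
  refine Or.inr ⟨𝒮, s₀, hfin, hs₀, fun s hs => ?_, hmain⟩
  obtain ⟨⟨hN, hBf, hBne, heff, hlin⟩, hnefs, hlcs, hklts⟩ := hall s hs
  rw [g4] at heff
  refine ⟨⟨hN, hBf, hBne, fun B hB => (heff B hB).1, fun B hB => (heff B hB).2, ?_, ?_⟩, ?_, hnefs⟩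
  · intro B hB B' hB'
    obtain ⟨ψ, hψ, h5⟩ := hlin B hB B' hB'
    refine ⟨ψ, hψ, fun Q => ?_⟩
    rw [h5]
    rfl
  · intro v hv a κ ha hκ
    exact hlcs v a κ ⟨hv, (hωZ v a).1 ha⟩ hκ
  · rintro ⟨-, hk⟩ v hv a κ ha hκ
    refine hklts v a κ (fun e w hs' c he hc => ?_) hκ
    obtain ⟨h5, h6⟩ := hord v a hv ((hωZ v a).1 ha) e w hs' he
    have h7 := hk _ h5 _ c ((hωX _ _).2 h6) hc
    push_cast at h7
    linarith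

/-- The reduction theorem, with inherited systems. -/
theorem torus_reduction {d : ℕ} (hd : Algebra.trdeg k K = d) (Z : ProjVar k K)
    (X : ProjVar k L) (hZ : Z.IsQFactorial) (h : IsTorusQuotient t X Z) (p : X.Pair (d + r))
    (hlc : p.LC) (q : Z.Pair d) (hq : IsOrbifoldBase p q) :
    (X.genKod K p.logDiv = ⊥ ∧ X.kod p.logDiv = ⊥ ∧ X.nu p.logDiv = ⊥) ∨
    ∃ (𝒮 : Set (ℕ × Set Z.Div)) (s₀ : ℕ × Set Z.Div), 𝒮.Finite ∧ s₀ ∈ 𝒮 ∧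
      (∀ s ∈ 𝒮, IsInherited p q s) ∧
      ((∀ s ∈ 𝒮, ∀ B ∈ s.2, Z.kod (q.adj s.1 B) ≠ ⊥) →
        ∃ s : ℕ, s ≤ r ∧ X.genKod K p.logDiv = s ∧ ∀ B ∈ s₀.2,
          X.kod p.logDiv = s + Z.kod (q.adj s₀.1 B) ∧
          X.nu p.logDiv = s + Z.nu (q.adj s₀.1 B)) := by
  rcases torus_reduction_pair hd Z X hZ h p hlc q hq with h0 | ⟨𝒮, s₀, hfin, hs₀, hall, hmain⟩
  · exact Or.inl h0
  · exact Or.inr ⟨𝒮, s₀, hfin, hs₀, fun s hs => ⟨(hall s hs).1, (hall s hs).2.1,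
      (hall s hs).2.2⟩, hmain⟩

end

end Pool.Agent.Helper92.Weak
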