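import Pool.Agent.Helper92.Sem.Hom
import Pool.Agent.Helper92.Sem.Opt
import Pool.Agent.Helper92.Sem.Center

set_option autoImplicit false
set_option linter.unusedSectionVars false

/-! Semiample divisors on a variety with torus action induce semiample divisors on the base. -/

namespace Pool.Agent.Helper92.Weak

/-- The exponents span the point. -/
lemma exists_conv' {r : ℕ} {ι : Type*} (s : Finset ι) (hs : s.Nonempty) (x : ι → Fin r → ℤ)
    (u : Fin r → ℚ) (h : ∀ w : Fin r → ℤ, (∃ a, ipair w a = 1) →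
      ∃ i ∈ s, pairL w (toQ (x i)) ≤ pairL w u) :
    ∃ t : ι → ℚ, (∀ i ∈ s, 0 ≤ t i) ∧ ∑ i ∈ s, t i = 1 ∧ ∑ i ∈ s, t i • toQ (x i) = u := by
  rcases lp_dual s (fun i => toQ (x i)) (fun _ => 0) u 0 with ⟨τ, h1, h2, h3, h4⟩ | ⟨y, l, hl, hy⟩
  · exact ⟨τ, h1, h2, h3⟩
  · exfalso
    obtain ⟨n, z, hn, hz⟩ := exists_pairL y
    have hn' : (0 : ℚ) < n := by exact_mod_cast hn
    have hlt : ∀ b ∈ s, pairL z u < pairL z (toQ (x b)) := by
      intro b hb
      have h1 := hy b hb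
      rw [← hz, ← hz]
      apply mul_lt_mul_of_pos_left _ hn'
      linarith
    have hz0 : z ≠ 0 := by
      rintro rfl
      obtain ⟨b, hb⟩ := hs
      have := hlt b hb
      simp at this
    obtain ⟨g, e', w', a, u', hg, he', hw', h1⟩ := exists_primitive 0 z (Or.inr hz0)
    have he'0 : e' = 0 := by
      rcases mul_eq_zero.1 he'.symm with h | h
      · exact absurd h hg.ne'
      · exact h
    rw [he'0, mul_zero, zero_add] at h1
    obtain ⟨b, hb, h2⟩ := h w' ⟨u', h1⟩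
    have h3 : ∀ x, pairL z x = g * pairL w' x := by
      intro x
      rw [pairL_apply, pairL_apply, Finset.mul_sum]
      refine Finset.sum_congr rfl fun l _ => ?_
      rw [hw' l]
      push_cast
      ring
    have h4 := hlt b hb
    rw [h3, h3] at h4
    have hg' : (0 : ℚ) < g := by exact_mod_cast hg
    have := lt_of_mul_lt_mul_left h4 hg'.le
    linarith

namespace TV

variable {k K L : Type*} [Field k] [Field K] [Field L] [Algebra k K] [Algebra k L] [Algebra K L]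
  [IsScalarTower k K L] {r : ℕ} {t : Fin r → L} (𝒱 : TV k K t) [IsAlgClosed k] [CharZero k]

/-- The prime divisors of the base through a point are images of prime divisors through a point
above it. -/
lemma exists_over (hQF : 𝒱.Z.IsQFactorial) {R : Subalgebra k L} (hR : R ∈ 𝒱.X.localRings)
    {S : Subalgebra k K} (hS : S ∈ 𝒱.Z.localRings) (hSR : Above S R) (Q : 𝒱.QQ)
    (hQ : S ≤ Q.1.ring) : ∃ j : 𝒱.JJ, base j = Q ∧ R ≤ j.1.ring := by
  classical
  obtain ⟨m, hm, h, hh0, hh⟩ := hQF (Finsupp.single Q 1) S hS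
  have hm0 : (0 : ℚ) < m := by exact_mod_cast hm
  have hval : ∀ Q' : 𝒱.QQ, S ≤ Q'.1.ring → (Q'.1 h : ℚ) = if Q = Q' then (m : ℚ) else 0 := by
    intro Q' hQ'
    rw [hh Q' hQ', Finsupp.smul_apply, Finsupp.single_apply, smul_eq_mul]
    split_ifs <;> simp
  have hhS : h ∈ S := by
    apply 𝒱.Z.hartogs hS
    intro P hP hSP
    have h1 := hval ⟨P, hP⟩ hSP
    have h2 : (0 : ℚ) ≤ (P h : ℚ) := by
      change (0 : ℚ) ≤ ((⟨P, hP⟩ : 𝒱.QQ).1 h : ℚ)
      rw [h1]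
      split_ifs
      · exact hm0.le
      · exact le_rfl
    rw [DVal.mem_ring]
    exact_mod_cast h2
  have hhS' : h⁻¹ ∉ S := by
    intro hcon
    have h1 := hQ hcon
    rw [DVal.mem_ring, DVal.map_inv] at h1
    have h2 := hval Q hQ
    rw [if_pos rfl] at h2
    have h3 : (0 : ℚ) ≤ ((-(Q.1 h) : ℤ) : ℚ) := by exact_mod_cast h1
    push_cast at h3
    linarith
  have hhR : (algebraMap K L h)⁻¹ ∉ R := fun hcon => hhS' (hSR.2 h hhS hcon)
  obtain ⟨P, hP, hRP, hPh⟩ : ∃ P ∈ 𝒱.X.primeDivisors, R ≤ P.ring ∧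
      (algebraMap K L h)⁻¹ ∉ P.ring := by
    by_contra hcon
    push Not at hcon
    exact hhR (𝒱.X.hartogs hR hcon)
  have hPh' : 0 < P (algebraMap K L h) := by
    rw [DVal.mem_ring, DVal.map_inv] at hPh
    omega
  let j : 𝒱.JJ := ⟨P, hP, h, hPh'.ne'⟩
  have hj0 : (0 : ℤ) < mult j := by exact_mod_cast mult_pos j
  have hSj : S ≤ (base j).1.ring := by
    intro y hy
    have h9 := hRP (hSR.1 y hy)
    rw [DVal.mem_ring] at h9
    have h10 := mult_spec j y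
    change P (algebraMap K L y) = _ at h10
    rw [h10] at h9
    rw [DVal.mem_ring]
    by_contra hneg
    push Not at hneg
    have := mul_neg_of_pos_of_neg hj0 hneg
    omega
  refine ⟨j, ?_, hRP⟩
  have h1 := mult_spec j h
  change P (algebraMap K L h) = _ at h1
  rw [h1] at hPh'
  have h2 : 0 < (base j).1 h := (mul_pos_iff_of_pos_left hj0).1 hPh'
  have h3 := hval (base j) hSj
  by_contra hne
  rw [if_neg (fun h => hne h.symm)] at h3
  have h4 : (base j).1 h = 0 := by exact_mod_cast h3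
  omega

variable {𝒱}

section

variable {D : 𝒱.X.primeDivisors → ℚ} {T : ℕ} {s : Finset (K × (Fin r → ℤ))}

/-- Comparison along horizontal valuations. -/
lemma gens_hor (hD : 𝒱.InvDiv D) (hT : 0 < T)
    (hs : ∀ x ∈ s, x.1 ≠ 0 ∧ 𝒱.X.IsSect D T (x.1 • mono t x.2))
    (hgen : ∀ R ∈ 𝒱.X.localRings, ∃ x ∈ s, 𝒱.X.Gens D T (x.1 • mono t x.2) R)
    {u : Fin r → ℚ} (hu : InP 𝒱.data (𝒱.res D) u) (w : Fin r → ℤ) (hw : ∃ a, ipair w a = 1) :
    ∃ x ∈ s, pairL w (toQ x.2) ≤ pairL w ((T : ℚ) • u) := by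
  have hs' : ∃ (c : K) (u : Fin r → ℤ), c ≠ 0 ∧ ZVal.trivial k K c + ipair w u = 1 := by
    obtain ⟨a, ha⟩ := hw
    refine ⟨1, a, one_ne_zero, ?_⟩
    change 0 + _ = _
    rw [zero_add, ha]
  set v := monoVal 𝒱.ht (ZVal.trivial k K) w hs' with hv
  have hvK : ∀ a : K, v (algebraMap K L a) = 0 := fun a => monoVal_algebraMap 𝒱.ht _ _ hs' a
  have hvt : ∀ (c : K) (u : Fin r → ℤ), c ≠ 0 → v (c • mono t u) = ipair w u := by
    intro c u hc
    rw [hv, monoVal_term 𝒱.ht _ _ hs' hc]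
    change 0 + _ = _
    rw [zero_add]
  obtain ⟨R, hR, hRv⟩ := 𝒱.X.exists_center v
  have hKR := 𝒱.K_le_center hvK hR hRv
  obtain ⟨x, hx, hg⟩ := hgen R hR
  refine ⟨x, hx, ?_⟩
  have hx0 := (hs x hx).1
  have hne := hg.ne
  obtain ⟨n, hn, z, hz⟩ := exists_int_multiple u
  have hn0 : (0 : ℚ) < n := by exact_mod_cast hn
  have hT0 : (0 : ℚ) < T := by exact_mod_cast hT
  have h5 : 0 ≤ v (mono t z ^ T * ((x.1 • mono t x.2) ^ n)⁻¹) := by
    apply ProjVar.val_nonneg hR hRv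
    intro P hP hRP
    rw [DVal.map_mul _ (pow_ne_zero _ (𝒱.ht.mono_ne z)) (inv_ne_zero (pow_ne_zero _ hne)),
      DVal.map_pow, DVal.map_inv, DVal.map_pow]
    have h6 := hg.eq ⟨P, hP⟩ hRP
    change (P (x.1 • mono t x.2) : ℚ) + _ = 0 at h6
    have h6' : (P (x.1 • mono t x.2) : ℚ) = -(T * D ⟨P, hP⟩) := by linarith
    have h7 : (0 : ℚ) ≤ ((T * P (mono t z) + -(n * P (x.1 • mono t x.2)) : ℤ) : ℚ) := by
      push_cast
      rw [h6']
      rcases 𝒱.tricho P hP with hni | ⟨i, hi⟩ | ⟨j, hj⟩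
      · have h8 := term_eq_zero 𝒱.stable hP hni 1 z
        rw [one_smul] at h8
        rw [h8, hD ⟨P, hP⟩ hni]
        simp
      · have h8 := 𝒱.hor_term i (one_ne_zero : (1 : K) ≠ 0) z
        rw [one_smul] at h8
        subst hi
        rw [h8, ipair_cast, ← hz, map_smul, smul_eq_mul]
        have h9 : 0 ≤ pairL (wvec i.1 t) u + D ⟨i.1, i.2.1⟩ := hu i
        have h10 : (0 : ℚ) ≤ T * n := by positivity
        have h11 := mul_nonneg h10 h9
        linarith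
      · exfalso
        obtain ⟨a, ha⟩ := j.2.2
        rw [hj] at ha
        have h8 := hRP (hKR a)
        have h9 := hRP (hKR a⁻¹)
        rw [DVal.mem_ring] at h8 h9
        rw [map_inv₀, DVal.map_inv] at h9
        omega
    exact_mod_cast h7
  rw [DVal.map_mul _ (pow_ne_zero _ (𝒱.ht.mono_ne z)) (inv_ne_zero (pow_ne_zero _ hne)),
      DVal.map_pow, DVal.map_inv, DVal.map_pow, hvt _ _ hx0] at h5
  have h6 : v (mono t z) = ipair w z := by
    have := hvt 1 z one_ne_zero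
    rwa [one_smul] at this
  rw [h6] at h5
  have h7 : (0 : ℚ) ≤ ((T * ipair w z + -(n * ipair w x.2) : ℤ) : ℚ) := by exact_mod_cast h5
  push_cast at h7
  rw [ipair_cast, ipair_cast, ← hz, map_smul, smul_eq_mul] at h7
  rw [map_smul, smul_eq_mul]
  change pairL w (fun l => (x.2 l : ℚ)) ≤ _
  have h8 : (n : ℚ) * pairL w (fun l => (x.2 l : ℚ)) ≤ n * (T * pairL w u) := by linarith
  exact le_of_mul_le_mul_left h8 hn0

end

/-- Generation at the centre of a valuation. -/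
theorem gens_center (hQF : 𝒱.Z.IsQFactorial) {D : 𝒱.X.primeDivisors → ℚ} (hD : 𝒱.InvDiv D)
    (hfin : {P | D P ≠ 0}.Finite) (h : 𝒱.X.PSemi D) {u : Fin r → ℚ}
    (hu : InP 𝒱.data (𝒱.res D) u) {v₀ : DVal k K} {S : Subalgebra k K}
    (hS : S ∈ 𝒱.Z.localRings) (hSv : Dominates S v₀.ring) :
    ∃ (m : ℕ) (g : K), 0 < m ∧ 𝒱.Z.Gens (𝒱.data.low (𝒱.res D) u) m g S := by
  classical
  obtain ⟨T, s, hT, hs, hgen⟩ := 𝒱.exists_hom_gens hD hfin h
  have hT0 : (0 : ℚ) < T := by exact_mod_cast hT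
  have hsne : s.Nonempty := by
    obtain ⟨x, hx, -⟩ := hgen _ (𝒱.X.locAt_mem 0 ⊥)
    exact ⟨x, hx⟩
  obtain ⟨l, hl, y, hy⟩ := exists_opt s (fun x => toQ x.2) (fun x => (v₀ x.1 : ℚ)) ((T : ℚ) • u)
    (exists_conv' s hsne (fun x => x.2) _ fun w hw => gens_hor hD hT hs hgen hu w hw)
  obtain ⟨hl0, hl1, hl2, hl3, -⟩ := hl
  obtain ⟨e, w, he, hw, hew⟩ := exists_prim y
  set C := ∑ j ∈ s, l j * (v₀ j.1 : ℚ) with hC
  have he' : (0 : ℚ) < e := by exact_mod_cast he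
  -- the value of a generator
  set c : K × (Fin r → ℤ) → ℚ := fun x => e * v₀ x.1 + pairL w (toQ x.2) with hc
  have hmin : ∀ x ∈ s, pairL w ((T : ℚ) • u) + e * C ≤ c x := by
    intro x hx
    have h1 := mul_le_mul_of_nonneg_left (hy x hx) he'.le
    rw [mul_add, mul_add, hew, hew] at h1
    simp only [hc]
    linarith
  have hsl : ∀ x ∈ s, l x ≠ 0 → c x = pairL w ((T : ℚ) • u) + e * C := by
    have h1 : ∑ x ∈ s, l x * (c x - (pairL w ((T : ℚ) • u) + e * C)) = 0 := by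
      have h2 : ∑ x ∈ s, l x * (c x - (pairL w ((T : ℚ) • u) + e * C)) =
          ∑ x ∈ s, l x * c x - (∑ x ∈ s, l x) * (pairL w ((T : ℚ) • u) + e * C) := by
        rw [Finset.sum_mul, ← Finset.sum_sub_distrib]
        exact Finset.sum_congr rfl fun x _ => mul_sub _ _ _
      rw [h2, hl2, one_mul]
      have h3 : ∑ x ∈ s, l x * c x = e * C + pairL w ((T : ℚ) • u) := by
        rw [← hl3, map_sum, hC, Finset.mul_sum, ← Finset.sum_add_distrib]
        refine Finset.sum_congr rfl fun x _ => ?_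
        simp only [hc]
        rw [map_smul, smul_eq_mul]
        ring
      rw [h3]
      ring
    have h2 := (Finset.sum_eq_zero_iff_of_nonneg (fun x hx =>
      mul_nonneg (hl0 x) (sub_nonneg.2 (hmin x hx)))).1 h1
    intro x hx hlx
    have h3 := (mul_eq_zero.1 (h2 x hx)).resolve_left hlx
    linarith
  -- the valuation
  obtain ⟨p, hp0, hp⟩ := v₀.exists_uniformizer
  have hs' : ∃ (c : K) (u : Fin r → ℤ), c ≠ 0 ∧ ZVal.ofDVal e v₀ c + ipair w u = 1 := by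
    obtain ⟨n, a, hna⟩ := hw
    refine ⟨p ^ n, a, zpow_ne_zero _ hp0, ?_⟩
    change (e : ℤ) * v₀ (p ^ n) + _ = 1
    rw [DVal.map_zpow, hp, mul_one]
    linarith
  set v := monoVal 𝒱.ht (ZVal.ofDVal e v₀) w hs' with hv
  have hvK : ∀ a : K, v (algebraMap K L a) = e * v₀ a := fun a =>
    monoVal_algebraMap 𝒱.ht _ _ hs' a
  have hvt : ∀ (c : K) (u : Fin r → ℤ), c ≠ 0 → v (c • mono t u) = e * v₀ c + ipair w u := by
    intro c u hc
    rw [hv, monoVal_term 𝒱.ht _ _ hs' hc]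
    rfl
  have he0 : (0 : ℤ) < e := by exact_mod_cast he
  have hvc : ∀ x ∈ s, (v (x.1 • mono t x.2) : ℚ) = c x := by
    intro x hx
    rw [hvt _ _ (hs x hx).1]
    simp only [hc]
    push_cast
    rw [ipair_cast]
    rfl
  obtain ⟨R, hR, hRv⟩ := 𝒱.X.exists_center v
  obtain ⟨S₁, hS₁, hS₁R⟩ := 𝒱.mor R hR
  have hS₁v : Dominates S₁ v₀.ring := by
    constructor
    · intro x hx
      have h1 := hRv.1 (hS₁R.1 x hx)
      rw [DVal.mem_ring, hvK] at h1
      rw [DVal.mem_ring]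
      by_contra hneg
      push Not at hneg
      have := mul_neg_of_pos_of_neg he0 hneg
      omega
    · intro x hx hx'
      apply hS₁R.2 x hx
      apply hRv.2 _ (hS₁R.1 x hx)
      rw [DVal.mem_ring] at hx' ⊢
      rw [← map_inv₀, hvK]
      positivity
  have hSS : S₁ = S := 𝒱.Z.separated hS₁ hS hS₁v hSv
  subst hSS
  obtain ⟨x₁, hx₁, hg₁⟩ := hgen R hR
  -- the generators in the support generate
  have hgl : ∀ x ∈ s, l x ≠ 0 → 𝒱.X.Gens D T (x.1 • mono t x.2) R := by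
    intro x hx hlx
    have hxs := (hs x hx).2
    have hmem : x.1 • mono t x.2 / x₁.1 • mono t x₁.2 ∈ R := by
      apply 𝒱.X.hartogs hR
      intro P hP hRP
      rw [DVal.mem_ring, DVal.map_div _ hxs.ne hg₁.ne]
      have h1 := hxs.2 ⟨P, hP⟩
      have h2 := hg₁.eq ⟨P, hP⟩ hRP
      have h3 : (0 : ℚ) ≤ ((P (x.1 • mono t x.2) - P (x₁.1 • mono t x₁.2) : ℤ) : ℚ) := by
        push_cast
        change 0 ≤ (P (x.1 • mono t x.2) : ℚ) + _ at h1
        change (P (x₁.1 • mono t x₁.2) : ℚ) + _ = 0 at h2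
        linarith
      exact_mod_cast h3
    have hval : v (x.1 • mono t x.2 / x₁.1 • mono t x₁.2) = 0 := by
      have h1 := hRv.1 hmem
      rw [DVal.mem_ring] at h1
      rw [DVal.map_div _ hxs.ne hg₁.ne] at h1 ⊢
      have h2 : (v (x.1 • mono t x.2) : ℚ) ≤ v (x₁.1 • mono t x₁.2) := by
        rw [hvc x hx, hvc x₁ hx₁, hsl x hx hlx]
        exact hmin x₁ hx₁
      have h3 : v (x.1 • mono t x.2) ≤ v (x₁.1 • mono t x₁.2) := by exact_mod_cast h2
      omega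
    have hinv := hRv.inv_mem hmem hval
    refine ⟨hxs, fun P hP => ?_⟩
    have h3 := hP hmem
    have h4 := hP hinv
    rw [DVal.mem_ring] at h3 h4
    rw [DVal.map_inv] at h4
    rw [DVal.map_div _ hxs.ne hg₁.ne] at h3 h4
    have h5 : P.1 (x.1 • mono t x.2) = P.1 (x₁.1 • mono t x₁.2) := by omega
    rw [h5]
    exact hg₁.eq P hP
  -- the product
  obtain ⟨q, hq, hqden⟩ := exists_common_den s l
  have hq0 : (0 : ℚ) < q := by exact_mod_cast hq
  have hnat : ∀ x ∈ s, ∃ n : ℕ, (q : ℚ) * l x = n := by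
    intro x hx
    obtain ⟨z, hz⟩ := hqden x hx
    have h0 : 0 ≤ z := by
      have h1 : (0 : ℚ) ≤ z := by
        rw [← hz]
        exact mul_nonneg hq0.le (hl0 x)
      exact_mod_cast h1
    obtain ⟨n, rfl⟩ := Int.eq_ofNat_of_zero_le h0
    exact ⟨n, by rw [hz]; push_cast; rfl⟩
  choose! n hn using hnat
  have hx0 : ∀ x ∈ s, x.1 ^ n x ≠ 0 := fun x hx => pow_ne_zero _ (hs x hx).1
  set g : K := ∏ x ∈ s, x.1 ^ n x with hg
  have hg0 : g ≠ 0 := Finset.prod_ne_zero_iff.2 hx0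
  have hkey : ∀ j : 𝒱.JJ, (mult j : ℚ) * (base j).1 g + ((T * q : ℕ) : ℚ) *
      (pairL (wvec j.1 t) u + D ⟨j.1, j.2.1⟩) =
      ∑ x ∈ s, n x * ((j.1 (x.1 • mono t x.2) : ℚ) + T * D ⟨j.1, j.2.1⟩) := by
    intro j
    have h1 : ((base j).1 g : ℚ) = ∑ x ∈ s, n x * ((base j).1 x.1 : ℚ) := by
      rw [hg, DVal.map_prod _ _ _ hx0]
      push_cast
      refine Finset.sum_congr rfl fun x _ => ?_
      rw [DVal.map_pow]
      push_cast
      rfl
    have h2 : ∑ x ∈ s, (n x : ℚ) = q := by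
      rw [← mul_one (q : ℚ), ← hl2, Finset.mul_sum]
      exact Finset.sum_congr rfl fun x hx => (hn x hx).symm
    have h3 : ∑ x ∈ s, (n x : ℚ) * pairL (wvec j.1 t) (toQ x.2) =
        q * (T * pairL (wvec j.1 t) u) := by
      have h4 : (T : ℚ) * pairL (wvec j.1 t) u = pairL (wvec j.1 t) ((T : ℚ) • u) := by
        rw [map_smul, smul_eq_mul]
      rw [h4, ← hl3, map_sum, Finset.mul_sum]
      refine Finset.sum_congr rfl fun x hx => ?_
      rw [map_smul, smul_eq_mul, ← hn x hx]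
      ring
    have h4 : ∀ x ∈ s, (n x : ℚ) * ((j.1 (x.1 • mono t x.2) : ℚ) + T * D ⟨j.1, j.2.1⟩) =
        mult j * (n x * ((base j).1 x.1 : ℚ)) + n x * pairL (wvec j.1 t) (toQ x.2) +
          n x * (T * D ⟨j.1, j.2.1⟩) := by
      intro x hx
      rw [𝒱.vert_term j (hs x hx).1]
      push_cast
      rw [ipair_cast]
      change _ = _ + (n x : ℚ) * pairL (wvec j.1 t) (fun l => (x.2 l : ℚ)) + _
      ring
    rw [Finset.sum_congr rfl h4, Finset.sum_add_distrib, Finset.sum_add_distrib, h3,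
      ← Finset.sum_mul, h2, ← Finset.mul_sum, ← h1]
    push_cast
    ring
  have hTq : (0 : ℚ) < ((T * q : ℕ) : ℚ) := by exact_mod_cast Nat.mul_pos hT hq
  have hsect : ∀ Q : 𝒱.QQ, 0 ≤ (Q.1 g : ℚ) + ((T * q : ℕ) : ℚ) * 𝒱.data.low (𝒱.res D) u Q := by
    intro Q
    have h1 : -(Q.1 g : ℚ) / ((T * q : ℕ) : ℚ) ≤ 𝒱.data.low (𝒱.res D) u Q := by
      rw [TData.le_low_iff]
      rintro j rfl
      have h2 := hkey j
      have h3 : (0 : ℚ) ≤ ∑ x ∈ s, n x * ((j.1 (x.1 • mono t x.2) : ℚ) + T * D ⟨j.1, j.2.1⟩) :=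
        Finset.sum_nonneg fun x hx => mul_nonneg (by positivity) ((hs x hx).2.2 ⟨j.1, j.2.1⟩)
      rw [← h2] at h3
      change (mult j : ℚ) * (-((base j).1 g : ℚ) / ((T * q : ℕ) : ℚ)) ≤
        pairL (wvec j.1 t) u + D ⟨j.1, j.2.1⟩
      have h4 : (mult j : ℚ) * (-((base j).1 g : ℚ) / ((T * q : ℕ) : ℚ)) =
          -(mult j * (base j).1 g) / ((T * q : ℕ) : ℚ) := by ring
      rw [h4, div_le_iff₀ hTq]
      linarith
    rw [div_le_iff₀ hTq] at h1
    linarith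
  refine ⟨T * q, g, Nat.mul_pos hT hq, ⟨hg0, hsect⟩, fun Q hQ => ?_⟩
  obtain ⟨j, rfl, hjR⟩ := 𝒱.exists_over hQF hR hS₁ hS₁R Q hQ
  have h2 := hkey j
  have h3 : ∑ x ∈ s, n x * ((j.1 (x.1 • mono t x.2) : ℚ) + T * D ⟨j.1, j.2.1⟩) = 0 := by
    apply Finset.sum_eq_zero
    intro x hx
    by_cases hlx : l x = 0
    · have h4 := hn x hx
      rw [hlx, mul_zero] at h4
      rw [← h4, zero_mul]
    · have h4 := (hgl x hx hlx).eq ⟨j.1, j.2.1⟩ hjR
      change (j.1 (x.1 • mono t x.2) : ℚ) + _ = 0 at h4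
      rw [h4, mul_zero]
  rw [h3] at h2
  have h4 : (mult j : ℚ) * 𝒱.data.low (𝒱.res D) u (base j) ≤
      pairL (wvec j.1 t) u + D ⟨j.1, j.2.1⟩ :=
    TData.e_mul_low_le (𝒯 := 𝒱.data) (D := 𝒱.res D) (u := u) (j := j) rfl
  have h5 := mul_le_mul_of_nonneg_left h4 hTq.le
  have hj0 : (0 : ℚ) < mult j := by exact_mod_cast mult_pos j
  have h6 : (mult j : ℚ) * (((base j).1 g : ℚ) + ((T * q : ℕ) : ℚ) *
      𝒱.data.low (𝒱.res D) u (base j)) ≤ 0 := by linarith
  have h7 : ((base j).1 g : ℚ) + ((T * q : ℕ) : ℚ) * 𝒱.data.low (𝒱.res D) u (base j) ≤ 0 := by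
    by_contra hpos
    push Not at hpos
    have := mul_pos hj0 hpos
    linarith
  exact le_antisymm h7 (hsect (base j))

/-- A semiample divisor induces semiample divisors on the base. -/
theorem psemi_low (hQF : 𝒱.Z.IsQFactorial) {D : 𝒱.X.primeDivisors → ℚ} (hD : 𝒱.InvDiv D)
    (hfin : {P | D P ≠ 0}.Finite) (h : 𝒱.X.PSemi D) {u : Fin r → ℚ}
    (hu : InP 𝒱.data (𝒱.res D) u) : 𝒱.Z.PSemi (𝒱.data.low (𝒱.res D) u) := by
  intro S hS
  rcases 𝒱.Z.exists_center_le hS with ⟨v₀, S', hS', hle, hdom⟩ | hno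
  · obtain ⟨m, g, hm, hg⟩ := gens_center hQF hD hfin h hu hS' hdom
    exact ⟨m, g, hm, hg.mono hle⟩
  · exact ⟨1, 1, one_pos, ⟨⟨one_ne_zero, fun P => (hno P.1).elim⟩, fun P _ => (hno P.1).elim⟩⟩

end TV

end Pool.Agent.Helper92.Weak
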