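import Pool.Agent.Helper92.Weak.Core2

set_option autoImplicit false

/-! The vertices of a polytope. -/

namespace Pool.Agent.Helper92.Weak

open Module

section

variable {E ι : Type*} [AddCommGroup E] [Module ℚ E] [FiniteDimensional ℚ E] [Finite ι]

/-- The polytope. -/
def polyt (φ : ι → E →ₗ[ℚ] ℚ) (a : ι → ℚ) : Set E := {u | ∀ i, 0 ≤ φ i u + a i}

/-- The face directions at a point. -/
def dirs (φ : ι → E →ₗ[ℚ] ℚ) (a : ι → ℚ) (u : E) : Submodule ℚ E :=
  ⨅ i : {i : ι // φ i u + a i = 0}, LinearMap.ker (φ i.1)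

omit [FiniteDimensional ℚ E] [Finite ι] in
lemma mem_dirs {φ : ι → E →ₗ[ℚ] ℚ} {a : ι → ℚ} {u z : E} :
    z ∈ dirs φ a u ↔ ∀ i, φ i u + a i = 0 → φ i z = 0 := by
  simp [dirs]

/-- The vertices. -/
def vtx (φ : ι → E →ₗ[ℚ] ℚ) (a : ι → ℚ) : Set E := {u | u ∈ polyt φ a ∧ dirs φ a u = ⊥}

omit [FiniteDimensional ℚ E] in
lemma vtx_finite (φ : ι → E →ₗ[ℚ] ℚ) (a : ι → ℚ) : (vtx φ a).Finite := by
  classical
  have h : Set.InjOn (fun u => {i | φ i u + a i = 0}) (vtx φ a) := by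
    intro u hu u' hu' h
    have h' : ∀ i, φ i u + a i = 0 ↔ φ i u' + a i = 0 := fun i => Set.ext_iff.1 h i
    have h1 : u - u' ∈ dirs φ a u := by
      rw [mem_dirs]
      intro i hi
      have h2 := (h' i).1 hi
      rw [map_sub]
      linarith
    rw [hu.2, Submodule.mem_bot, sub_eq_zero] at h1
    exact h1
  exact Set.Finite.of_finite_image (Set.toFinite _) h

/-- Moving in a direction until a new constraint becomes active. -/
lemma exists_move (φ : ι → E →ₗ[ℚ] ℚ) (a : ι → ℚ) (hc : ∀ z, (∀ i, 0 ≤ φ i z) → z = 0)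
    {u z : E} (hu : u ∈ polyt φ a) (hz : z ∈ dirs φ a u) (hz0 : z ≠ 0) :
    ∃ t : ℚ, 0 < t ∧ u + t • z ∈ polyt φ a ∧
      finrank ℚ (dirs φ a (u + t • z)) < finrank ℚ (dirs φ a u) := by
  classical
  let _ := Fintype.ofFinite ι
  rw [mem_dirs] at hz
  obtain ⟨i₁, hi₁⟩ : ∃ i, φ i z < 0 := by
    by_contra hcon
    push Not at hcon
    exact hz0 (hc z hcon)
  obtain ⟨i₀, hi₀, hmin⟩ := Finset.exists_min_image (Finset.univ.filter fun i => φ i z < 0)
    (fun i => (φ i u + a i) / (-φ i z)) ⟨i₁, by simpa using hi₁⟩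
  have hi₀' : φ i₀ z < 0 := by simpa using hi₀
  have hu₀ : 0 < φ i₀ u + a i₀ := by
    rcases (hu i₀).eq_or_lt with h | h
    · exact absurd (hz i₀ h.symm) hi₀'.ne
    · exact h
  set t := (φ i₀ u + a i₀) / (-φ i₀ z) with ht
  have ht0 : 0 < t := div_pos hu₀ (by linarith)
  have hval : ∀ i, φ i (u + t • z) + a i = φ i u + a i + t * φ i z := by
    intro i
    rw [map_add, map_smul, smul_eq_mul]
    ring
  have hmem : u + t • z ∈ polyt φ a := by
    intro i
    rw [hval]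
    rcases lt_or_ge (φ i z) 0 with h | h
    · have h1 := hmin i (by simpa using h)
      have h2 : t ≤ (φ i u + a i) / (-φ i z) := h1
      rw [le_div_iff₀ (by linarith)] at h2
      linarith
    · have := hu i
      positivity
  have hle : dirs φ a (u + t • z) ≤ dirs φ a u := by
    intro y hy
    rw [mem_dirs] at hy ⊢
    intro i hi
    apply hy i
    rw [hval, hi, hz i hi]
    simp
  refine ⟨t, ht0, hmem, Submodule.finrank_lt_finrank_of_lt (lt_of_le_of_ne hle fun heq => ?_)⟩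
  have h1 : z ∈ dirs φ a (u + t • z) := by
    rw [heq, mem_dirs]
    exact hz
  rw [mem_dirs] at h1
  refine hi₀'.ne (h1 i₀ ?_)
  rw [hval, ht]
  have h2 : (φ i₀) z ≠ 0 := hi₀'.ne
  have h3 : (φ i₀ u + a i₀) / (-φ i₀ z) * φ i₀ z = -(φ i₀ u + a i₀) := by
    rw [div_neg, neg_mul, div_mul_cancel₀ _ h2]
  rw [h3]
  ring

/-- A bounded polytope is the convex hull of its vertices. -/
theorem polyt_subset (φ : ι → E →ₗ[ℚ] ℚ) (a : ι → ℚ) (hc : ∀ z, (∀ i, 0 ≤ φ i z) → z = 0) :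
    polyt φ a ⊆ convexHull ℚ (vtx φ a) := by
  intro u hu
  induction hn : finrank ℚ (dirs φ a u) using Nat.strong_induction_on generalizing u with
  | _ n ih =>
    by_cases hbot : dirs φ a u = ⊥
    · exact subset_convexHull ℚ _ ⟨hu, hbot⟩
    obtain ⟨z, hz, hz0⟩ := Submodule.exists_mem_ne_zero_of_ne_bot hbot
    obtain ⟨t, ht, h1, h2⟩ := exists_move φ a hc hu hz hz0
    obtain ⟨t', ht', h1', h2'⟩ := exists_move φ a hc hu (Submodule.neg_mem _ hz) (neg_ne_zero.2 hz0)
    have h3 := ih _ (by omega) h1 rfl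
    have h4 := ih _ (by omega) h1' rfl
    have h5 : u = (t' / (t + t')) • (u + t • z) + (t / (t + t')) • (u + t' • -z) := by
      have h6 : t + t' ≠ 0 := by positivity
      rw [smul_add, smul_add, smul_smul, smul_smul, smul_neg]
      have h7 : t' / (t + t') * t = t / (t + t') * t' := by ring
      rw [h7]
      have h8 : (t' / (t + t')) • u + (t / (t + t')) • u = u := by
        rw [← add_smul]
        have : t' / (t + t') + t / (t + t') = 1 := by
          field_simp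
          ring
        rw [this, one_smul]
      conv_lhs => rw [← h8]
      abel
    rw [h5]
    exact (convex_convexHull ℚ _) h3 h4 (by positivity) (by positivity) (by
      have h6 : t + t' ≠ 0 := by positivity
      field_simp
      ring)

end

/-- Effectivity is a convex condition. -/
theorem eff_convex {k K : Type*} [Field k] [Field K] [Algebra k K] {r : ℕ} {Q H J : Type*}
    (𝒯 : TData k K r Q H J) (D : H ⊕ J → ℚ) :
    Convex ℚ {u | ∃ T : ℕ, 0 < T ∧ ∃ g : K, g ≠ 0 ∧ g ∈ 𝒯.wt ((T : ℚ) • D) ((T : ℚ) • u)} := by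
  rintro u ⟨T, hT, g, hg0, hg⟩ u' ⟨T', hT', g', hg0', hg'⟩ x y hx hy hxy
  -- common denominators
  set n : ℕ := x.den * y.den with hn
  have hnpos : 0 < n := Nat.mul_pos x.den_pos y.den_pos
  obtain ⟨p, hp⟩ : ∃ p : ℕ, (n : ℚ) * x = p := by
    refine ⟨y.den * x.num.toNat, ?_⟩
    have h1 : (x.den : ℚ) * x = x.num := by rw [mul_comm]; exact Rat.mul_den_eq_num x
    have h2 : ((x.num.toNat : ℤ) : ℚ) = x.num := by
      rw [Int.toNat_of_nonneg (Rat.num_nonneg.2 hx)]
    have h3 : ((x.num.toNat : ℕ) : ℚ) = x.num := by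
      rw [← h2, Int.cast_natCast]
    rw [hn]
    push_cast
    rw [h3, ← h1]
    ring
  obtain ⟨q, hq⟩ : ∃ q : ℕ, (n : ℚ) * y = q := by
    refine ⟨x.den * y.num.toNat, ?_⟩
    have h1 : (y.den : ℚ) * y = y.num := by rw [mul_comm]; exact Rat.mul_den_eq_num y
    have h2 : ((y.num.toNat : ℤ) : ℚ) = y.num := by
      rw [Int.toNat_of_nonneg (Rat.num_nonneg.2 hy)]
    have h3 : ((y.num.toNat : ℕ) : ℚ) = y.num := by
      rw [← h2, Int.cast_natCast]
    rw [hn]
    push_cast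
    rw [h3, ← h1]
    ring
  refine ⟨n * (T * T'), Nat.mul_pos hnpos (Nat.mul_pos hT hT'),
    g ^ (p * T') * g' ^ (q * T), mul_ne_zero (pow_ne_zero _ hg0) (pow_ne_zero _ hg0'), ?_⟩
  have h1 := TData.mul_mem_wt (TData.pow_mem_wt hg hg0 (p * T'))
    (TData.pow_mem_wt hg' hg0' (q * T))
  have e1 : ((p * T' : ℕ) : ℚ) • ((T : ℚ) • D) + ((q * T : ℕ) : ℚ) • ((T' : ℚ) • D) =
      ((n * (T * T') : ℕ) : ℚ) • D := by
    rw [smul_smul, smul_smul, ← add_smul]
    congr 1
    push_cast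
    rw [← hp, ← hq]
    have : (n : ℚ) * x * T' * T + n * y * T * T' = n * (T * T') * (x + y) := by ring
    rw [this, hxy, mul_one]
  have e2 : ((p * T' : ℕ) : ℚ) • ((T : ℚ) • u) + ((q * T : ℕ) : ℚ) • ((T' : ℚ) • u') =
      ((n * (T * T') : ℕ) : ℚ) • (x • u + y • u') := by
    rw [smul_smul, smul_smul, smul_add, smul_smul, smul_smul]
    congr 2
    · push_cast
      rw [← hp]
      ring
    · push_cast
      rw [← hq]
      ring
  rw [e1, e2] at h1
  exact h1

end Pool.Agent.Helper92.Weak
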